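import Pool.Agent.Helper35.QG.Defs

set_option autoImplicit false

/-! Finitely generated linear groups over algebraic extensions. -/

namespace QG

theorem st_DESC : ST_DESC := by
  intro k K _ _ _ _ n H hH
  obtain ⟨S, hS⟩ := id hH
  set E : Set K := Set.range (fun p : S × Fin n × Fin n => (p.1.1).1 p.2.1 p.2.2) ∪
    Set.range (fun p : S × Fin n × Fin n => ((p.1.1)⁻¹).1 p.2.1 p.2.2) with hE
  have hEf : E.Finite := (Set.finite_range _).union (Set.finite_range _)
  have hFin : Finite E := hEf.to_subtype
  have hfd : FiniteDimensional k (IntermediateField.adjoin k E) :=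
    IntermediateField.finiteDimensional_adjoin fun x _ => Algebra.IsIntegral.isIntegral x
  have hsub : E ⊆ IntermediateField.adjoin k E := IntermediateField.subset_adjoin k E
  set φ : GL (Fin n) (IntermediateField.adjoin k E) →* GL (Fin n) K :=
    Matrix.GeneralLinearGroup.map (algebraMap (IntermediateField.adjoin k E) K) with hφ
  have hφi : Function.Injective φ := by
    intro a b hab
    refine Units.ext (Matrix.ext fun i j => ?_)
    have h : (φ a).1 i j = (φ b).1 i j := by rw [hab]
    exact (algebraMap (IntermediateField.adjoin k E) K).injective h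
  have hle : H ≤ φ.range := by
    rw [← hS, Subgroup.closure_le]
    intro x hx
    have h1 : ∀ i j, x.1 i j ∈ IntermediateField.adjoin k E := fun i j =>
      hsub (Or.inl ⟨(⟨x, hx⟩, i, j), rfl⟩)
    have h2 : ∀ i j, (x⁻¹).1 i j ∈ IntermediateField.adjoin k E := fun i j =>
      hsub (Or.inr ⟨(⟨x, hx⟩, i, j), rfl⟩)
    have h3 : x.1 * (x⁻¹).1 = 1 := by
      rw [← Units.val_mul, mul_inv_cancel]; rfl
    have h4 : (x⁻¹).1 * x.1 = 1 := by
      rw [← Units.val_mul, inv_mul_cancel]; rfl
    set A : Matrix (Fin n) (Fin n) (IntermediateField.adjoin k E) :=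
      Matrix.of fun i j => ⟨x.1 i j, h1 i j⟩ with hA
    set B : Matrix (Fin n) (Fin n) (IntermediateField.adjoin k E) :=
      Matrix.of fun i j => ⟨(x⁻¹).1 i j, h2 i j⟩ with hB
    have hinj := Matrix.map_injective (m := Fin n) (n := Fin n)
      (algebraMap (IntermediateField.adjoin k E) K).injective
    have hA' : A.map (algebraMap (IntermediateField.adjoin k E) K) = x.1 :=
      Matrix.ext fun i j => rfl
    have hB' : B.map (algebraMap (IntermediateField.adjoin k E) K) = (x⁻¹).1 :=
      Matrix.ext fun i j => rfl
    have hone : (1 : Matrix (Fin n) (Fin n) (IntermediateField.adjoin k E)).map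
        (algebraMap (IntermediateField.adjoin k E) K) = 1 :=
      Matrix.map_one _ (map_zero _) (map_one _)
    have hAB : A * B = 1 := by
      refine hinj ?_
      show (A * B).map _ = (1 : Matrix (Fin n) (Fin n) (IntermediateField.adjoin k E)).map _
      rw [Matrix.map_mul, hA', hB', h3, hone]
    have hBA : B * A = 1 := by
      refine hinj ?_
      show (B * A).map _ = (1 : Matrix (Fin n) (Fin n) (IntermediateField.adjoin k E)).map _
      rw [Matrix.map_mul, hA', hB', h4, hone]
    exact ⟨⟨A, B, hAB, hBA⟩, Units.ext hA'⟩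
  have hmap : (H.comap φ).map φ = H := Subgroup.map_comap_eq_self hle
  have e : H.comap φ ≃* H :=
    ((H.comap φ).equivMapOfInjective φ hφi).trans (MulEquiv.subgroupCongr hmap)
  refine ⟨IntermediateField.adjoin k E, inferInstance, inferInstance, hfd, H.comap φ, ?_,
    ⟨e.symm⟩⟩
  have hG : Group.FG H := (Group.fg_iff_subgroup_fg H).2 hH
  exact (Group.fg_iff_subgroup_fg _).1
    (Group.fg_of_surjective (f := e.symm.toMonoidHom) e.symm.surjective)

end QG
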