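import Pool.Agent.Helper35.QG.Defs

set_option autoImplicit false

/-! Row ELM: elementary matrices are short words. -/

namespace QG

open QD hiding Vb GLB dg Inst conj_mem_Vb ST_UNIa ST_UNIb ST_COV ST_SET ST_UNQ ST_GEN
  ST_COVR ST_OBD ST_FNS ST_CORE ST_ONE
open QN (QAr gd E0 Grid ew ST_GRD0 ST_GRD1 ST_GRD2 ST_SUPR ST_PRD)

section aux

variable {Kf : Type} [Field Kf]

/-- elementary matrices as units -/
def elmE {n : ℕ} (x y : Fin n) (h : x ≠ y) (β : Kf) : GL (Fin n) Kf where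
  val := Matrix.transvection x y β
  inv := Matrix.transvection x y (-β)
  val_inv := by
    rw [Matrix.transvection_mul_transvection_same _ _ h, add_neg_cancel,
      Matrix.transvection_zero]
  inv_val := by
    rw [Matrix.transvection_mul_transvection_same _ _ h, neg_add_cancel,
      Matrix.transvection_zero]

theorem elmE_add {n : ℕ} (x y : Fin n) (h : x ≠ y) (β γ : Kf) :
    elmE x y h (β + γ) = elmE x y h β * elmE x y h γ := by
  apply Units.ext
  show Matrix.transvection x y (β + γ) = Matrix.transvection x y β * Matrix.transvection x y γ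
  rw [Matrix.transvection_mul_transvection_same _ _ h]

theorem elmE_zero {n : ℕ} (x y : Fin n) (h : x ≠ y) : elmE x y h (0 : Kf) = 1 := by
  apply Units.ext
  show Matrix.transvection x y (0 : Kf) = 1
  rw [Matrix.transvection_zero]

theorem elmE_val {n : ℕ} (x y : Fin n) (h : x ≠ y) (β : Kf) (a b : Fin n) :
    (elmE x y h β).1 a b = (1 : Matrix (Fin n) (Fin n) Kf) a b + if x = a ∧ y = b then β else 0 := by
  show (Matrix.transvection x y β) a b = _
  rw [Matrix.transvection, Matrix.add_apply, Matrix.single_apply]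

theorem elmE_inv {n : ℕ} (x y : Fin n) (h : x ≠ y) (β : Kf) :
    (elmE x y h β)⁻¹ = elmE x y h (-β) := by
  rw [inv_eq_iff_mul_eq_one, ← elmE_add, add_neg_cancel, elmE_zero]

theorem elmE_GLB {n : ℕ} (B : Subring Kf) (x y : Fin n) (h : x ≠ y) (β : Kf) (hβ : β ∈ B) :
    elmE x y h β ∈ GLB (ι := Fin n) B := by
  have key : ∀ (γ : Kf), γ ∈ B → ∀ a b, (elmE x y h γ).1 a b ∈ B := by
    intro γ hγ a b
    rw [elmE_val, Matrix.one_apply]
    split_ifs
    · exact B.add_mem B.one_mem hγ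
    · exact B.add_mem B.one_mem B.zero_mem
    · exact B.add_mem B.zero_mem hγ
    · exact B.add_mem B.zero_mem B.zero_mem
  refine ⟨key β hβ, ?_⟩
  rw [elmE_inv]
  exact key (-β) (B.neg_mem hβ)

theorem elmE_Pst {n : ℕ} (x y : Fin n) (h : x < y) (β : Kf) (i : ℕ) :
    elmE x y h.ne β ∈ Pst (n := n) i := by
  have key : ∀ (γ : Kf) (a b : Fin n), (b : ℕ) < i → i ≤ (a : ℕ) →
      (elmE x y h.ne γ).1 a b = 0 := by
    intro γ a b hb ha
    have hab : a ≠ b := by rintro rfl; omega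
    rw [elmE_val, Matrix.one_apply_ne hab, if_neg, add_zero]
    rintro ⟨rfl, rfl⟩
    have : (x : ℕ) < (y : ℕ) := h
    omega
  intro a b hb ha
  refine ⟨key β a b hb ha, ?_⟩
  rw [elmE_inv]
  exact key (-β) a b hb ha

/-- the diagonal matrix with entry `u` at `x` -/
def elmT {n : ℕ} (x : Fin n) (u : Kfˣ) : GL (Fin n) Kf where
  val := Matrix.diagonal (fun a => if a = x then (u : Kf) else 1)
  inv := Matrix.diagonal (fun a => if a = x then ((u⁻¹ : Kfˣ) : Kf) else 1)
  val_inv := by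
    rw [Matrix.diagonal_mul_diagonal, ← Matrix.diagonal_one]
    congr 1
    funext a
    split_ifs <;> simp
  inv_val := by
    rw [Matrix.diagonal_mul_diagonal, ← Matrix.diagonal_one]
    congr 1
    funext a
    split_ifs <;> simp

theorem elmT_inv {n : ℕ} (x : Fin n) (u : Kfˣ) : (elmT x u)⁻¹ = elmT x u⁻¹ := by
  apply Units.ext
  show (elmT x u).inv = _
  rfl

theorem elmT_GLB {n : ℕ} (B : Subring Kf) (x : Fin n) (u : Kfˣ) (h1 : (u : Kf) ∈ B)
    (h2 : ((u⁻¹ : Kfˣ) : Kf) ∈ B) : elmT x u ∈ GLB (ι := Fin n) B := by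
  have key : ∀ (v : Kfˣ), (v : Kf) ∈ B → ∀ a b, (elmT x v).1 a b ∈ B := by
    intro v hv a b
    show Matrix.diagonal (fun a => if a = x then (v : Kf) else 1) a b ∈ B
    rw [Matrix.diagonal_apply]
    split_ifs
    · exact hv
    · exact B.one_mem
    · exact B.zero_mem
  refine ⟨key u h1, ?_⟩
  rw [elmT_inv]
  exact key u⁻¹ h2

theorem elmT_Pst {n : ℕ} (x : Fin n) (u : Kfˣ) (i : ℕ) : elmT x u ∈ Pst (n := n) i := by
  have key : ∀ (v : Kfˣ) (a b : Fin n), (b : ℕ) < i → i ≤ (a : ℕ) → (elmT x v).1 a b = 0 := by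
    intro v a b hb ha
    have hab : a ≠ b := by rintro rfl; omega
    show Matrix.diagonal (fun a => if a = x then (v : Kf) else 1) a b = 0
    exact Matrix.diagonal_apply_ne _ hab
  intro a b hb ha
  refine ⟨key u a b hb ha, ?_⟩
  rw [elmT_inv]
  exact key u⁻¹ a b hb ha

theorem elm_conj {n : ℕ} (x y : Fin n) (h : x ≠ y) (u : Kfˣ) (β : Kf) :
    elmT x u * elmE x y h β * (elmT x u)⁻¹ = elmE x y h ((u : Kf) * β) := by
  apply Units.ext
  ext a b
  rw [elmT_inv]
  show (Matrix.diagonal (fun a => if a = x then (u : Kf) else 1) * (elmE x y h β).1 *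
    Matrix.diagonal (fun a => if a = x then ((u⁻¹ : Kfˣ) : Kf) else 1)) a b = _
  rw [Matrix.mul_diagonal, Matrix.diagonal_mul, elmE_val, elmE_val, Matrix.one_apply]
  by_cases hab : a = b
  · subst hab
    have hno : ¬ (x = a ∧ y = a) := by rintro ⟨rfl, h2⟩; exact h h2.symm
    rw [if_neg hno, if_neg hno]
    by_cases hax : a = x
    · simp [hax]
    · simp [hax]
  · by_cases hxy : x = a ∧ y = b
    · obtain ⟨rfl, rfl⟩ := hxy
      simp [h, Ne.symm h]
    · simp [hab, hxy]

end aux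

theorem st_ELM : ST_ELM := by
  classical
  intro Kf _ Gd n
  -- large units
  have hu : ∀ v : Gd.I, ∃ u : Kfˣ, (u : Kf) ∈ Gd.B ∧ ((u⁻¹ : Kfˣ) : Kf) ∈ Gd.B ∧
      4 ≤ Gd.av v (u : Kf) := by
    intro v
    obtain ⟨α, h1, h2, h3, _⟩ := Gd.hU v v
    obtain ⟨N, hN⟩ := pow_unbounded_of_one_lt (4 : ℝ) h3
    refine ⟨α ^ N, ?_, ?_, ?_⟩
    · rw [Units.val_pow_eq_pow_val]
      exact pow_mem h1 N
    · rw [← inv_pow, Units.val_pow_eq_pow_val]
      exact pow_mem h2 N
    · rw [Units.val_pow_eq_pow_val, map_pow]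
      exact hN.le
  choose u hu1 hu2 hu4 using hu
  obtain ⟨R0, hR0⟩ : ∃ R0 : ℕ, ∀ v w : Gd.I, Gd.av w (u v : Kf) ≤ R0 := by
    obtain ⟨R, hR⟩ := exists_nat_ge (∑ p : Gd.I × Gd.I, Gd.av p.2 (u p.1 : Kf))
    refine ⟨R, fun v w => le_trans ?_ hR⟩
    exact Finset.single_le_sum (f := fun p : Gd.I × Gd.I => Gd.av p.2 (u p.1 : Kf))
      (fun p _ => (Gd.av p.2).nonneg _) (Finset.mem_univ (v, w))
  set R : ℕ := R0 + 2 + Fintype.card (Gd.I) with hR
  set E : Set (GL (Fin n) Kf) := {g | ∃ (x y : Fin n) (h : x < y) (β : Kf), β ∈ Gd.B ∧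
    (∀ w, Gd.av w β ≤ R) ∧ g = elmE x y h.ne β} with hE
  set T : Set (GL (Fin n) Kf) := {g | ∃ (x : Fin n) (v : Gd.I),
    g = elmT x (u v) ∨ g = (elmT x (u v))⁻¹} with hT
  have hEfin : E.Finite := by
    have h1 : ((Set.univ : Set (Fin n × Fin n)) ×ˢ {β : Kf | β ∈ Gd.B ∧ ∀ i, Gd.av i β ≤ R}).Finite :=
      Set.finite_univ.prod (Gd.hB R)
    apply (h1.image (fun p : (Fin n × Fin n) × Kf =>
      if h : p.1.1 ≠ p.1.2 then elmE p.1.1 p.1.2 h p.2 else 1)).subset
    rintro g ⟨x, y, h, β, hβ, hw, rfl⟩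
    refine ⟨((x, y), β), ⟨Set.mem_univ _, hβ, hw⟩, ?_⟩
    simp only
    rw [dif_pos h.ne]
  have hTfin : T.Finite := by
    have h1 : (Set.range (fun p : Fin n × Gd.I => elmT p.1 (u p.2))).Finite := Set.finite_range _
    have h2 : (Set.range (fun p : Fin n × Gd.I => (elmT p.1 (u p.2))⁻¹)).Finite :=
      Set.finite_range _
    apply (h1.union h2).subset
    rintro g ⟨x, v, rfl | rfl⟩
    · exact Or.inl ⟨(x, v), rfl⟩
    · exact Or.inr ⟨(x, v), rfl⟩
  refine ⟨E ∪ T, 3 * Fintype.card (Gd.I) + 1, hEfin.union hTfin, ?_, ?_⟩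
  · rintro s (⟨x, y, h, β, hβ, _, rfl⟩ | ⟨x, v, rfl | rfl⟩)
    · exact ⟨elmE_GLB _ _ _ _ _ hβ, fun i => elmE_Pst x y h β i⟩
    · exact ⟨elmT_GLB _ _ _ (hu1 v) (hu2 v), fun i => elmT_Pst _ _ _⟩
    · exact ⟨inv_mem (elmT_GLB _ _ _ (hu1 v) (hu2 v)), fun i => inv_mem (elmT_Pst _ _ _)⟩
  -- one place
  have one : ∀ (v : Gd.I) (x y : Fin n) (h : x < y) (k : ℕ) (β : Kf), β ∈ Gd.B →
      Gd.av v β ≤ 2 ^ (k + 1) → (∀ w, w ≠ v → Gd.av w β ≤ 1) →
      ∃ w : List (GL (Fin n) Kf), w.prod = elmE x y h.ne β ∧ w.length ≤ 3 * k + 1 ∧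
        ∀ s ∈ w, s ∈ E ∪ T := by
    intro v x y h k
    induction k with
    | zero =>
      intro β hβ hv hw
      refine ⟨[elmE x y h.ne β], by simp, by simp, ?_⟩
      intro s hs
      rw [List.mem_singleton] at hs
      subst hs
      refine Or.inl ⟨x, y, h, β, hβ, ?_, rfl⟩
      intro w
      have hc : (2 : ℝ) ≤ (R : ℝ) := by
        rw [hR]; push_cast
        have : (0 : ℝ) ≤ (R0 : ℝ) := by positivity
        have : (0 : ℝ) ≤ (Fintype.card (Gd.I) : ℝ) := by positivity
        linarith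
      by_cases hwv : w = v
      · subst hwv
        have : (2 : ℝ) ^ (0 + 1) = 2 := by norm_num
        rw [this] at hv
        linarith
      · have := hw w hwv
        linarith
    | succ k ih =>
      intro β hβ hv hw
      obtain ⟨β1, hβ1, h1⟩ := Gd.hA (fun w => if w = v then β / (u v : Kf) else 0)
      have hv1 : Gd.av v (β / (u v : Kf) - β1) ≤ 1 := by
        have := h1 v
        rwa [if_pos rfl] at this
      have hw1 : ∀ w, w ≠ v → Gd.av w β1 ≤ 1 := by
        intro w hwv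
        have := h1 w
        rw [if_neg hwv, zero_sub, (Gd.av w).map_neg] at this
        exact this
      have hune : (u v : Kf) ≠ 0 := Units.ne_zero _
      have huv : 0 < Gd.av v (u v : Kf) := lt_of_lt_of_le (by norm_num) (hu4 v)
      have hb1 : Gd.av v β1 ≤ 2 ^ (k + 1) := by
        have e1 : β1 = β / (u v : Kf) + -(β / (u v : Kf) - β1) := by ring
        have e2 : Gd.av v β1 ≤ Gd.av v (β / (u v : Kf)) + Gd.av v (β / (u v : Kf) - β1) := by
          calc Gd.av v β1 = Gd.av v (β / (u v : Kf) + -(β / (u v : Kf) - β1)) := by rw [← e1]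
            _ ≤ Gd.av v (β / (u v : Kf)) + Gd.av v (-(β / (u v : Kf) - β1)) := (Gd.av v).add_le _ _
            _ = _ := by rw [(Gd.av v).map_neg]
        have e3 : Gd.av v (β / (u v : Kf)) ≤ 2 ^ (k + 1 + 1) / 4 := by
          rw [map_div₀]
          exact div_le_div₀ (by positivity) hv (by norm_num) (hu4 v)
        have e4 : (2 : ℝ) ^ (k + 1 + 1) / 4 = 2 ^ k := by
          rw [pow_succ, pow_succ]; ring
        have e5 : (1 : ℝ) ≤ 2 ^ k := one_le_pow₀ (by norm_num)
        rw [e4] at e3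
        have e6 : (2 : ℝ) ^ (k + 1) = 2 ^ k + 2 ^ k := by rw [pow_succ]; ring
        rw [e6]
        linarith
      obtain ⟨w1, hw1p, hw1l, hw1s⟩ := ih β1 hβ1 hb1 hw1
      set β0 := β - (u v : Kf) * β1 with hβ0
      have hβ0B : β0 ∈ Gd.B := (Gd.B).sub_mem hβ ((Gd.B).mul_mem (hu1 v) hβ1)
      have hβ0R : ∀ w, Gd.av w β0 ≤ R := by
        intro w
        have hcp : (0 : ℝ) ≤ (Fintype.card (Gd.I) : ℝ) := by positivity
        by_cases hwv : w = v
        · subst hwv
          have e1 : β0 = (u w : Kf) * (β / (u w : Kf) - β1) := by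
            rw [hβ0]; field_simp
          rw [e1, map_mul]
          have e2 : Gd.av w (u w : Kf) * Gd.av w (β / (u w : Kf) - β1) ≤ Gd.av w (u w : Kf) * 1 :=
            mul_le_mul_of_nonneg_left hv1 ((Gd.av w).nonneg _)
          have e3 := hR0 w w
          rw [hR]; push_cast
          linarith
        · have e1 : Gd.av w β0 ≤ Gd.av w β + Gd.av w (u v : Kf) * Gd.av w β1 := by
            calc Gd.av w β0 = Gd.av w (β + -((u v : Kf) * β1)) := by rw [hβ0, sub_eq_add_neg]
              _ ≤ Gd.av w β + Gd.av w (-((u v : Kf) * β1)) := (Gd.av w).add_le _ _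
              _ = _ := by rw [(Gd.av w).map_neg, map_mul]
          have e2 : Gd.av w (u v : Kf) * Gd.av w β1 ≤ Gd.av w (u v : Kf) * 1 :=
            mul_le_mul_of_nonneg_left (hw1 w hwv) ((Gd.av w).nonneg _)
          have e3 := hR0 v w
          have e4 := hw w hwv
          rw [hR]; push_cast
          linarith
      refine ⟨elmE x y h.ne β0 :: elmT x (u v) :: (w1 ++ [(elmT x (u v))⁻¹]), ?_, ?_, ?_⟩
      · rw [List.prod_cons, List.prod_cons, List.prod_append, hw1p, List.prod_singleton,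
          ← mul_assoc (elmT x (u v)), elm_conj, ← elmE_add]
        congr 1
        rw [hβ0]; ring
      · simp only [List.length_cons, List.length_append, List.length_nil]
        omega
      · intro s hs
        simp only [List.mem_cons, List.mem_append, List.not_mem_nil, or_false] at hs
        rcases hs with rfl | rfl | hs | rfl
        · exact Or.inl ⟨x, y, h, β0, hβ0B, hβ0R, rfl⟩
        · exact Or.inr ⟨x, v, Or.inl rfl⟩
        · exact hw1s s hs
        · exact Or.inr ⟨x, v, Or.inr rfl⟩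
  -- general
  intro k x y β g hxy hβ hk hg
  have hge : g = elmE x y hxy.ne β := by
    apply Units.ext
    rw [hg]
    rfl
  have hbv : ∀ v : Gd.I, ∃ γ ∈ Gd.B, Gd.av v (β - γ) ≤ 1 ∧ ∀ w, w ≠ v → Gd.av w γ ≤ 1 := by
    intro v
    obtain ⟨γ, hγ, h1⟩ := Gd.hA (fun w => if w = v then β else 0)
    refine ⟨γ, hγ, ?_, ?_⟩
    · have := h1 v
      rwa [if_pos rfl] at this
    · intro w hwv
      have := h1 w
      rw [if_neg hwv, zero_sub, (Gd.av w).map_neg] at this
      exact this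
  choose γ hγB hγv hγw using hbv
  have hsum : ∀ s : Finset (Gd.I), ∃ w : List (GL (Fin n) Kf),
      w.prod = elmE x y hxy.ne (∑ v ∈ s, γ v) ∧ w.length ≤ s.card * (3 * k + 1) ∧
        ∀ t ∈ w, t ∈ E ∪ T := by
    intro s
    induction s using Finset.induction_on with
    | empty =>
      refine ⟨[], ?_, by simp, by simp⟩
      rw [Finset.sum_empty, elmE_zero, List.prod_nil]
    | insert v s hvs ih =>
      obtain ⟨w, h1, h2, h3⟩ := ih
      have hvk : Gd.av v (γ v) ≤ 2 ^ (k + 1) := by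
        have e2 : Gd.av v (γ v) ≤ Gd.av v β + Gd.av v (β - γ v) := by
          calc Gd.av v (γ v) = Gd.av v (β + -(β - γ v)) := by congr 1; ring
            _ ≤ Gd.av v β + Gd.av v (-(β - γ v)) := (Gd.av v).add_le _ _
            _ = _ := by rw [(Gd.av v).map_neg]
        have e5 : (1 : ℝ) ≤ 2 ^ k := one_le_pow₀ (by norm_num)
        have e6 : (2 : ℝ) ^ (k + 1) = 2 ^ k + 2 ^ k := by rw [pow_succ]; ring
        have e7 := hk v
        have e8 := hγv v
        rw [e6]
        linarith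
      obtain ⟨w', h1', h2', h3'⟩ := one v x y hxy k (γ v) (hγB v) hvk (hγw v)
      refine ⟨w' ++ w, ?_, ?_, ?_⟩
      · rw [List.prod_append, h1, h1', Finset.sum_insert hvs, elmE_add]
      · rw [List.length_append, Finset.card_insert_of_notMem hvs]
        nlinarith
      · intro t ht
        rcases List.mem_append.mp ht with ht | ht
        · exact h3' t ht
        · exact h3 t ht
  obtain ⟨w, h1, h2, h3⟩ := hsum Finset.univ
  set δ := β - ∑ v : Gd.I, γ v with hδ
  have hδB : δ ∈ Gd.B := (Gd.B).sub_mem hβ ((Gd.B).sum_mem fun v _ => hγB v)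
  have hδR : ∀ w, Gd.av w δ ≤ R := by
    intro w
    have e0 : δ = (β - γ w) + -(∑ v ∈ Finset.univ.erase w, γ v) := by
      rw [hδ, ← Finset.add_sum_erase Finset.univ γ (Finset.mem_univ w)]
      ring
    have e1 : Gd.av w δ ≤ Gd.av w (β - γ w) + ∑ v ∈ Finset.univ.erase w, Gd.av w (γ v) := by
      calc Gd.av w δ = Gd.av w ((β - γ w) + -(∑ v ∈ Finset.univ.erase w, γ v)) := by rw [← e0]
        _ ≤ Gd.av w (β - γ w) + Gd.av w (-(∑ v ∈ Finset.univ.erase w, γ v)) := (Gd.av w).add_le _ _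
        _ = Gd.av w (β - γ w) + Gd.av w (∑ v ∈ Finset.univ.erase w, γ v) := by
            rw [(Gd.av w).map_neg]
        _ ≤ _ := by
            gcongr
            exact (Gd.av w).sum_le _ _
    have e2 : ∑ v ∈ Finset.univ.erase w, Gd.av w (γ v) ≤
        ∑ v ∈ Finset.univ.erase w, (1 : ℝ) := by
      apply Finset.sum_le_sum
      intro v hv
      exact hγw v w (Finset.ne_of_mem_erase hv).symm
    have e3 : ∑ v ∈ Finset.univ.erase w, (1 : ℝ) ≤ Fintype.card (Gd.I) := by
      rw [Finset.sum_const, nsmul_eq_mul, mul_one]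
      exact_mod_cast (Finset.card_le_card (Finset.erase_subset _ _))
    have e4 := hγv w
    rw [hR]; push_cast
    have : (0 : ℝ) ≤ (R0 : ℝ) := by positivity
    linarith
  refine ⟨elmE x y hxy.ne δ :: w, ?_, ?_, ?_⟩
  · rw [List.prod_cons, h1, ← elmE_add, hge]
    congr 1
    rw [hδ]; ring
  · rw [List.length_cons]
    rw [Finset.card_univ] at h2
    nlinarith [Nat.zero_le (Fintype.card (Gd.I))]
  · intro t ht
    rcases List.mem_cons.mp ht with rfl | ht
    · exact Or.inl ⟨x, y, hxy, δ, hδB, hδR, rfl⟩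
    · exact h3 t ht

end QG
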