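import Pool.Agent.Helper35.QG.Defs

set_option autoImplicit false

/-!
Row FIL over a global field: fillings of null words of `GL_n(B)`.
-/

namespace QG

open QD hiding Vb GLB dg Inst conj_mem_Vb ST_UNIa ST_UNIb ST_COV ST_SET ST_UNQ ST_GEN
  ST_COVR ST_OBD ST_FNS ST_CORE ST_ONE
open QN (QAr gd E0 Grid ew ST_GRD0 ST_GRD1 ST_GRD2 ST_SUPR ST_PRD)

/-! ### Words -/

section words
variable {G : Type} [Group G] {S : Set G} {c : ℕ}

/-- `u u⁻¹ → []`. -/
theorem fil_cancel (hc : 2 ≤ c) (hS : ∀ s ∈ S, s⁻¹ ∈ S) (u : List G) (hu : ∀ g ∈ u, g ∈ S) :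
    Ar S c u.length (u ++ (u.map fun g => g⁻¹).reverse) [] := by
  induction u with
  | nil => exact Ar.refl _ _
  | cons g u ih =>
    have h1 := (ih (fun x hx => hu x (by simp [hx]))).congr [g] [g⁻¹]
    have h2 : Ar S c 1 [g, g⁻¹] [] := by
      apply Ar.whole
      · simp
      · simpa using hc
      · simp
      · intro x hx
        simp only [List.mem_cons, List.not_mem_nil, or_false] at hx
        rcases hx with rfl | rfl
        · exact hu _ (by simp)
        · exact hS _ (hu _ (by simp))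
      · simp
    have h3 := h1.trans (by simpa using h2)
    simpa [List.map_cons, List.reverse_cons, List.append_assoc] using h3

/-- `1 ⋯ 1 → []`. -/
theorem fil_ones (hc : 1 ≤ c) (h1 : (1 : G) ∈ S) (n : ℕ) :
    Ar S c n (List.replicate n (1 : G)) [] := by
  induction n with
  | zero => exact Ar.refl _ _
  | succ n ih =>
    have h2 : Ar S c 1 [(1 : G)] [] := by
      apply Ar.whole
      · simp
      · simpa using hc
      · simp
      · intro x hx
        simp only [List.mem_cons, List.not_mem_nil, or_false] at hx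
        rw [hx]; exact h1
      · simp
    have h3 := h2.right (List.replicate n (1 : G))
    have h4 := h3.trans (by simpa using ih)
    rw [List.replicate_succ]
    have h5 : Ar S c (1 + n) ((1 : G) :: List.replicate n 1) [] := by simpa using h4
    exact h5.mono_k (by omega)

/-- Telescoping. -/
theorem fil_tel (hc : 2 ≤ c) (s b κ : ℕ → G) (h : ∀ e, κ e * b e = s e * κ (e + 1))
    (hs : ∀ e, s e ∈ S) (hb : ∀ e, b e ∈ S) (hκ : ∀ e, κ e ∈ S) (E : ℕ) :
    Ar S c E (κ 0 :: (List.range E).map b) ((List.range E).map s ++ [κ E]) := by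
  induction E with
  | zero => exact Ar.refl _ _
  | succ E ih =>
    have h1 := ih.right [b E]
    have h2 : Ar S c 1 [κ E, b E] [s E, κ (E + 1)] := by
      apply Ar.whole
      · simp [h]
      · simpa using hc
      · simpa using hc
      · intro x hx
        simp only [List.mem_cons, List.not_mem_nil, or_false] at hx
        rcases hx with rfl | rfl
        · exact hκ _
        · exact hb _
      · intro x hx
        simp only [List.mem_cons, List.not_mem_nil, or_false] at hx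
        rcases hx with rfl | rfl
        · exact hs _
        · exact hκ _
    have h3 := h2.left ((List.range E).map s)
    have h4 : Ar S c (E + 1) (κ 0 :: (List.range E).map b ++ [b E])
        ((List.range E).map s ++ [s E, κ (E + 1)]) := by
      refine h1.trans ?_
      simpa using h3
    simpa [List.range_succ] using h4

theorem fil_QAr_mono {T : Set G} {c' A A' : ℕ} (hc : c ≤ c') (hA : A ≤ A')
    (h : QAr S T c A) : QAr S T c' A' := by
  intro u v hu hv huv
  refine ((h u v hu hv huv).mono hc (le_refl S)).mono_k ?_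
  exact Nat.add_le_add (Nat.mul_le_mul_right _ hA) hA

end words

/-! ### Sizes -/

section sizes
variable {Kf : Type} [Field Kf] {Gd : GlobN Kf} {n : ℕ}

theorem fil_size_mono {k k' : ℕ} (h : k ≤ k') {g : GL (Fin n) Kf} (hg : SizeLe Gd k g) :
    SizeLe Gd k' g := fun v x y =>
  ⟨(hg v x y).1.trans (pow_le_pow_right₀ one_le_two h),
    (hg v x y).2.trans (pow_le_pow_right₀ one_le_two h)⟩

theorem fil_exists_size (F : Set (GL (Fin n) Kf)) (hF : F.Finite) :
    ∃ k, ∀ g ∈ F, SizeLe Gd k g := by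
  have hfin : (⋃ t ∈ F, ⋃ i : Gd.I, ⋃ x : Fin n, ⋃ y : Fin n,
      ({Gd.av i (t.1 x y), Gd.av i ((t⁻¹).1 x y)} : Set ℝ)).Finite :=
    hF.biUnion fun t _ => Set.finite_iUnion fun i => Set.finite_iUnion fun x =>
      Set.finite_iUnion fun y => Set.toFinite _
  obtain ⟨B, hB⟩ := hfin.bddAbove
  refine ⟨⌈B⌉₊, fun t ht i x y => ?_⟩
  have h1 : B ≤ 2 ^ ⌈B⌉₊ := by
    refine (Nat.le_ceil B).trans ?_
    have h2 : ⌈B⌉₊ ≤ 2 ^ ⌈B⌉₊ := Nat.lt_two_pow_self.le
    exact_mod_cast h2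
  constructor
  · refine le_trans (hB ?_) h1
    simp only [Set.mem_iUnion, Set.mem_insert_iff, Set.mem_singleton_iff]
    exact ⟨t, ht, i, x, y, Or.inl rfl⟩
  · refine le_trans (hB ?_) h1
    simp only [Set.mem_iUnion, Set.mem_insert_iff, Set.mem_singleton_iff]
    exact ⟨t, ht, i, x, y, Or.inr rfl⟩

theorem fil_size_fin (k : ℕ) :
    {g : GL (Fin n) Kf | g ∈ GLB Gd.B ∧ SizeLe Gd k g}.Finite := by
  have hF := Gd.hB (2 ^ k)
  set F : Set Kf := {β : Kf | β ∈ Gd.B ∧ ∀ i, Gd.av i β ≤ ((2 ^ k : ℕ) : ℝ)} with hFdef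
  let f : GL (Fin n) Kf → (Fin n → Fin n → Kf) := fun γ x y => γ.1 x y
  have hf : Function.Injective f := by
    intro γ γ' h
    apply Units.ext
    ext x y
    exact congrFun (congrFun h x) y
  have hfin : ((Set.univ : Set (Fin n)).pi fun _ => (Set.univ : Set (Fin n)).pi fun _ =>
      F).Finite := Set.Finite.pi fun _ => Set.Finite.pi fun _ => hF
  refine (hfin.preimage hf.injOn).subset ?_
  intro γ hγ x _ y _
  refine ⟨hγ.1.1 x y, fun i => ?_⟩
  have := (hγ.2 i x y).1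
  push_cast
  exact this

end sizes

/-! ### Norm families -/

section norms
variable {Kf : Type} [Field Kf] {Gd : GlobN Kf} {n : ℕ}

theorem fil_nonneg {N : Gd.I → (Fin n → Kf) → ℝ} (h : IsNF Gd n N) (v : Gd.I) (x : Fin n → Kf) :
    0 ≤ N v x := by
  have h0 : N v 0 = 0 := by
    have := h.smul v 0 0
    rwa [zero_smul, map_zero, zero_mul] at this
  have h1 : N v (-x) = N v x := by
    have := h.smul v (-1) x
    rwa [neg_smul, one_smul, map_neg_eq_map, map_one, one_mul] at this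
  have h2 := h.add v x (-x)
  rw [add_neg_cancel, h0, h1] at h2
  linarith

theorem fil_close_mono {r r' : ℕ} (hr : r ≤ r') {N N' : Gd.I → (Fin n → Kf) → ℝ}
    (h : IsNF Gd n N) (h' : IsNF Gd n N') (hc : Close r N N') : Close r' N N' := by
  intro v x
  have h1 : (2 : ℝ) ^ r ≤ 2 ^ r' := pow_le_pow_right₀ one_le_two hr
  exact ⟨(hc v x).1.trans (mul_le_mul_of_nonneg_right h1 (fil_nonneg h' v x)),
    (hc v x).2.trans (mul_le_mul_of_nonneg_right h1 (fil_nonneg h v x))⟩

theorem fil_max_comm (N N' : Gd.I → (Fin n → Kf) → ℝ) : maxN N N' = maxN N' N := by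
  funext v x
  exact max_comm _ _

end norms

/-- A power of two between `N` and `2 N + 1`. -/
theorem fil_pow (N : ℕ) : ∃ κ : ℕ, N ≤ 2 ^ κ ∧ 2 ^ κ ≤ 2 * N + 1 := by
  induction N with
  | zero => exact ⟨0, by norm_num, by norm_num⟩
  | succ N ih =>
    obtain ⟨κ, h1, h2⟩ := ih
    by_cases h : N + 1 ≤ 2 ^ κ
    · exact ⟨κ, h, by omega⟩
    · have h3 : 2 ^ κ = N := by omega
      have h4 : 0 < 2 ^ κ := by positivity
      refine ⟨κ + 1, ?_, ?_⟩
      · rw [pow_succ]; omega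
      · rw [pow_succ]; omega

/-! ### The grid of a word -/

section grid
variable {Kf : Type} [Field Kf] {Gd : GlobN Kf} {n : ℕ}

/-- The prefixes of the word. -/
def fil_g (w : List (GL (Fin n) Kf)) (x : ℕ) : GL (Fin n) Kf := (w.take x).prod

theorem fil_g_succ (w : List (GL (Fin n) Kf)) (x : ℕ) :
    fil_g w (x + 1) = fil_g w x * w.getD x 1 := by
  unfold fil_g
  rcases lt_or_ge x w.length with h | h
  · rw [List.prod_take_succ w x h, List.getD_eq_getElem w 1 h]
  · rw [List.take_of_length_le h, List.take_of_length_le (h.trans (Nat.le_succ x)),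
      List.getD_eq_default w 1 h, mul_one]

theorem fil_getD_mem {S₁ : Set (GL (Fin n) Kf)} (h1 : (1 : GL (Fin n) Kf) ∈ S₁)
    (w : List (GL (Fin n) Kf)) (hw : ∀ s ∈ w, s ∈ S₁) (x : ℕ) : w.getD x 1 ∈ S₁ := by
  rcases lt_or_ge x w.length with h | h
  · rw [List.getD_eq_getElem w 1 h]
    exact hw _ (List.getElem_mem h)
  · rw [List.getD_eq_default w 1 h]
    exact h1

theorem fil_map_getD (w : List (GL (Fin n) Kf)) (E : ℕ) (h : w.length ≤ E) :
    (List.range E).map (fun e => w.getD e 1) = w ++ List.replicate (E - w.length) 1 := by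
  apply List.ext_getElem
  · simp; omega
  · intro i h1 h2
    rw [List.getElem_map, List.getElem_range, List.getElem_append]
    split_ifs with h3
    · exact List.getD_eq_getElem w 1 h3
    · rw [List.getElem_replicate]
      exact List.getD_eq_default w 1 (not_lt.1 h3)

/-- The norm families of the grid. -/
noncomputable def fil_N {Kf : Type} [Field Kf] (Gd : GlobN Kf) (w : List (GL (Fin n) Kf)) (K' : ℕ) (x y : ℕ) :
    Gd.I → (Fin n → Kf) → ℝ :=
  maxN (actN 0 (fil_g w x) (N0 Gd n)) (actN ((y : ℤ) - K') 1 (N0 Gd n))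

end grid

theorem st_FIL (hGEO : ST_GEO) (hNRM : ST_NRM) (hMPAR : ST_MPAR) (hPAR : ST_PAR)
    (hGRD0 : ST_GRD0) (hGRD2 : ST_GRD2) : ST_FIL := by
  intro Kf _ Gd n hn hind S₁ C hS₁fin hS₁one hS₁inv hS₁B hword
  obtain ⟨CG, ρ, D, hρ, hDL, hSz, hPar, hact⟩ := hGEO Kf Gd n hn
  obtain ⟨n1, n2, n3, n4, n5, n6, n7, n8, ⟨e, n9⟩, n10⟩ := hNRM Kf Gd n
  obtain ⟨SP, CP, hSPfin, hSPB, hMP⟩ := hMPAR Kf Gd n hind
  obtain ⟨kap, hkap⟩ := fil_exists_size (Gd := Gd) S₁ hS₁fin
  -- the Lipschitz constant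
  set Lc : ℕ := kap + e + 1 with hLc
  set L : ℕ := 2 * Lc with hL
  set C0 : ℕ := CG * Lc with hC0
  set k1 : ℕ := CG * (E0 C0 L + Lc + 1) with hk1
  set A : ℕ := CP * (CG * (Lc + 1) + 1) with hA
  -- the parabolic pieces
  let P : ℕ → Set (GL (Fin n) Kf) := fun j => {g | 0 < j ∧ j < n ∧ g ∈ GLB Gd.B ∧ g ∈ Pst j}
  -- the words
  have hWex : ∀ g : GL (Fin n) Kf, ∃ w : List (GL (Fin n) Kf), (∃ j, g ∈ P j) →
      w.prod = g ∧ (∀ s ∈ w, s ∈ SP ∧ ∀ i, g ∈ Pst i → s ∈ Pst i) ∧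
      ∀ k, SizeLe Gd k g → w.length ≤ CP * (k + 1) := by
    intro g
    by_cases hg : ∃ j, g ∈ P j
    · obtain ⟨j, hj0, hjn, hgB, hgj⟩ := hg
      have hex : ∃ k, SizeLe Gd k g := by
        obtain ⟨k, hk⟩ := fil_exists_size (Gd := Gd) {g} (Set.finite_singleton g)
        exact ⟨k, hk g rfl⟩
      classical
      obtain ⟨w, hw1, hw2, hw3⟩ := hMP (Nat.find hex) g hgB (Nat.find_spec hex) ⟨j, hj0, hjn, hgj⟩
      refine ⟨w, fun _ => ⟨hw1, hw3, fun k hk => hw2.trans ?_⟩⟩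
      exact Nat.mul_le_mul_left _ (Nat.add_le_add_right (Nat.find_min' hex hk) 1)
    · exact ⟨[], fun h => absurd h hg⟩
  choose W hW using hWex
  -- the generating sets of the parabolic subgroups
  have hPAR' : ∀ i : ℕ, ∃ T : Set (GL (Fin n) Kf), T.Finite ∧ (∀ s ∈ T, s ∈ GLB Gd.B) ∧
      (0 < i → i < n → ∀ S : Set (GL (Fin n) Kf), S.Finite → (∀ s ∈ S, s⁻¹ ∈ S) → T ⊆ S →
      (∀ s ∈ S, s ∈ GLB Gd.B) → ∃ c A : ℕ, QAr S (S ∩ {g | g ∈ Pst i}) c A) := by
    intro i
    by_cases hi : 0 < i ∧ i < n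
    · obtain ⟨T, hT1, hT2, hT3⟩ := hPAR Kf Gd n hind i hi.1 hi.2
      exact ⟨T, hT1, fun s hs => (hT2 s hs).1, fun _ _ => hT3⟩
    · exact ⟨∅, Set.finite_empty, fun s hs => absurd hs (Set.notMem_empty s),
        fun h1 h2 => absurd ⟨h1, h2⟩ hi⟩
  choose TP hTPfin hTPB hTPq using hPAR'
  -- the generating set
  set S₀ : Set (GL (Fin n) Kf) := S₁ ∪ SP ∪ (⋃ i ∈ Finset.range n, TP i) ∪
    {g | g ∈ GLB Gd.B ∧ SizeLe Gd k1 g} with hS₀
  set S : Set (GL (Fin n) Kf) := S₀ ∪ {g | g⁻¹ ∈ S₀} with hS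
  have hS₀fin : S₀.Finite := by
    refine Set.Finite.union (Set.Finite.union (hS₁fin.union hSPfin) ?_) (fil_size_fin k1)
    exact Set.Finite.biUnion (Finset.finite_toSet _) fun i _ => hTPfin i
  have hSfin : S.Finite := hS₀fin.union (hS₀fin.preimage inv_injective.injOn)
  have hSinv : ∀ s ∈ S, s⁻¹ ∈ S := by
    rintro s (hs | hs)
    · right; show s⁻¹⁻¹ ∈ S₀; rwa [inv_inv]
    · left; exact hs
  have hS₀B : ∀ s ∈ S₀, s ∈ GLB Gd.B := by
    rintro s (((hs | hs) | hs) | hs)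
    · exact hS₁B s hs
    · exact hSPB s hs
    · simp only [Set.mem_iUnion] at hs
      obtain ⟨i, -, hs⟩ := hs
      exact hTPB i s hs
    · exact hs.1
  have hSB : ∀ s ∈ S, s ∈ GLB Gd.B := by
    rintro s (hs | hs)
    · exact hS₀B s hs
    · have := (GLB Gd.B).inv_mem (hS₀B _ hs)
      rwa [inv_inv] at this
  have hS₁S : S₁ ⊆ S := fun s hs => Or.inl (Or.inl (Or.inl (Or.inl hs)))
  have hSPS : SP ⊆ S := fun s hs => Or.inl (Or.inl (Or.inl (Or.inr hs)))
  have hsmall : ∀ g, g ∈ GLB Gd.B → SizeLe Gd k1 g → g ∈ S := fun g h1 h2 =>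
    Or.inl (Or.inr ⟨h1, h2⟩)
  have hone : (1 : GL (Fin n) Kf) ∈ S := hS₁S hS₁one
  -- the constants of the parabolic subgroups
  have hq : ∀ i : ℕ, ∃ c A : ℕ, QAr S (S ∩ P i) c A := by
    intro i
    by_cases hi : 0 < i ∧ i < n
    · obtain ⟨c, A, h⟩ := hTPq i hi.1 hi.2 S hSfin hSinv (fun s hs => by
        left; left; right
        simp only [Set.mem_iUnion]
        exact ⟨i, Finset.mem_range.2 hi.2, hs⟩) hSB
      refine ⟨c, A, fun u v hu hv huv => h u v (fun g hg => ?_) (fun g hg => ?_) huv⟩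
      · exact ⟨(hu g hg).1, (hu g hg).2.2.2.2⟩
      · exact ⟨(hv g hg).1, (hv g hg).2.2.2.2⟩
    · refine ⟨0, 0, fun u v hu hv huv => ?_⟩
      have hu' : u = [] := by
        rcases u with _ | ⟨a, u⟩
        · rfl
        · exact absurd ⟨(hu a (by simp)).2.1, (hu a (by simp)).2.2.1⟩ hi
      have hv' : v = [] := by
        rcases v with _ | ⟨a, v⟩
        · rfl
        · exact absurd ⟨(hv a (by simp)).2.1, (hv a (by simp)).2.2.1⟩ hi
      rw [hu', hv']
      exact Ar.refl _ _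
  choose cf Af hcA using hq
  set cq : ℕ := (Finset.range n).sup cf with hcq
  set Aq : ℕ := (Finset.range n).sup Af with hAq
  have hqq : ∀ j, QAr S (S ∩ P j) cq Aq := by
    intro j
    by_cases hj : j < n
    · exact fil_QAr_mono (Finset.le_sup (f := cf) (Finset.mem_range.2 hj))
        (Finset.le_sup (f := Af) (Finset.mem_range.2 hj)) (hcA j)
    · intro u v hu hv huv
      have hu' : u = [] := by
        rcases u with _ | ⟨a, u⟩
        · rfl
        · exact absurd (hu a (by simp)).2.2.1 hj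
      have hv' : v = [] := by
        rcases v with _ | ⟨a, v⟩
        · rfl
        · exact absurd (hv a (by simp)).2.2.1 hj
      rw [hu', hv']
      exact Ar.refl _ _
  obtain ⟨M, c, hM⟩ := hGRD2 A C0 L 0 cq Aq
  set c' : ℕ := max c 2 with hc'
  have hc2 : 2 ≤ c' := le_max_right _ _
  refine ⟨S, c', (M + 8) * (32 * Lc ^ 2 + 8), hSfin, hS₁S, hSinv, hSB, ?_⟩
  intro w hw hw1
  -- the exponent
  obtain ⟨κ, hκ1, hκ2⟩ := fil_pow (Lc * w.length)
  set K' : ℕ := 2 ^ κ with hK'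
  set Q : ℕ := 2 ^ (κ + 1) with hQ
  have hQK : Q = 2 * K' := by rw [hQ, hK', pow_succ]; ring
  have hlK : w.length ≤ K' := le_trans (Nat.le_mul_of_pos_left _ (by omega)) hκ1
  have hlQ : w.length ≤ Q := by omega
  have hgB : ∀ x, fil_g w x ∈ GLB Gd.B := by
    intro x
    induction x with
    | zero =>
      have : fil_g w 0 = 1 := by simp [fil_g]
      rw [this]; exact (GLB Gd.B).one_mem
    | succ x ih =>
      rw [fil_g_succ]
      exact (GLB Gd.B).mul_mem ih (hS₁B _ (fil_getD_mem hS₁one w hw x))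
  have hg0 : fil_g w 0 = 1 := by simp [fil_g]
  have hgQ : ∀ x, w.length ≤ x → fil_g w x = 1 := by
    intro x hx
    unfold fil_g
    rw [List.take_of_length_le hx, hw1]
  -- closeness of the families
  have c0 : ∀ (N : Gd.I → (Fin n → Kf) → ℝ) (r : ℕ), IsNF Gd n N → Close r N N := fun N r hN =>
    fil_close_mono (Nat.zero_le r) hN hN (n4 N)
  have hstep : ∀ (t : ℤ) (x : ℕ), Close (kap + e) (actN t (fil_g w x) (N0 Gd n))
      (actN t (fil_g w (x + 1)) (N0 Gd n)) := by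
    intro t x
    rw [fil_g_succ]
    exact n9 t _ _ kap (hkap _ (fil_getD_mem hS₁one w hw x))
  have hNF : ∀ x y, IsNF Gd n (fil_N Gd w K' x y) := fun x y =>
    n3 _ _ (n2 _ _ _ n1) (n2 _ _ _ n1)
  have hX : ∀ x y, Close Lc (fil_N Gd w K' x y) (fil_N Gd w K' (x + 1) y) := by
    intro x y
    refine n7 _ _ _ _ _ ?_ (c0 _ _ (n2 _ _ _ n1))
    exact fil_close_mono (by omega) (n2 _ _ _ n1) (n2 _ _ _ n1) (hstep 0 x)
  have hY : ∀ x y, Close Lc (fil_N Gd w K' x y) (fil_N Gd w K' x (y + 1)) := by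
    intro x y
    refine n7 _ _ _ _ _ (c0 _ _ (n2 _ _ _ n1)) ?_
    have h := n8 _ n1 ((y : ℤ) - K') 1
    have e1 : (((y + 1 : ℕ) : ℤ) - K') = ((y : ℤ) - K') + 1 := by push_cast; ring
    rw [e1]
    exact fil_close_mono (by omega) (n2 _ _ _ n1) (n2 _ _ _ n1) h
  have hXd : ∀ d x y, Close (Lc * d) (fil_N Gd w K' x y) (fil_N Gd w K' (x + d) y) := by
    intro d
    induction d with
    | zero => intro x y; exact c0 _ _ (hNF _ _)
    | succ d ih =>
      intro x y
      have := n6 _ _ _ _ _ (ih x y) (hX (x + d) y)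
      rw [Nat.mul_succ]
      exact this
  have hYd : ∀ d x y, Close (Lc * d) (fil_N Gd w K' x y) (fil_N Gd w K' x (y + d)) := by
    intro d
    induction d with
    | zero => intro x y; exact c0 _ _ (hNF _ _)
    | succ d ih =>
      intro x y
      have := n6 _ _ _ _ _ (ih x y) (hY x (y + d))
      rw [Nat.mul_succ]
      exact this
  have hXX : ∀ x x' y, Close (Lc * ((x - x') + (x' - x))) (fil_N Gd w K' x y)
      (fil_N Gd w K' x' y) := by
    intro x x' y
    rcases le_total x x' with h | h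
    · obtain ⟨d, rfl⟩ := Nat.exists_eq_add_of_le h
      have e1 : (x - (x + d)) + (x + d - x) = d := by omega
      rw [e1]; exact hXd d x y
    · obtain ⟨d, rfl⟩ := Nat.exists_eq_add_of_le h
      have e1 : (x' + d - x') + (x' - (x' + d)) = d := by omega
      rw [e1]; exact n5 _ _ _ (hXd d x' y)
  have hYY : ∀ x y y', Close (Lc * ((y - y') + (y' - y))) (fil_N Gd w K' x y)
      (fil_N Gd w K' x y') := by
    intro x y y'
    rcases le_total y y' with h | h
    · obtain ⟨d, rfl⟩ := Nat.exists_eq_add_of_le h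
      have e1 : (y - (y + d)) + (y + d - y) = d := by omega
      rw [e1]; exact hYd d x y
    · obtain ⟨d, rfl⟩ := Nat.exists_eq_add_of_le h
      have e1 : (y' + d - y') + (y' - (y' + d)) = d := by omega
      rw [e1]; exact n5 _ _ _ (hYd d x y')
  have hcl : ∀ x y x' y', Close (Lc * gd x y x' y') (fil_N Gd w K' x y)
      (fil_N Gd w K' x' y') := by
    intro x y x' y'
    have := n6 _ _ _ _ _ (hXX x x' y) (hYY x' y y')
    rw [← Nat.mul_add] at this
    exact this
  -- the grid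
  have hgrid : Grid (GL (Fin n) Kf) ℕ S P W A C0 L (fun x y => ρ (fil_N Gd w K' x y))
      (fun x y => D (fil_N Gd w K' x y)) := by
    refine ⟨?_, ?_, ?_, ?_, ?_⟩
    · intro g hg
      obtain ⟨h1, h2, -⟩ := hW g hg
      refine ⟨h1, fun s hs => hSPS (h2 s hs).1, fun j hj s hs => ?_⟩
      exact ⟨hj.1, hj.2.1, hSPB s (h2 s hs).1, (h2 s hs).2 j hj.2.2.2⟩
    · intro x y x' y' hg
      obtain ⟨-, -, h3⟩ := hW _ hg
      refine (h3 _ (hSz _ _ _ (hNF x y) (hNF x' y') (hcl x y x' y'))).trans ?_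
      rw [hA]
      show CP * (CG * (D (fil_N Gd w K' x y) + Lc * gd x y x' y' + 1) + 1) ≤
        CP * (CG * (Lc + 1) + 1) * (D (fil_N Gd w K' x y) + gd x y x' y' + 1)
      rw [mul_assoc]
      apply Nat.mul_le_mul_left
      generalize D (fil_N Gd w K' x y) = d
      generalize gd x y x' y' = t
      have h1 : d + Lc * t + 1 ≤ (Lc + 1) * (d + t + 1) := by nlinarith [Nat.zero_le (Lc * d)]
      have h2 : CG * (d + Lc * t + 1) ≤ CG * ((Lc + 1) * (d + t + 1)) := Nat.mul_le_mul_left _ h1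
      nlinarith
    · intro x y x' y'
      have := hDL _ _ _ (hNF x y) (hNF x' y') (hcl x y x' y')
      refine this.trans (le_of_eq ?_)
      rw [hL]; ring
    · intro x y r hr
      have h1 : CG * (Lc * r + 1) ≤ D (fil_N Gd w K' x y) := by
        refine le_trans ?_ hr
        rw [hC0, mul_assoc]
        apply Nat.mul_le_mul_left
        have : 1 ≤ Lc := by omega
        nlinarith
      obtain ⟨i, hi0, hin, hi⟩ := hPar _ _ (hNF x y) h1
      refine ⟨i, fun x₁ y₁ x₂ y₂ h₁ h₂ => ⟨hi0, hin, ?_, ?_⟩⟩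
      · exact (GLB Gd.B).mul_mem ((GLB Gd.B).inv_mem (hρ _ (hNF _ _))) (hρ _ (hNF _ _))
      · apply hi _ _ (hNF _ _) (hNF _ _)
        · exact fil_close_mono (Nat.mul_le_mul_left _ h₁) (hNF _ _) (hNF _ _) (hcl _ _ _ _)
        · exact fil_close_mono (Nat.mul_le_mul_left _ h₂) (hNF _ _) (hNF _ _) (hcl _ _ _ _)
    · intro x y x' y' h1 h2
      apply hsmall
      · exact (GLB Gd.B).mul_mem ((GLB Gd.B).inv_mem (hρ _ (hNF _ _))) (hρ _ (hNF _ _))
      · refine fil_size_mono ?_ (hSz _ _ _ (hNF x y) (hNF x' y') (hcl x y x' y'))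
        rw [hk1]
        apply Nat.mul_le_mul_left
        have h3 : Lc * gd x y x' y' ≤ Lc * 1 := Nat.mul_le_mul_left _ h1
        have h4 : D (fil_N Gd w K' x y) < E0 C0 L := h2
        omega
  -- closeness along the whole word, at any scale
  have hchain : ∀ (t : ℤ) (x : ℕ), Close ((kap + e) * x)
      (actN t (1 : GL (Fin n) Kf) (N0 Gd n)) (actN t (fil_g w x) (N0 Gd n)) := by
    intro t x
    induction x with
    | zero => rw [hg0]; exact c0 _ _ (n2 _ _ _ n1)
    | succ x ih =>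
      have := n6 _ _ _ _ _ ih (hstep t x)
      rw [Nat.mul_succ]; exact this
  have hchain' : ∀ (t : ℤ) (x : ℕ), Close ((kap + e) * w.length)
      (actN t (1 : GL (Fin n) Kf) (N0 Gd n)) (actN t (fil_g w x) (N0 Gd n)) := by
    intro t x
    rcases le_total x w.length with h | h
    · exact fil_close_mono (Nat.mul_le_mul_left _ h) (n2 _ _ _ n1) (n2 _ _ _ n1) (hchain t x)
    · rw [hgQ x h]; exact c0 _ _ (n2 _ _ _ n1)
  have hrK : (((kap + e) * w.length : ℕ) : ℤ) ≤ K' := by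
    have h1 : (kap + e) * w.length ≤ Lc * w.length := Nat.mul_le_mul_right _ (by omega)
    exact_mod_cast h1.trans hκ1
  have hQKz : (Q : ℤ) = 2 * K' := by exact_mod_cast hQK
  have hK0 : (0 : ℤ) ≤ K' := Int.natCast_nonneg _
  -- the four sides
  have hbot : ∀ x, fil_N Gd w K' x 0 = actN 0 (fil_g w x) (N0 Gd n) := by
    intro x
    unfold fil_N
    refine n10 0 _ _ 1 ((kap + e) * w.length) (n5 _ _ _ (hchain' 0 x)) ?_
    push_cast at hrK ⊢
    linarith
  have htop : ∀ x, fil_N Gd w K' x Q = actN (K' : ℤ) 1 (N0 Gd n) := by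
    intro x
    unfold fil_N
    rw [fil_max_comm]
    have e1 : ((Q : ℤ) - K') = K' := by rw [hQKz]; ring
    rw [e1]
    refine n10 _ 0 1 _ ((kap + e) * w.length) (hchain' _ x) ?_
    linarith
  have hside : ∀ x y, fil_g w x = 1 →
      fil_N Gd w K' x y = actN (max 0 ((y : ℤ) - K')) 1 (N0 Gd n) := by
    intro x y hx
    unfold fil_N
    rw [hx]
    rcases le_total ((y : ℤ) - K') 0 with h | h
    · rw [max_eq_left h]
      refine n10 0 _ 1 1 0 (n4 _) ?_
      push_cast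
      linarith
    · rw [max_eq_right h, fil_max_comm]
      refine n10 _ 0 1 1 0 (n4 _) ?_
      push_cast
      linarith
  have hB1 : (1 : GL (Fin n) Kf) ∈ GLB Gd.B := (GLB Gd.B).one_mem
  have hE : 0 < E0 C0 L := by unfold E0; omega
  have hgQQ : fil_g w Q = 1 := hgQ Q hlQ
  have hD_bot : ∀ x, D (fil_N Gd w K' x 0) = 0 := fun x => by
    rw [hbot]; exact (hact _ _ (hgB x)).1
  have hD_top : ∀ x, D (fil_N Gd w K' x Q) = 0 := fun x => by
    rw [htop]; exact (hact _ _ hB1).1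
  have hD_l : ∀ y, D (fil_N Gd w K' 0 y) = 0 := fun y => by
    rw [hside 0 y hg0]; exact (hact _ _ hB1).1
  have hQ0 : ∀ y, fil_N Gd w K' Q y = fil_N Gd w K' 0 y := fun y => by
    rw [hside 0 y hg0, hside Q y hgQQ]
  have hD_r : ∀ y, D (fil_N Gd w K' Q y) = 0 := fun y => by rw [hQ0]; exact hD_l y
  -- the words on the four sides
  set ρ' : ℕ → ℕ → GL (Fin n) Kf := fun x y => ρ (fil_N Gd w K' x y) with hρ'
  set D' : ℕ → ℕ → ℕ := fun x y => D (fil_N Gd w K' x y) with hD'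
  have hwB : ew W (E0 C0 L) ρ' D' 1 0 (κ + 1) 0 0 =
      (List.range Q).map fun e => (ρ' e 0)⁻¹ * ρ' (e + 1) 0 := by
    have h := (hGRD0 _ _ S P W A C0 L ρ' D' hgrid 1 0 rfl (κ + 1) 0 0).2.2 (by
      intro x _
      have h1 : D' (0 + x * 1) (0 + x * 0) = 0 := by
        rw [Nat.mul_zero, Nat.add_zero]; exact hD_bot _
      rw [h1]; exact hE)
    rw [h, hQ]
    simp only [Nat.zero_add, Nat.mul_one, Nat.mul_zero]
  have hwT : ew W (E0 C0 L) ρ' D' 1 0 (κ + 1) 0 (0 + 2 ^ (κ + 1)) = List.replicate Q 1 := by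
    have h := (hGRD0 _ _ S P W A C0 L ρ' D' hgrid 1 0 rfl (κ + 1) 0 (0 + 2 ^ (κ + 1))).2.2 (by
      intro x _
      have h1 : D' (0 + x * 1) (0 + 2 ^ (κ + 1) + x * 0) = 0 := by
        rw [Nat.mul_zero, Nat.add_zero, Nat.zero_add (2 ^ (κ + 1))]; exact hD_top _
      rw [h1]; exact hE)
    rw [h, hQ]
    simp only [Nat.zero_add, Nat.mul_one, Nat.mul_zero, Nat.add_zero]
    have h2 : ∀ x, ρ' x (2 ^ (κ + 1)) = ρ (actN (K' : ℤ) 1 (N0 Gd n)) := fun x => by
      show ρ (fil_N Gd w K' x Q) = _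
      rw [htop]
    simp only [h2, inv_mul_cancel, List.map_const', List.length_range]
  have hwL : ew W (E0 C0 L) ρ' D' 0 1 (κ + 1) 0 0 =
      (List.range Q).map fun e => (ρ' 0 e)⁻¹ * ρ' 0 (e + 1) := by
    have h := (hGRD0 _ _ S P W A C0 L ρ' D' hgrid 0 1 rfl (κ + 1) 0 0).2.2 (by
      intro x _
      have h1 : D' (0 + x * 0) (0 + x * 1) = 0 := by
        rw [Nat.mul_zero, Nat.add_zero]; exact hD_l _
      rw [h1]; exact hE)
    rw [h, hQ]
    simp only [Nat.zero_add, Nat.mul_one, Nat.mul_zero]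
  have hwR : ew W (E0 C0 L) ρ' D' 0 1 (κ + 1) (0 + 2 ^ (κ + 1)) 0 =
      (List.range Q).map fun e => (ρ' 0 e)⁻¹ * ρ' 0 (e + 1) := by
    have h := (hGRD0 _ _ S P W A C0 L ρ' D' hgrid 0 1 rfl (κ + 1) (0 + 2 ^ (κ + 1)) 0).2.2 (by
      intro x _
      have h1 : D' (0 + 2 ^ (κ + 1) + x * 0) (0 + x * 1) = 0 := by
        rw [Nat.mul_zero, Nat.add_zero, Nat.zero_add (2 ^ (κ + 1))]; exact hD_r _
      rw [h1]; exact hE)
    rw [h, hQ]
    simp only [Nat.zero_add, Nat.mul_one, Nat.mul_zero, Nat.add_zero]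
    have h2 : ∀ y, ρ' (2 ^ (κ + 1)) y = ρ' 0 y := fun y => by
      show ρ (fil_N Gd w K' Q y) = ρ (fil_N Gd w K' 0 y)
      rw [hQ0]
    simp only [h2]
  have hmB := (hGRD0 _ _ S P W A C0 L ρ' D' hgrid 1 0 rfl (κ + 1) 0 0).2.1
  have hmL := (hGRD0 _ _ S P W A C0 L ρ' D' hgrid 0 1 rfl (κ + 1) 0 0).2.1
  have hfill := hM (GL (Fin n) Kf) ℕ S P W ρ' D' hgrid hqq (κ + 1) 0 0 (by
    have h1 : D' 0 0 = 0 := hD_bot 0
    rw [h1]; exact Nat.zero_le _)
  rw [hwT, hwR] at hfill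
  set B : List (GL (Fin n) Kf) := ew W (E0 C0 L) ρ' D' 1 0 (κ + 1) 0 0 with hBdef
  rw [hwL] at hfill hmL
  set R : List (GL (Fin n) Kf) := (List.range Q).map fun e => (ρ' 0 e)⁻¹ * ρ' 0 (e + 1) with hR
  have hRlen : R.length = Q := by rw [hR, List.length_map, List.length_range]
  have h4 : 4 ^ (κ + 1) = Q ^ 2 := by
    rw [hQ, ← pow_mul, mul_comm, pow_mul]; norm_num
  rw [h4] at hfill
  have hfill' : Ar S c' (M * Q ^ 2) (B ++ R) (R ++ List.replicate Q 1) :=
    hfill.mono (le_max_left _ _) (le_refl S)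
  -- the bottom word is null
  have hBnull : Ar S c' (M * Q ^ 2 + 3 * Q) B [] := by
    set R' : List (GL (Fin n) Kf) := (R.map fun g => g⁻¹).reverse with hR'
    have a1 : Ar S c' Q (R ++ R') [] := by
      have := fil_cancel hc2 hSinv R hmL
      rwa [hRlen] at this
    have a2 : Ar S c' Q B (B ++ R ++ R') := by
      have := (a1.symm).left B
      simpa [List.append_assoc] using this
    have a3 := hfill'.right R'
    have a4 : Ar S c' Q (R ++ List.replicate Q 1 ++ R') (R ++ R') := by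
      have := (fil_ones (c := c') (by omega) hone Q).congr R R'
      simpa using this
    exact (((a2.trans a3).trans a4).trans a1).mono_k (by omega)
  -- telescoping
  set sf : ℕ → GL (Fin n) Kf := fun x => w.getD x 1 with hsf
  set kf : ℕ → GL (Fin n) Kf := fun x => (fil_g w x)⁻¹ * ρ' x 0 with hkf
  set bf : ℕ → GL (Fin n) Kf := fun x => (ρ' x 0)⁻¹ * ρ' (x + 1) 0 with hbf
  have hs1 : ∀ x, sf x ∈ S := fun x => hS₁S (fil_getD_mem hS₁one w hw x)
  have hb1 : ∀ x, bf x ∈ S := by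
    intro x
    refine hgrid.hS x 0 (x + 1) 0 ?_ ?_
    · unfold gd; omega
    · show D (fil_N Gd w K' x 0) < E0 C0 L
      rw [hD_bot]; exact hE
  have hk : ∀ x, kf x ∈ S := by
    intro x
    apply hsmall
    · exact (GLB Gd.B).mul_mem ((GLB Gd.B).inv_mem (hgB x)) (hρ _ (hNF _ _))
    · have := (hact _ 0 (hgB x)).2
      rw [← hbot x] at this
      refine fil_size_mono ?_ this
      rw [hk1]
      exact Nat.le_mul_of_pos_right _ (by omega)
  have htel := fil_tel (S := S) hc2 sf bf kf (by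
    intro x
    have h1 := fil_g_succ w x
    show (fil_g w x)⁻¹ * ρ' x 0 * ((ρ' x 0)⁻¹ * ρ' (x + 1) 0) =
      w.getD x 1 * ((fil_g w (x + 1))⁻¹ * ρ' (x + 1) 0)
    rw [h1]
    group) hs1 hb1 hk Q
  have hkQ : kf Q = kf 0 := by
    show (fil_g w Q)⁻¹ * ρ (fil_N Gd w K' Q 0) = (fil_g w 0)⁻¹ * ρ (fil_N Gd w K' 0 0)
    rw [hgQQ, hg0, hQ0]
  have hmap : (List.range Q).map sf = w ++ List.replicate (Q - w.length) 1 :=
    fil_map_getD w Q hlQ
  rw [hmap, hkQ] at htel
  have htel' : Ar S c' Q (kf 0 :: B) (w ++ List.replicate (Q - w.length) 1 ++ [kf 0]) := by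
    rw [hwB]; exact htel
  have b1 : Ar S c' (Q - w.length) w (w ++ List.replicate (Q - w.length) 1) := by
    have := ((fil_ones (c := c') (by omega) hone (Q - w.length)).symm).left w
    simpa using this
  have hpair : Ar S c' 1 [kf 0, (kf 0)⁻¹] [] := by
    apply Ar.whole
    · simp
    · simpa using hc2
    · simp
    · intro x hx
      simp only [List.mem_cons, List.not_mem_nil, or_false] at hx
      rcases hx with rfl | rfl
      · exact hk 0
      · exact hSinv _ (hk 0)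
    · simp
  have b2 : Ar S c' 1 (w ++ List.replicate (Q - w.length) 1)
      (w ++ List.replicate (Q - w.length) 1 ++ [kf 0] ++ [(kf 0)⁻¹]) := by
    have := hpair.symm.left (w ++ List.replicate (Q - w.length) 1)
    simpa [List.append_assoc] using this
  have b3 := (htel'.symm).right [(kf 0)⁻¹]
  have b4 : Ar S c' (M * Q ^ 2 + 3 * Q) (kf 0 :: B ++ [(kf 0)⁻¹]) [kf 0, (kf 0)⁻¹] := by
    have := hBnull.congr [kf 0] [(kf 0)⁻¹]
    simpa using this
  have hall := (((b1.trans b2).trans b3).trans b4).trans hpair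
  refine hall.mono_k ?_
  have hQ1 : 1 ≤ Q := Nat.one_le_two_pow
  have hQb : Q ≤ 4 * Lc * w.length + 2 := by
    rw [hQK]
    have : K' ≤ 2 * (Lc * w.length) + 1 := hκ2
    calc 2 * K' ≤ 2 * (2 * (Lc * w.length) + 1) := Nat.mul_le_mul_left _ this
      _ = 4 * Lc * w.length + 2 := by ring
  have hQ2 : Q ^ 2 ≤ 32 * Lc ^ 2 * w.length ^ 2 + 8 := by
    have h5 : Q ^ 2 ≤ (4 * Lc * w.length + 2) ^ 2 := Nat.pow_le_pow_left hQb 2
    refine h5.trans ?_
    generalize w.length = l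
    have h6 : (4 * Lc * l + 2) ^ 2 + (4 * Lc * l) ^ 2 + 4 = 2 * (4 * Lc * l) ^ 2 + 8 + 16 * Lc * l := by
      ring
    have h7 : 16 * Lc * l ≤ (4 * Lc * l) ^ 2 + 4 := by
      have := sq_nonneg ((4 * Lc * l : ℤ) - 2)
      have h8 : (16 * Lc * l : ℤ) ≤ (4 * Lc * l) ^ 2 + 4 := by nlinarith
      exact_mod_cast h8
    nlinarith
  have h9 : Q ≤ Q ^ 2 := by nlinarith
  calc Q - w.length + 1 + Q + (M * Q ^ 2 + 3 * Q) + 1 ≤ (M + 8) * Q ^ 2 := by
        nlinarith [Nat.sub_le Q w.length]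
    _ ≤ (M + 8) * (32 * Lc ^ 2 * w.length ^ 2 + 8) := Nat.mul_le_mul_left _ hQ2
    _ ≤ (M + 8) * (32 * Lc ^ 2 + 8) * w.length ^ 2 + (M + 8) * (32 * Lc ^ 2 + 8) := by
        nlinarith [Nat.zero_le ((M + 8) * 8 * w.length ^ 2), Nat.zero_le ((M + 8) * (32 * Lc ^ 2))]

end QG
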