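import Pool.Agent.Helper35.QG.Defs

set_option autoImplicit false

/-! Row FING: the final theorem. -/

namespace QG

open QD hiding Vb GLB dg Inst conj_mem_Vb ST_UNIa ST_UNIb ST_COV ST_SET ST_UNQ ST_GEN
  ST_COVR ST_OBD ST_FNS ST_CORE ST_ONE
open QN (QAr gd E0 Grid ew ST_GRD0 ST_GRD1 ST_GRD2 ST_SUPR ST_PRD)

namespace FINGm

/-- Reindexing as an isomorphism of general linear groups. -/
def rx {k : Type} [Field k] {ι κ : Type} [Fintype ι] [DecidableEq ι] [Fintype κ] [DecidableEq κ]
    (e : ι ≃ κ) : GL ι k ≃* GL κ k :=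
  Units.mapEquiv (Matrix.reindexAlgEquiv k k e).toMulEquiv

theorem embQD_of {H G : Type} [Group H] [Group G] (hG : QuadDehn G) (f : H →* G)
    (hf : Function.Injective f) : EmbQD H := by
  obtain ⟨k, rels, hq, ⟨e⟩⟩ := hG
  exact ⟨k, rels, hq, e.toMonoidHom.comp f, e.injective.comp hf⟩

theorem embQD_triv {H : Type} [Group H] (hH : Subsingleton H) : EmbQD H := by
  refine ⟨0, ∅, ⟨0, ?_⟩, 1, Function.injective_of_subsingleton _⟩
  intro w _
  exact ⟨[], by simp, by simp, Subsingleton.elim _ _⟩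

theorem embQD_inj {H H' : Type} [Group H] [Group H'] (h : EmbQD H') (f : H →* H')
    (hf : Function.Injective f) : EmbQD H := by
  obtain ⟨k, rels, hq, g, hg⟩ := h
  exact ⟨k, rels, hq, g.comp f, hg.comp hf⟩

end FINGm

open FINGm in
/-- Finitely generated linear groups over a finite extension of a field with global data. -/
theorem emb_finite (hQD : ST_QD) (hS : ST_GSCAL) (k K : Type) [Field k] [Field K] [Algebra k K]
    [FiniteDimensional k K] (hk : IsGlobN k) (n : ℕ) (H : Subgroup (GL (Fin n) K)) (hH : H.FG) :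
    EmbQD H := by
  obtain ⟨d, f, F, hf, _⟩ := hS k K n
  set φ : GL (Fin n) K →* GL (Fin (n * d)) k := (rx finProdFinEquiv).toMonoidHom.comp f with hφ
  have hφi : Function.Injective φ := (rx finProdFinEquiv).injective.comp hf
  rcases Nat.eq_zero_or_pos (n * d) with h0 | hpos
  · refine embQD_triv ⟨fun x y => Subtype.ext (hφi ?_)⟩
    refine Units.ext (Matrix.ext fun i => ?_)
    exact absurd i.2 (by omega)
  · obtain ⟨s, hs⟩ := hH
    obtain ⟨Gd, hmem⟩ := hk (Set.range (fun p : s × Fin (n * d) × Fin (n * d) =>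
      (φ p.1.1).1 p.2.1 p.2.2) ∪ Set.range (fun p : s × Fin (n * d) × Fin (n * d) =>
      ((φ p.1.1)⁻¹).1 p.2.1 p.2.2)) ((Set.finite_range _).union (Set.finite_range _))
    have hle : H ≤ (GLB (ι := Fin (n * d)) Gd.B).comap φ := by
      rw [← hs, Subgroup.closure_le]
      intro x hx
      refine ⟨fun i j => hmem (Or.inl ⟨(⟨x, hx⟩, i, j), rfl⟩),
        fun i j => hmem (Or.inr ⟨(⟨x, hx⟩, i, j), rfl⟩)⟩
    refine embQD_of (hQD k Gd (n * d) hpos)
      ((φ.comp H.subtype).codRestrict _ fun x => hle x.2) ?_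
    intro x y hxy
    exact Subtype.ext (hφi (congrArg Subtype.val hxy))

open FINGm in
/-- Finitely generated linear groups over an algebraic extension of a field with global data. -/
theorem emb_algebraic (hQD : ST_QD) (hS : ST_GSCAL) (hD : ST_DESC) (k K : Type) [Field k]
    [Field K] [Algebra k K] [Algebra.IsAlgebraic k K] (hk : IsGlobN k) (n : ℕ)
    (H : Subgroup (GL (Fin n) K)) (hH : H.FG) : EmbQD H := by
  obtain ⟨K', i1, i2, i3, H', hH', ⟨e⟩⟩ := hD k K n H hH
  exact embQD_inj (emb_finite hQD hS k K' hk n H' hH') e.toMonoidHom e.injective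

theorem st_FING (hQD : ST_QD) (hS : ST_GSCAL) (hD : ST_DESC) (hQ : ST_GQN) (hF : ST_GFN) :
    ST_FING := by
  intro K _ hK n H hH
  rcases hK with ⟨i1, i2⟩ | ⟨p, i0, i1, i2⟩
  · exact emb_algebraic hQD hS hD ℚ K hQ n H hH
  · exact emb_algebraic hQD hS hD (RatFunc (ZMod p)) K (hF p) n H hH

end QG
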