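import Pool.Agent.Helper35.QG.Defs

set_option autoImplicit false

/-! Row GEO: the reduction map and the depth. -/

namespace QG

open QD hiding Vb GLB dg Inst conj_mem_Vb ST_UNIa ST_UNIb ST_COV ST_SET ST_UNQ ST_GEN
  ST_COVR ST_OBD ST_FNS ST_CORE ST_ONE
open QN (QAr gd E0 Grid ew ST_GRD0 ST_GRD1 ST_GRD2 ST_SUPR ST_PRD)

variable {Kf : Type} [Field Kf] {Gd : GlobN Kf} {n : ℕ}

theorem geo_zero {N : Gd.I → (Fin n → Kf) → ℝ} (hN : IsNF Gd n N) (v : Gd.I) : N v 0 = 0 := by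
  have h := hN.smul v 0 0
  rw [zero_smul, map_zero, zero_mul] at h
  exact h

theorem geo_nonneg {N : Gd.I → (Fin n → Kf) → ℝ} (hN : IsNF Gd n N) (v : Gd.I) (x : Fin n → Kf) :
    0 ≤ N v x := by
  have h1 := hN.add v x (-x)
  rw [add_neg_cancel, geo_zero hN] at h1
  have h2 : N v (-x) = N v x := by
    have h3 := hN.smul v (-1) x
    rw [neg_one_smul] at h3
    rw [h3]
    have h4 : Gd.av v (-1) = 1 := by
      rw [AbsoluteValue.map_neg, AbsoluteValue.map_one]
    rw [h4, one_mul]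
  rw [h2] at h1
  linarith

theorem geo_sum {N : Gd.I → (Fin n → Kf) → ℝ} (hN : IsNF Gd n N) (v : Gd.I) {ι : Type}
    (s : Finset ι) (f : ι → Fin n → Kf) : N v (∑ i ∈ s, f i) ≤ ∑ i ∈ s, N v (f i) := by
  classical
  induction s using Finset.induction_on with
  | empty => simp [geo_zero hN]
  | insert a s ha ih =>
    rw [Finset.sum_insert ha, Finset.sum_insert ha]
    exact (hN.add v _ _).trans (by linarith)

theorem geo_size_mono {k k' : ℕ} {g : GL (Fin n) Kf} (hk : k ≤ k') (h : SizeLe Gd k g) :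
    SizeLe Gd k' g := by
  intro v x y
  have h2 : (2 : ℝ) ^ k ≤ 2 ^ k' := pow_le_pow_right₀ one_le_two hk
  exact ⟨(h v x y).1.trans h2, (h v x y).2.trans h2⟩

theorem geo_lev_mono {N : Gd.I → (Fin n → Kf) → ℝ} {s t : ℤ} (h : s ≤ t) : lev N s ⊆ lev N t := by
  intro x hx
  exact ⟨hx.1, fun v => (hx.2 v).trans (zpow_le_zpow_right₀ one_le_two h)⟩

theorem geo_Wt_mono {N : Gd.I → (Fin n → Kf) → ℝ} {s t : ℤ} (h : s ≤ t) : Wt N s ≤ Wt N t :=
  Submodule.span_mono (geo_lev_mono h)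

theorem geo_lev_close {N N' : Gd.I → (Fin n → Kf) → ℝ} {r : ℕ} (h : Close r N N') (t : ℤ) :
    lev N t ⊆ lev N' (t + r) := by
  intro x hx
  refine ⟨hx.1, fun v => ?_⟩
  have h1 := (h v x).2
  have h2 := hx.2 v
  calc N' v x ≤ 2 ^ r * N v x := h1
    _ ≤ 2 ^ r * 2 ^ t := by
        apply mul_le_mul_of_nonneg_left h2 (by positivity)
    _ = 2 ^ (t + r) := by
        rw [zpow_add₀ two_ne_zero, zpow_natCast, mul_comm]

theorem geo_Wt_close {N N' : Gd.I → (Fin n → Kf) → ℝ} {r : ℕ} (h : Close r N N') (t : ℤ) :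
    Wt N t ≤ Wt N' (t + r) := Submodule.span_mono (geo_lev_close h t)

theorem geo_symm {N N' : Gd.I → (Fin n → Kf) → ℝ} {r : ℕ} (h : Close r N N') : Close r N' N :=
  fun v x => ⟨(h v x).2, (h v x).1⟩

/-- the data attached to a norm family -/
structure GeoDat {Kf : Type} [Field Kf] (Gd : GlobN Kf) (n : ℕ) (N : Gd.I → (Fin n → Kf) → ℝ) (t₁ tn : ℤ) (γ : GL (Fin n) Kf) : Prop where
  le : t₁ ≤ tn
  low : ∀ x ∈ lev N (t₁ - 1), x = 0
  ex : ∃ x ∈ lev N t₁, x ≠ 0
  top : Wt N tn = ⊤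
  ntop : Wt N (tn - 1) ≠ ⊤
  mem : γ ∈ GLB Gd.B
  col : ∀ v j, N v (fun i => γ.1 i j) ≤ n * 2 ^ tn
  flg : ∀ t : ℤ, ∃ i : ℕ, i ≤ n ∧
    ∀ x, x ∈ Wt N t ↔ ∀ j : Fin n, i ≤ (j : ℕ) → ((γ⁻¹).1.mulVec x) j = 0

theorem geo_mulVec_inv (g : GL (Fin n) Kf) (x : Fin n → Kf) :
    (g⁻¹).1.mulVec (g.1.mulVec x) = x := by
  rw [Matrix.mulVec_mulVec]
  have : (g⁻¹).1 * g.1 = 1 := by
    rw [← Units.val_mul, inv_mul_cancel]; rfl
  rw [this, Matrix.one_mulVec]

theorem geo_mulVec_inv' (g : GL (Fin n) Kf) (x : Fin n → Kf) :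
    g.1.mulVec ((g⁻¹).1.mulVec x) = x := by
  rw [Matrix.mulVec_mulVec]
  have : g.1 * (g⁻¹).1 = 1 := by
    rw [← Units.val_mul, mul_inv_cancel]; rfl
  rw [this, Matrix.one_mulVec]

/-- an upper triangular invertible matrix preserves the coordinate flags -/
theorem geo_tri {T : GL (Fin n) Kf} (hT : ∀ x y : Fin n, y < x → T.1 x y = 0) (i : ℕ)
    {x : Fin n → Kf} (hx : ∀ j : Fin n, i ≤ (j : ℕ) → x j = 0) :
    ∀ j : Fin n, i ≤ (j : ℕ) → (T.1.mulVec x) j = 0 := by
  intro j hj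
  rw [Matrix.mulVec, dotProduct]
  refine Finset.sum_eq_zero fun l _ => ?_
  rcases lt_or_ge l j with h | h
  · rw [hT j l h, zero_mul]
  · rw [hx l (hj.trans h), mul_zero]

theorem geo_tri_inv {T : GL (Fin n) Kf} (hT : ∀ x y : Fin n, y < x → T.1 x y = 0) :
    ∀ x y : Fin n, y < x → (T⁻¹).1 x y = 0 := by
  intro x y hxy
  have hbt : Matrix.BlockTriangular T.1 (id : Fin n → Fin n) := fun i j hij => hT i j hij
  have : Invertible T.1 := T.invertible
  have hbt' : Matrix.BlockTriangular (T.1)⁻¹ (id : Fin n → Fin n) :=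
    Matrix.blockTriangular_inv_of_blockTriangular hbt
  have hinv : (T⁻¹).1 = (T.1)⁻¹ := by simp
  rw [hinv]
  exact hbt' hxy

theorem geo_dat (hL : ST_LVL) (hF : ST_FLG) (hB : ST_BAS) (hn : 0 < n)
    {N : Gd.I → (Fin n → Kf) → ℝ} (hN : IsNF Gd n N) :
    ∃ (t₁ tn : ℤ) (γ : GL (Fin n) Kf), GeoDat Gd n N t₁ tn γ := by
  obtain ⟨t₁, tn, h1, h2, h3, h4, h5⟩ := hL Kf Gd n hn N hN
  obtain ⟨X, hX1, hX2⟩ := hF Kf Gd n N hN tn h4
  obtain ⟨γ, hγ, hT, hTv⟩ := hB Kf Gd n X (fun x y => (hX1 y).1 x)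
  refine ⟨t₁, tn, γ, h1, h2, h3, h4, h5, hγ, fun v j => ?_, fun t => ?_⟩
  · -- the columns
    have hcol : (fun i => γ.1 i j) = ∑ l : Fin n, (X⁻¹ * γ).1 l j • (fun i => X.1 i l) := by
      funext i
      rw [Finset.sum_apply]
      have hXT : γ = X * (X⁻¹ * γ) := by group
      have h6 : γ.1 i j = (X.1 * (X⁻¹ * γ).1) i j := by
        rw [← Units.val_mul, ← hXT]
      rw [h6, Matrix.mul_apply]
      refine Finset.sum_congr rfl fun l _ => ?_
      rw [Pi.smul_apply, smul_eq_mul, mul_comm]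
    rw [hcol]
    refine (geo_sum hN v _ _).trans ?_
    calc ∑ l : Fin n, N v ((X⁻¹ * γ).1 l j • (fun i => X.1 i l)) ≤ ∑ _l : Fin n, (2 : ℝ) ^ tn := by
          refine Finset.sum_le_sum fun l _ => ?_
          rw [hN.smul]
          have h7 := (hX1 l).2 v
          have h8 := hTv v l j
          have h9 := geo_nonneg hN v (fun i => X.1 i l)
          calc Gd.av v ((X⁻¹ * γ).1 l j) * N v (fun i => X.1 i l) ≤ 1 * N v (fun i => X.1 i l) :=
                mul_le_mul_of_nonneg_right h8 h9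
            _ ≤ 2 ^ tn := by rw [one_mul]; exact h7
      _ = n * 2 ^ tn := by
          rw [Finset.sum_const, Finset.card_univ, Fintype.card_fin, nsmul_eq_mul]
  · obtain ⟨i, hi, hiff⟩ := hX2 t
    refine ⟨i, hi, fun x => ?_⟩
    rw [hiff x]
    have hxy : (X⁻¹).1.mulVec x = (X⁻¹ * γ).1.mulVec ((γ⁻¹).1.mulVec x) := by
      rw [Units.val_mul, ← Matrix.mulVec_mulVec, geo_mulVec_inv']
    have hyx : (γ⁻¹).1.mulVec x = ((X⁻¹ * γ)⁻¹).1.mulVec ((X⁻¹).1.mulVec x) := by
      rw [hxy, geo_mulVec_inv]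
    constructor
    · intro h
      rw [hyx]
      exact geo_tri (geo_tri_inv hT) i h
    · intro h
      rw [hxy]
      exact geo_tri hT i h

/-- comparison of the levels -/
theorem geo_low_cmp {N N' : Gd.I → (Fin n → Kf) → ℝ} {r : ℕ} (h : Close r N N') {t₁ tn t₁' tn' : ℤ}
    {γ γ' : GL (Fin n) Kf} (d : GeoDat Gd n N t₁ tn γ) (d' : GeoDat Gd n N' t₁' tn' γ') :
    t₁' ≤ t₁ + r := by
  by_contra hc
  push Not at hc
  obtain ⟨x, hx, hx0⟩ := d.ex
  exact hx0 (d'.low x (geo_lev_mono (by omega) (geo_lev_close h _ hx)))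

theorem geo_top_cmp {N N' : Gd.I → (Fin n → Kf) → ℝ} {r : ℕ} (h : Close r N N') {t₁ tn t₁' tn' : ℤ}
    {γ γ' : GL (Fin n) Kf} (d : GeoDat Gd n N t₁ tn γ) (d' : GeoDat Gd n N' t₁' tn' γ') :
    tn' ≤ tn + r := by
  by_contra hc
  push Not at hc
  have h1 : Wt N tn ≤ Wt N' (tn' - 1) := (geo_Wt_close h tn).trans (geo_Wt_mono (by omega))
  rw [d.top] at h1
  exact d'.ntop (top_le_iff.1 h1)

/-- the coordinate subspaces -/
def geoE (Kf : Type) [Field Kf] (n i : ℕ) : Submodule Kf (Fin n → Kf) where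
  carrier := {y | ∀ j : Fin n, i ≤ (j : ℕ) → y j = 0}
  add_mem' := by
    intro a b ha hb j hj
    rw [Pi.add_apply, ha j hj, hb j hj, add_zero]
  zero_mem' := fun j _ => rfl
  smul_mem' := by
    intro c a ha j hj
    rw [Pi.smul_apply, ha j hj, smul_zero]

theorem geoE_mem {i : ℕ} {y : Fin n → Kf} : y ∈ geoE Kf n i ↔ ∀ j : Fin n, i ≤ (j : ℕ) → y j = 0 :=
  Iff.rfl

theorem geoE_lt {i i' : ℕ} (h : i < i') (hi' : i' ≤ n) : geoE Kf n i < geoE Kf n i' := by
  refine lt_of_le_of_ne (fun y hy j hj => hy j (by omega)) ?_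
  intro heq
  have h1 : (Pi.single (⟨i, by omega⟩ : Fin n) (1 : Kf) : Fin n → Kf) ∈ geoE Kf n i' := by
    intro j hj
    rw [Pi.single_apply, if_neg]
    intro h2
    rw [h2] at hj
    simp only at hj
    omega
  rw [← heq] at h1
  have h2 := h1 ⟨i, by omega⟩ le_rfl
  rw [Pi.single_eq_same] at h2
  exact one_ne_zero h2

/-- a matrix maps at most one coordinate subspace onto another one -/
theorem geo_dim_le {g : GL (Fin n) Kf} {i i' : ℕ} (hi : i ≤ n)
    (h : ∀ y, y ∈ geoE Kf n i → g.1.mulVec y ∈ geoE Kf n i') : i ≤ i' := by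
  by_contra hc
  push Not at hc
  have h1 : Module.finrank Kf (geoE Kf n i) ≤ Module.finrank Kf (geoE Kf n i') := by
    let f : geoE Kf n i →ₗ[Kf] geoE Kf n i' :=
      ((Matrix.mulVecLin g.1).domRestrict (geoE Kf n i)).codRestrict (geoE Kf n i')
        (fun y => h y.1 y.2)
    have hf : Function.Injective f := by
      intro a b hab
      have h2 : g.1.mulVec a.1 = g.1.mulVec b.1 := congrArg Subtype.val hab
      apply Subtype.ext
      rw [← geo_mulVec_inv g a.1, h2, geo_mulVec_inv]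
    exact LinearMap.finrank_le_finrank_of_injective hf
  have h2 := Submodule.finrank_lt_finrank_of_lt (geoE_lt (Kf := Kf) hc hi)
  omega

/-- a plateau of the levels -/
theorem geo_plateau {N : Gd.I → (Fin n → Kf) → ℝ} {t₁ tn : ℤ} {γ : GL (Fin n) Kf}
    (d : GeoDat Gd n N t₁ tn γ) (r : ℕ) (hD : t₁ + 2 * r * n + 1 ≤ tn) :
    ∃ t : ℤ, t₁ ≤ t ∧ t + 2 * r ≤ tn - 1 ∧ Wt N t = Wt N (t + 2 * r) := by
  by_contra hc
  push Not at hc
  have key : ∀ k : ℕ, k ≤ n → k + 1 ≤ Module.finrank Kf (Wt N (t₁ + 2 * r * k)) := by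
    intro k
    induction k with
    | zero =>
      intro _
      have h1 : Wt N t₁ ≠ ⊥ := by
        intro h2
        obtain ⟨x, hx, hx0⟩ := d.ex
        have h3 : x ∈ Wt N t₁ := Submodule.subset_span hx
        rw [h2] at h3
        exact hx0 ((Submodule.mem_bot Kf).1 h3)
      have h4 : 0 < Module.finrank Kf (Wt N t₁) := by
        rw [Module.finrank_pos_iff]
        exact Submodule.nontrivial_iff_ne_bot.2 h1
      have h5 : t₁ + 2 * (r : ℤ) * ((0 : ℕ) : ℤ) = t₁ := by push_cast; ring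
      rw [h5]
      omega
    | succ k ih =>
      intro hk
      have h1 := ih (by omega)
      have hkn : ((k : ℤ) + 1) ≤ n := by exact_mod_cast hk
      have hr : (0 : ℤ) ≤ r := by positivity
      have h2 : t₁ ≤ t₁ + 2 * r * k := by
        have : (0 : ℤ) ≤ 2 * r * k := by positivity
        omega
      have h3 : t₁ + 2 * r * k + 2 * r ≤ tn - 1 := by
        have : 2 * (r : ℤ) * (k + 1) ≤ 2 * r * n := by
          apply mul_le_mul_of_nonneg_left hkn (by positivity)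
        have h5 : 2 * (r : ℤ) * (k + 1) = 2 * r * k + 2 * r := by ring
        omega
      have h4 := hc _ h2 h3
      have h5 : Wt N (t₁ + 2 * r * k) < Wt N (t₁ + 2 * r * k + 2 * r) :=
        lt_of_le_of_ne (geo_Wt_mono (by omega)) h4
      have h6 := Submodule.finrank_lt_finrank_of_lt h5
      have h7 : t₁ + 2 * (r : ℤ) * ((k + 1 : ℕ) : ℤ) = t₁ + 2 * r * k + 2 * r := by
        push_cast
        ring
      rw [h7]
      omega
  have h1 := key n le_rfl
  have h2 : Module.finrank Kf (Wt N (t₁ + 2 * r * n)) ≤ n := by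
    have := Submodule.finrank_le (Wt N (t₁ + 2 * r * n))
    simpa using this
  omega

/-- the parabolic subgroup of a plateau -/
theorem geo_par {N : Gd.I → (Fin n → Kf) → ℝ} {t₁ tn : ℤ} {γ : GL (Fin n) Kf}
    (d : GeoDat Gd n N t₁ tn γ) (r : ℕ) (hD : t₁ + 2 * r * n + 1 ≤ tn) :
    ∃ (i : ℕ), 0 < i ∧ i < n ∧ ∃ W : Submodule Kf (Fin n → Kf),
      ∀ (N' : Gd.I → (Fin n → Kf) → ℝ) (t₁' tn' : ℤ) (γ' : GL (Fin n) Kf),
        GeoDat Gd n N' t₁' tn' γ' → Close r N N' →
        ∀ x, x ∈ W ↔ ∀ j : Fin n, i ≤ (j : ℕ) → ((γ'⁻¹).1.mulVec x) j = 0 := by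
  obtain ⟨t, ht1, ht2, hW⟩ := geo_plateau d r hD
  -- the common subspace
  have hcl : ∀ (N' : Gd.I → (Fin n → Kf) → ℝ), Close r N N' → Wt N' (t + r) = Wt N t := by
    intro N' hN'
    apply le_antisymm
    · have h1 := geo_Wt_close (geo_symm hN') (t + r)
      rw [hW]
      have h2 : t + r + r = t + 2 * r := by ring
      rw [h2] at h1
      exact h1
    · exact geo_Wt_close hN' t
  obtain ⟨i, hi, hiff⟩ := d.flg t
  have hi0 : i ≠ 0 := by
    rintro rfl
    obtain ⟨x, hx, hx0⟩ := d.ex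
    have h1 : x ∈ Wt N t := Submodule.subset_span (geo_lev_mono ht1 hx)
    have h2 : (γ⁻¹).1.mulVec x = 0 := by
      funext j
      exact (hiff x).1 h1 j (Nat.zero_le _)
    apply hx0
    rw [← geo_mulVec_inv' γ x, h2, Matrix.mulVec_zero]
  have hin : i ≠ n := by
    rintro rfl
    have h1 : Wt N t = ⊤ := by
      rw [eq_top_iff]
      intro x _
      rw [hiff x]
      intro j hj
      exact absurd j.2 (by omega)
    have h2 : Wt N t ≤ Wt N (tn - 1) := geo_Wt_mono (by omega)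
    rw [h1] at h2
    exact d.ntop (top_le_iff.1 h2)
  refine ⟨i, by omega, by omega, Wt N t, fun N' t₁' tn' γ' d' hN' x => ?_⟩
  obtain ⟨i', hi', hiff'⟩ := d'.flg (t + r)
  rw [hcl N' hN'] at hiff'
  have heq : i = i' := by
    apply le_antisymm
    · -- γ'⁻¹ γ maps E i into E i'
      apply geo_dim_le (g := γ'⁻¹ * γ) hi
      intro y hy
      rw [geoE_mem] at hy ⊢
      have h1 : γ.1.mulVec y ∈ Wt N t := by
        rw [hiff]
        intro j hj
        rw [geo_mulVec_inv]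
        exact hy j hj
      have h2 := (hiff' _).1 h1
      intro j hj
      have h3 := h2 j hj
      rw [Matrix.mulVec_mulVec, ← Units.val_mul] at h3
      exact h3
    · apply geo_dim_le (g := γ⁻¹ * γ') hi'
      intro y hy
      rw [geoE_mem] at hy ⊢
      have h1 : γ'.1.mulVec y ∈ Wt N t := by
        rw [hiff']
        intro j hj
        rw [geo_mulVec_inv]
        exact hy j hj
      have h2 := (hiff _).1 h1
      intro j hj
      have h3 := h2 j hj
      rw [Matrix.mulVec_mulVec, ← Units.val_mul] at h3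
      exact h3
  rw [heq]
  exact hiff' x

theorem geo_mem_Pst {i : ℕ} {W : Submodule Kf (Fin n → Kf)} {γ' γ'' : GL (Fin n) Kf}
    (h' : ∀ x, x ∈ W ↔ ∀ j : Fin n, i ≤ (j : ℕ) → ((γ'⁻¹).1.mulVec x) j = 0)
    (h'' : ∀ x, x ∈ W ↔ ∀ j : Fin n, i ≤ (j : ℕ) → ((γ''⁻¹).1.mulVec x) j = 0) :
    γ'⁻¹ * γ'' ∈ Pst i := by
  have key : ∀ (a b : GL (Fin n) Kf),
      (∀ x, x ∈ W ↔ ∀ j : Fin n, i ≤ (j : ℕ) → ((a⁻¹).1.mulVec x) j = 0) →
      (∀ x, x ∈ W ↔ ∀ j : Fin n, i ≤ (j : ℕ) → ((b⁻¹).1.mulVec x) j = 0) →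
      ∀ x y : Fin n, (y : ℕ) < i → i ≤ (x : ℕ) → (a⁻¹ * b).1 x y = 0 := by
    intro a b ha hb x y hy hx
    have h1 : b.1.mulVec (Pi.single y 1) ∈ W := by
      rw [hb]
      intro j hj
      rw [geo_mulVec_inv, Pi.single_apply, if_neg]
      rintro rfl
      omega
    have h2 := (ha _).1 h1 x hx
    rw [Matrix.mulVec_mulVec, ← Units.val_mul, Matrix.mulVec_single_one] at h2
    exact h2
  intro x y hy hx
  refine ⟨key γ' γ'' h' h'' x y hy hx, ?_⟩
  have : (γ'⁻¹ * γ'')⁻¹ = γ''⁻¹ * γ' := by group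
  rw [this]
  exact key γ'' γ' h'' h' x y hy hx

/-- the standard families -/
theorem geo_std (hPF : ST_PF) (hn : 0 < n) {g : GL (Fin n) Kf} (hg : g ∈ GLB Gd.B)
    (t : ℤ) {t₁ tn : ℤ} {γ : GL (Fin n) Kf} (d : GeoDat Gd n (actN t g (N0 Gd n)) t₁ tn γ) :
    t₁ = t ∧ tn = t := by
  have hlow : ∀ x ∈ lev (actN t g (N0 Gd n)) (t - 1), x = 0 := by
    intro x hx
    by_contra hx0
    set y := (g⁻¹).1.mulVec x with hy
    have hy0 : y ≠ 0 := by
      intro h
      apply hx0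
      rw [← geo_mulVec_inv' g x, ← hy, h, Matrix.mulVec_zero]
    obtain ⟨j, hj⟩ : ∃ j, y j ≠ 0 := by
      by_contra hc
      push Not at hc
      exact hy0 (funext hc)
    have hyB : y j ∈ Gd.B := by
      rw [hy, Matrix.mulVec, dotProduct]
      exact Gd.B.sum_mem fun l _ => Gd.B.mul_mem (hg.2 j l) (hx.1 l)
    obtain ⟨v, hv⟩ := hPF Kf Gd (y j) hyB hj
    have h1 := hx.2 v
    have h2 : actN t g (N0 Gd n) v x = 2 ^ t * N0 Gd n v y := rfl
    have h3 : Gd.av v (y j) ≤ N0 Gd n v y := by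
      unfold N0
      exact Finset.single_le_sum (f := fun j => Gd.av v (y j))
        (fun l _ => AbsoluteValue.nonneg _ _) (Finset.mem_univ j)
    rw [h2] at h1
    have h4 : (2 : ℝ) ^ t * 1 ≤ 2 ^ (t - 1) := by
      refine le_trans ?_ h1
      apply mul_le_mul_of_nonneg_left (hv.trans h3) (by positivity)
    rw [zpow_sub_one₀ two_ne_zero] at h4
    have h5 : (0 : ℝ) < 2 ^ t := by positivity
    linarith
  have hmem : ∀ j : Fin n, g.1.mulVec (Pi.single j 1) ∈ lev (actN t g (N0 Gd n)) t := by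
    intro j
    refine ⟨fun i => ?_, fun v => ?_⟩
    · rw [Matrix.mulVec_single_one]
      exact hg.1 i j
    · have h2 : actN t g (N0 Gd n) v (g.1.mulVec (Pi.single j 1))
          = 2 ^ t * N0 Gd n v ((g⁻¹).1.mulVec (g.1.mulVec (Pi.single j 1))) := rfl
      rw [h2, geo_mulVec_inv]
      have h3 : N0 Gd n v (Pi.single j 1) = 1 := by
        unfold N0
        rw [Finset.sum_eq_single j]
        · rw [Pi.single_eq_same, AbsoluteValue.map_one]
        · intro l _ hl
          rw [Pi.single_eq_of_ne hl, AbsoluteValue.map_zero]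
        · intro h
          exact absurd (Finset.mem_univ j) h
      rw [h3, mul_one]
  have htop : Wt (actN t g (N0 Gd n)) t = ⊤ := by
    rw [eq_top_iff]
    intro x _
    have h1 : x = ∑ j : Fin n, ((g⁻¹).1.mulVec x) j • g.1.mulVec (Pi.single j 1) := by
      conv_lhs => rw [← geo_mulVec_inv' g x]
      rw [Matrix.mulVec_eq_sum]
      refine Finset.sum_congr rfl fun j _ => ?_
      rw [Matrix.mulVec_single_one]
      funext l
      simp [Matrix.col, Matrix.transpose_apply, mul_comm]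
    rw [h1]
    exact Submodule.sum_mem _ fun j _ => Submodule.smul_mem _ _ (Submodule.subset_span (hmem j))
  have hbot : Wt (actN t g (N0 Gd n)) (t - 1) = ⊥ := by
    rw [eq_bot_iff]
    unfold Wt
    rw [Submodule.span_le]
    intro x hx
    rw [SetLike.mem_coe, Submodule.mem_bot]
    exact hlow x hx
  have hnt : (⊤ : Submodule Kf (Fin n → Kf)) ≠ ⊥ := by
    have : Nontrivial (Fin n → Kf) := by
      have : Nonempty (Fin n) := ⟨⟨0, hn⟩⟩
      infer_instance
    exact top_ne_bot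
  -- t₁
  have ha : t₁ ≤ t := by
    by_contra hc
    push Not at hc
    have h1 : Wt (actN t g (N0 Gd n)) t ≤ ⊥ := by
      unfold Wt
      rw [Submodule.span_le]
      intro x hx
      rw [SetLike.mem_coe, Submodule.mem_bot]
      exact d.low x (geo_lev_mono (by omega) hx)
    rw [htop] at h1
    exact hnt (le_bot_iff.1 h1)
  have hb : t ≤ t₁ := by
    by_contra hc
    push Not at hc
    obtain ⟨x, hx, hx0⟩ := d.ex
    exact hx0 (hlow x (geo_lev_mono (by omega) hx))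
  have hc1 : tn ≤ t := by
    by_contra hc
    push Not at hc
    have h1 : Wt (actN t g (N0 Gd n)) t ≤ Wt (actN t g (N0 Gd n)) (tn - 1) :=
      geo_Wt_mono (by omega)
    rw [htop] at h1
    exact d.ntop (top_le_iff.1 h1)
  have hd1 : t ≤ tn := by
    by_contra hc
    push Not at hc
    have h1 : Wt (actN t g (N0 Gd n)) tn ≤ Wt (actN t g (N0 Gd n)) (t - 1) :=
      geo_Wt_mono (by omega)
    rw [d.top, hbot] at h1
    exact hnt (le_bot_iff.1 h1)
  exact ⟨by omega, by omega⟩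

theorem st_GEO (hL : ST_LVL) (hF : ST_FLG) (hB : ST_BAS) (hSz : ST_SIZ) (hNRM : ST_NRM)
    (hPF : ST_PF) : ST_GEO := by
  intro Kf _ Gd n hn
  obtain ⟨C₁, hC₁⟩ := hSz Kf Gd n
  classical
  -- the choice
  have hex : ∀ N : Gd.I → (Fin n → Kf) → ℝ, ∃ p : ℤ × ℤ × GL (Fin n) Kf,
      IsNF Gd n N → GeoDat Gd n N p.1 p.2.1 p.2.2 := by
    intro N
    by_cases hN : IsNF Gd n N
    · obtain ⟨t₁, tn, γ, h⟩ := geo_dat hL hF hB hn hN
      exact ⟨(t₁, tn, γ), fun _ => h⟩
    · exact ⟨(0, 0, 1), fun h => absurd h hN⟩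
  choose p hp using hex
  have hn2 : (n : ℝ) ≤ 2 ^ n := by
    have : n ≤ 2 ^ n := Nat.lt_two_pow_self.le
    exact_mod_cast this
  refine ⟨C₁ * (n + 2) + 2 * n + 2, fun N => (p N).2.2, fun N => ((p N).2.1 - (p N).1).toNat,
    ?_, ?_, ?_, ?_, ?_⟩
  · intro N hN
    exact (hp N hN).mem
  · intro N N' r hN hN' hc
    have d := hp N hN
    have d' := hp N' hN'
    have h1 := geo_low_cmp (geo_symm hc) d' d
    have h2 := geo_top_cmp hc d d'
    have h3 := d.le
    have h4 := d'.le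
    simp only
    omega
  · intro N N' r hN hN' hc
    have d := hp N hN
    have d' := hp N' hN'
    have h2 := geo_top_cmp hc d d'
    have h3 := d.le
    set D : ℕ := ((p N).2.1 - (p N).1).toNat with hD
    have hD' : (p N).2.1 = (p N).1 + D := by omega
    have h5 := hC₁ N hN (p N).1 (D + 2 * r + n) d.low (p N).2.2 (p N').2.2 d.mem d'.mem ?_ ?_
    · refine geo_size_mono ?_ h5
      have h6 : D + 2 * r + n + 1 ≤ (n + 2) * (D + r + 1) := by nlinarith
      calc C₁ * (D + 2 * r + n + 1) ≤ C₁ * ((n + 2) * (D + r + 1)) := Nat.mul_le_mul_left _ h6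
        _ = C₁ * (n + 2) * (D + r + 1) := by ring
        _ ≤ (C₁ * (n + 2) + 2 * n + 2) * (D + r + 1) := Nat.mul_le_mul_right _ (by omega)
    · intro v j
      refine (d.col v j).trans ?_
      calc (n : ℝ) * 2 ^ (p N).2.1 ≤ 2 ^ n * 2 ^ (p N).2.1 := by gcongr
        _ = 2 ^ ((n : ℤ) + (p N).2.1) := by
            rw [zpow_add₀ two_ne_zero, zpow_natCast]
        _ ≤ 2 ^ ((p N).1 + ((D + 2 * r + n : ℕ) : ℤ)) := by
            apply zpow_le_zpow_right₀ one_le_two
            push_cast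
            omega
    · intro v j
      calc N v (fun i => (p N').2.2.1 i j) ≤ 2 ^ r * N' v (fun i => (p N').2.2.1 i j) :=
            (hc v _).1
        _ ≤ 2 ^ r * (n * 2 ^ (p N').2.1) := by
            apply mul_le_mul_of_nonneg_left (d'.col v j) (by positivity)
        _ ≤ 2 ^ r * (2 ^ n * 2 ^ (p N').2.1) := by gcongr
        _ = 2 ^ ((r : ℤ) + (n + (p N').2.1)) := by
            rw [zpow_add₀ two_ne_zero, zpow_add₀ two_ne_zero, zpow_natCast, zpow_natCast]
        _ ≤ 2 ^ ((p N).1 + ((D + 2 * r + n : ℕ) : ℤ)) := by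
            apply zpow_le_zpow_right₀ one_le_two
            push_cast
            omega
  · intro N r hN hCr
    have d := hp N hN
    have h3 := d.le
    simp only at hCr
    have h4 : (p N).1 + 2 * r * n + 1 ≤ (p N).2.1 := by
      have h5 : 2 * r * n + 1 ≤ (C₁ * (n + 2) + 2 * n + 2) * (r + 1) := by
        have : 0 ≤ C₁ * (n + 2) * (r + 1) := Nat.zero_le _
        nlinarith
      have h6 : 2 * r * n + 1 ≤ ((p N).2.1 - (p N).1).toNat := h5.trans hCr
      have h7 : ((2 * r * n + 1 : ℕ) : ℤ) ≤ (((p N).2.1 - (p N).1).toNat : ℤ) := by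
        exact_mod_cast h6
      rw [Int.toNat_of_nonneg (by omega)] at h7
      push_cast at h7
      linarith
    obtain ⟨i, hi0, hin, W, hW⟩ := geo_par d r h4
    refine ⟨i, hi0, hin, fun N' N'' hN' hN'' hc' hc'' => ?_⟩
    exact geo_mem_Pst (hW N' _ _ _ (hp N' hN') hc') (hW N'' _ _ _ (hp N'' hN'') hc'')
  · intro g t hg
    obtain ⟨hN0, hact, -⟩ := hNRM Kf Gd n
    have hN : IsNF Gd n (actN t g (N0 Gd n)) := hact _ t g hN0
    have d := hp _ hN
    obtain ⟨h1, h2⟩ := geo_std hPF hn hg t d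
    refine ⟨by simp only; omega, ?_⟩
    have h5 := hC₁ _ hN (p (actN t g (N0 Gd n))).1 n d.low g (p (actN t g (N0 Gd n))).2.2 hg d.mem ?_ ?_
    · refine geo_size_mono ?_ h5
      have : C₁ * (n + 1) ≤ C₁ * (n + 2) := Nat.mul_le_mul_left _ (by omega)
      omega
    · intro v j
      have h6 : actN t g (N0 Gd n) v (fun i => g.1 i j) = 2 ^ t := by
        have h7 : (fun i => g.1 i j) = g.1.mulVec (Pi.single j 1) := by
          rw [Matrix.mulVec_single_one]
          rfl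
        have h8 : actN t g (N0 Gd n) v (g.1.mulVec (Pi.single j 1))
            = 2 ^ t * N0 Gd n v ((g⁻¹).1.mulVec (g.1.mulVec (Pi.single j 1))) := rfl
        rw [h7, h8, geo_mulVec_inv]
        have h3 : N0 Gd n v (Pi.single j 1) = 1 := by
          unfold N0
          rw [Finset.sum_eq_single j]
          · rw [Pi.single_eq_same, AbsoluteValue.map_one]
          · intro l _ hl
            rw [Pi.single_eq_of_ne hl, AbsoluteValue.map_zero]
          · intro h
            exact absurd (Finset.mem_univ j) h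
        rw [h3, mul_one]
      rw [h6]
      apply zpow_le_zpow_right₀ one_le_two
      omega
    · intro v j
      refine (d.col v j).trans ?_
      calc (n : ℝ) * 2 ^ (p (actN t g (N0 Gd n))).2.1
          ≤ 2 ^ n * 2 ^ (p (actN t g (N0 Gd n))).2.1 := by gcongr
        _ = 2 ^ ((n : ℤ) + (p (actN t g (N0 Gd n))).2.1) := by
            rw [zpow_add₀ two_ne_zero, zpow_natCast]
        _ ≤ 2 ^ ((p (actN t g (N0 Gd n))).1 + (n : ℤ)) := by
            apply zpow_le_zpow_right₀ one_le_two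
            omega

end QG
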