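import Pool.Agent.Helper35.QG.Defs
import Pool.Agent.Helper84.QG.GFP

set_option autoImplicit false

/-! Rational function fields over finite fields have the data `GlobN`. -/

namespace QG

theorem isGlobN_ratFunc (F : Type) [Field F] [Finite F] : IsGlobN (RatFunc F) := by
  intro S hS
  obtain ⟨A, h, h1, h2, h3⟩ := gfp F S hS
  exact ⟨{ A with hV := h1, hUN := h2, hBEZ := h3 }, h⟩

theorem st_GFN : ST_GFN := fun p _ => isGlobN_ratFunc (ZMod p)

end QG
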