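import Pool.Agent.Helper35.QG.Defs
import Pool.Agent.Helper24.QD.GQ
import Pool.Agent.Helper87.QN.UNT

set_option autoImplicit false

/-! Row GQN: global data with independent units and Bezout relations for the rational numbers. -/

namespace QG

open QD hiding Vb GLB dg Inst conj_mem_Vb ST_UNIa ST_UNIb ST_COV ST_SET ST_UNQ ST_GEN
  ST_COVR ST_OBD ST_FNS ST_CORE ST_ONE

namespace GQNm

/-- A unit that is large at the infinite place and small at the others. -/
theorem unit_inf {m : ℕ} (hm : 0 < m) (h6 : 6 ∣ m) : ∃ w : ℚˣ, (w : ℚ) ∈ Bm m ∧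
    ((w⁻¹ : ℚˣ) : ℚ) ∈ Bm m ∧ 1 < av m none (w : ℚ) ∧ ∀ p, av m (some p) (w : ℚ) < 1 := by
  obtain ⟨α, h1, h2, h3⟩ := ntc_unit (m := m) (n := m) (d := 1) hm.ne' one_ne_zero
    (fun p _ hp1 => hp1.trans (one_dvd _)) (fun p _ h => h)
  rw [Nat.cast_one, div_one] at h1
  refine ⟨α, h2, h3, ?_, ?_⟩
  · show 1 < |(α : ℚ)|
    rw [h1, Nat.abs_cast]
    have : 6 ≤ m := Nat.le_of_dvd hm h6
    exact_mod_cast (by omega : 1 < m)
  · intro p
    have hp : p.1.Prime := Nat.prime_of_mem_primeFactors p.2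
    have hF : Fact p.1.Prime := ⟨hp⟩
    show padicNorm p.1 (α : ℚ) < 1
    rw [h1]
    exact (padicNorm.nat_lt_one_iff _).2 (Nat.dvd_of_mem_primeFactors p.2)

/-- A unit that is large at the place `p` and small at the others. -/
theorem unit_fin {m : ℕ} (hm : 0 < m) (p : {p : ℕ // p ∈ m.primeFactors}) : ∃ w : ℚˣ,
    (w : ℚ) ∈ Bm m ∧ ((w⁻¹ : ℚˣ) : ℚ) ∈ Bm m ∧ 1 < av m (some p) (w : ℚ) ∧
    ∀ v, v ≠ some p → av m v (w : ℚ) < 1 := by
  have hp : p.1.Prime := Nat.prime_of_mem_primeFactors p.2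
  have hpm : p.1 ∣ m := Nat.dvd_of_mem_primeFactors p.2
  have hF : Fact p.1.Prime := ⟨hp⟩
  obtain ⟨α, h1, h2, h3⟩ := ntc_unit (m := m) (n := m) (d := p.1 ^ m) hm.ne'
    (pow_ne_zero _ hp.ne_zero)
    (fun r hr hrd => (Nat.prime_dvd_prime_iff_eq hr hp).1 (hr.dvd_of_dvd_pow hrd) ▸ hpm)
    (fun p _ h => h)
  have hlt : m < p.1 ^ m := Nat.lt_pow_self hp.one_lt
  have hlt' : (m : ℚ) < ((p.1 ^ m : ℕ) : ℚ) := by exact_mod_cast hlt
  have hm' : (0 : ℚ) < m := by exact_mod_cast hm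
  have hpw : padicNorm p.1 ((p.1 ^ m : ℕ) : ℚ) = ((p.1 ^ m : ℕ) : ℚ)⁻¹ := by
    have h : padicNorm p.1 ((p.1 : ℚ) ^ m) = (padicNorm p.1 (p.1 : ℚ)) ^ m :=
      map_pow (padicAV p.1) _ _
    rw [Nat.cast_pow, h, padicNorm.padicNorm_p_of_prime, inv_pow]
  refine ⟨α, h2, h3, ?_, ?_⟩
  · show 1 < padicNorm p.1 (α : ℚ)
    rw [h1, padicNorm.div, hpw, div_inv_eq_mul]
    have h4 : ((m : ℚ))⁻¹ ≤ padicNorm p.1 (m : ℚ) := by
      rw [padicNorm.eq_zpow_of_nonzero hm'.ne', padicValRat.of_nat, zpow_neg, zpow_natCast]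
      have h5 : p.1 ^ padicValNat p.1 m ≤ m := Nat.le_of_dvd hm pow_padicValNat_dvd
      have h6 : ((p.1 : ℚ)) ^ padicValNat p.1 m ≤ m := by exact_mod_cast h5
      have h7 : (0 : ℚ) < (p.1 : ℚ) ^ padicValNat p.1 m := pow_pos (by exact_mod_cast hp.pos) _
      exact inv_anti₀ h7 h6
    have h5 : (1 : ℚ) < (m : ℚ)⁻¹ * ((p.1 ^ m : ℕ) : ℚ) := by
      rw [← div_eq_inv_mul, one_lt_div hm']
      exact hlt'
    exact h5.trans_le (mul_le_mul_of_nonneg_right h4 (by positivity))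
  · intro v hv
    rcases v with _ | q
    · show |(α : ℚ)| < 1
      rw [h1, abs_of_pos (div_pos hm' (hm'.trans hlt')), div_lt_one (hm'.trans hlt')]
      exact hlt'
    · have hq : q.1.Prime := Nat.prime_of_mem_primeFactors q.2
      have hqF : Fact q.1.Prime := ⟨hq⟩
      have hqp : ¬ q.1 ∣ p.1 ^ m := by
        intro h
        have h' := (Nat.prime_dvd_prime_iff_eq hq hp).1 (hq.dvd_of_dvd_pow h)
        exact hv (congrArg some (Subtype.ext h'))
      show padicNorm q.1 (α : ℚ) < 1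
      rw [h1, padicNorm.div, (padicNorm.nat_eq_one_iff _).2 hqp, div_one]
      exact (padicNorm.nat_lt_one_iff _).2 (Nat.dvd_of_mem_primeFactors q.2)

/-- Bezout relations. -/
theorem bez (B : Subring ℚ) (a b : ℚ) : ∃ p q r s : ℚ, p ∈ B ∧ q ∈ B ∧ r ∈ B ∧ s ∈ B ∧
    p * s - q * r = 1 ∧ r * a + s * b = 0 := by
  have hz : ∀ z : ℤ, (z : ℚ) ∈ B := fun z => intCast_mem B z
  set x : ℤ := a.num * b.den with hx
  set y : ℤ := b.num * a.den with hy
  have had : ((a.den : ℤ) : ℚ) ≠ 0 := by exact_mod_cast a.den_nz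
  have hbd : ((b.den : ℤ) : ℚ) ≠ 0 := by exact_mod_cast b.den_nz
  have hA : a * (a.den * b.den) = (x : ℚ) := by
    rw [hx]; push_cast
    have := Rat.mul_den_eq_num a
    linear_combination (b.den : ℚ) * this
  have hB : b * (a.den * b.den) = (y : ℚ) := by
    rw [hy]; push_cast
    have := Rat.mul_den_eq_num b
    linear_combination (a.den : ℚ) * this
  have hD : ((a.den : ℚ) * b.den) ≠ 0 :=
    mul_ne_zero (Nat.cast_ne_zero.2 a.den_nz) (Nat.cast_ne_zero.2 b.den_nz)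
  by_cases hg : (Int.gcd x y : ℤ) = 0
  · have hg' : Int.gcd x y = 0 := by exact_mod_cast hg
    have hx0 : x = 0 := Int.eq_zero_of_gcd_eq_zero_left hg'
    have hy0 : y = 0 := Int.eq_zero_of_gcd_eq_zero_right hg'
    have ha0 : a = 0 := by
      rw [hx0, Int.cast_zero] at hA
      exact (mul_eq_zero.1 hA).resolve_right hD
    have hb0 : b = 0 := by
      rw [hy0, Int.cast_zero] at hB
      exact (mul_eq_zero.1 hB).resolve_right hD
    refine ⟨1, 0, 0, 1, B.one_mem, B.zero_mem, B.zero_mem, B.one_mem, by ring, ?_⟩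
    rw [ha0, hb0]; ring
  · obtain ⟨x', hx'⟩ := Int.gcd_dvd_left (a := x) (b := y)
    obtain ⟨y', hy'⟩ := Int.gcd_dvd_right (a := x) (b := y)
    have hbz := Int.gcd_eq_gcd_ab x y
    refine ⟨(Int.gcdA x y : ℤ), (Int.gcdB x y : ℤ), ((-y' : ℤ) : ℚ), (x' : ℤ), hz _, hz _, hz _,
      hz _, ?_, ?_⟩
    · have h1 : Int.gcdA x y * x' - Int.gcdB x y * (-y') = 1 := by
        have h2 : (Int.gcd x y : ℤ) * (Int.gcdA x y * x' - Int.gcdB x y * (-y')) =
            (Int.gcd x y : ℤ) * 1 := by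
          linear_combination -(Int.gcdA x y) * hx' - (Int.gcdB x y) * hy' - hbz
        exact mul_left_cancel₀ hg h2
      exact_mod_cast h1
    · have h1 : (-y') * x + x' * y = 0 := by
        linear_combination (-y') * hx' + x' * hy'
      have h2 : ((-y' : ℤ) : ℚ) * (x : ℚ) + (x' : ℚ) * (y : ℚ) = 0 := by exact_mod_cast h1
      rw [← hA, ← hB] at h2
      have h3 : (((-y' : ℤ) : ℚ) * a + (x' : ℚ) * b) * (a.den * b.den) = 0 := by
        linear_combination h2
      exact (mul_eq_zero.1 h3).resolve_right hD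

end GQNm

open GQNm in
theorem st_GQN : ST_GQN := by
  intro F hF
  obtain ⟨m, hm, h6, hden⟩ := st_DEN F hF
  refine ⟨{ I := Pl m
            i0 := none
            av := avR m
            B := Bm m
            hA := ?_
            hB := ?_
            hU := ?_
            hV := ?_
            hUN := ?_
            hBEZ := bez _ }, hden⟩
  · intro x
    obtain ⟨β, hβ, h⟩ := st_NTA m hm x
    refine ⟨β, hβ, fun i => ?_⟩
    rw [avR_apply]
    exact_mod_cast h i
  · intro R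
    refine (st_NTB m R hm).subset ?_
    rintro β ⟨h1, h2⟩
    refine ⟨h1, fun i => ?_⟩
    have := h2 i
    rw [avR_apply] at this
    exact_mod_cast this
  · intro i j
    obtain ⟨α, h1, h2, h3, h4⟩ := st_NTC m hm h6 i j
    refine ⟨α, h1, h2, ?_, ?_⟩
    · rw [avR_apply]
      exact_mod_cast h3
    · rw [avR_apply]
      exact_mod_cast h4
  · intro v0
    rcases v0 with _ | p
    · obtain ⟨w, h1, h2, h3, h4⟩ := unit_inf hm h6
      refine ⟨w, h1, h2, ?_, ?_⟩
      · rw [avR_apply]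
        exact_mod_cast h3
      · intro v hv
        rcases v with _ | q
        · exact absurd rfl hv
        · rw [avR_apply]
          exact_mod_cast h4 q
    · obtain ⟨w, h1, h2, h3, h4⟩ := unit_fin hm p
      refine ⟨w, h1, h2, ?_, ?_⟩
      · rw [avR_apply]
        exact_mod_cast h3
      · intro v hv
        rw [avR_apply]
        exact_mod_cast h4 v hv
  · intro a ha ha0
    obtain ⟨u, h1, h2, h3, h4⟩ := QN.st_UNT m a hm ha ha0
    refine ⟨Units.mk0 u h3, h1, ?_, fun v => ?_⟩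
    · rw [Units.val_inv_eq_inv_val]
      exact h2
    · rw [avR_apply]
      exact_mod_cast h4 v

end QG
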