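import Pool.Agent.Helper35.QG.Defs

set_option autoImplicit false

/-! Hermite form over `B` from the 2 x 2 relations. -/

namespace QG

open QD hiding Vb GLB dg Inst conj_mem_Vb ST_UNIa ST_UNIb ST_COV ST_SET ST_UNQ ST_GEN
  ST_COVR ST_OBD ST_FNS ST_CORE ST_ONE
open QN (QAr gd E0 Grid ew ST_GRD0 ST_GRD1 ST_GRD2 ST_SUPR ST_PRD)

namespace HNFr

variable {Kf : Type} [Field Kf] {n : ℕ}

/-- a 2 x 2 block in the columns `y` and `z` -/
def blk (y z : Fin n) (r s p q : Kf) : Matrix (Fin n) (Fin n) Kf := fun x w =>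
  if w = y then (if x = y then r else if x = z then s else 0)
  else if w = z then (if x = y then p else if x = z then q else 0)
  else if x = w then 1 else 0

theorem sum_two (f : Fin n → Kf) (y z : Fin n) (hyz : y ≠ z) (r s : Kf) :
    ∑ x, f x * (if x = y then r else if x = z then s else 0) = f y * r + f z * s := by
  have h : ∀ x, f x * (if x = y then r else if x = z then s else 0)
      = (if x = y then f x * r else 0) + (if x = z then f x * s else 0) := by
    intro x
    by_cases h1 : x = y
    · subst h1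
      rw [if_pos rfl, if_pos rfl, if_neg hyz, add_zero]
    · rw [if_neg h1, if_neg h1]
      by_cases h2 : x = z
      · rw [if_pos h2, if_pos h2, zero_add]
      · rw [if_neg h2, if_neg h2, mul_zero, zero_add]
  rw [Finset.sum_congr rfl (fun x _ => h x), Finset.sum_add_distrib, Finset.sum_ite_eq' _ y,
    Finset.sum_ite_eq' _ z, if_pos (Finset.mem_univ _), if_pos (Finset.mem_univ _)]

theorem mul_blk (Z : Matrix (Fin n) (Fin n) Kf) (y z : Fin n) (hyz : y ≠ z) (r s p q : Kf)
    (x w : Fin n) : (Z * blk y z r s p q) x w =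
      if w = y then Z x y * r + Z x z * s else if w = z then Z x y * p + Z x z * q
      else Z x w := by
  rw [Matrix.mul_apply]
  by_cases h1 : w = y
  · rw [if_pos h1, ← sum_two (fun t => Z x t) y z hyz r s]
    refine Finset.sum_congr rfl fun t _ => ?_
    show Z x t * (if w = y then _ else _) = _
    rw [if_pos h1]
  · rw [if_neg h1]
    by_cases h2 : w = z
    · rw [if_pos h2, ← sum_two (fun t => Z x t) y z hyz p q]
      refine Finset.sum_congr rfl fun t _ => ?_
      show Z x t * (if w = y then _ else if w = z then _ else _) = _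
      rw [if_neg h1, if_pos h2]
    · rw [if_neg h2]
      have h3 : ∀ t, Z x t * blk y z r s p q t w = if t = w then Z x t else 0 := by
        intro t
        show Z x t * (if w = y then _ else if w = z then _ else _) = _
        rw [if_neg h1, if_neg h2]
        by_cases h4 : t = w
        · rw [if_pos h4, if_pos h4, mul_one]
        · rw [if_neg h4, if_neg h4, mul_zero]
      rw [Finset.sum_congr rfl (fun t _ => h3 t), Finset.sum_ite_eq' _ w,
        if_pos (Finset.mem_univ _)]

theorem blk_mul (y z : Fin n) (hyz : y ≠ z) (r s p q r' s' p' q' : Kf)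
    (h1 : r * r' + p * s' = 1) (h2 : s * r' + q * s' = 0) (h3 : r * p' + p * q' = 0)
    (h4 : s * p' + q * q' = 1) : blk y z r s p q * blk y z r' s' p' q' = 1 := by
  ext x w
  rw [mul_blk _ y z hyz]
  have ey : blk y z r s p q x y = if x = y then r else if x = z then s else 0 := by
    show (if y = y then _ else _) = _
    rw [if_pos rfl]
  have ez : blk y z r s p q x z = if x = y then p else if x = z then q else 0 := by
    show (if z = y then _ else if z = z then _ else _) = _
    rw [if_neg hyz.symm, if_pos rfl]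
  rw [ey, ez, Matrix.one_apply]
  by_cases hw1 : w = y
  · rw [if_pos hw1, hw1]
    by_cases hx1 : x = y
    · rw [if_pos hx1, if_pos hx1, if_pos hx1, h1]
    · rw [if_neg hx1, if_neg hx1, if_neg hx1]
      by_cases hx2 : x = z
      · rw [if_pos hx2, if_pos hx2, h2]
      · rw [if_neg hx2, if_neg hx2]
        ring
  · rw [if_neg hw1]
    by_cases hw2 : w = z
    · rw [if_pos hw2, hw2]
      by_cases hx1 : x = y
      · rw [if_pos hx1, if_pos hx1, if_neg (fun h => hyz (hx1.symm.trans h)), h3]
      · rw [if_neg hx1, if_neg hx1]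
        by_cases hx2 : x = z
        · rw [if_pos hx2, if_pos hx2, if_pos hx2, h4]
        · rw [if_neg hx2, if_neg hx2, if_neg hx2]
          ring
    · rw [if_neg hw2]
      show (if w = y then _ else if w = z then _ else _) = _
      rw [if_neg hw1, if_neg hw2]

theorem blk_mem (B : Subring Kf) (y z : Fin n) (r s p q : Kf) (hr : r ∈ B) (hs : s ∈ B)
    (hp : p ∈ B) (hq : q ∈ B) (x w : Fin n) : blk y z r s p q x w ∈ B := by
  show (if w = y then (if x = y then r else if x = z then s else 0)
    else if w = z then (if x = y then p else if x = z then q else 0)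
    else if x = w then 1 else 0) ∈ B
  split_ifs
  exacts [hr, hs, B.zero_mem, hp, hq, B.zero_mem, B.one_mem, B.zero_mem]

/-- One column operation. -/
theorem op (Gd : GlobN Kf) (y z : Fin n) (hyz : y ≠ z) (a b : Kf) :
    ∃ g : GL (Fin n) Kf, g ∈ GLB Gd.B ∧ ∃ r s p q : Kf, r * a + s * b = 0 ∧
      ∀ (Z : Matrix (Fin n) (Fin n) Kf) (x w : Fin n), (Z * g.1) x w =
        if w = y then Z x y * r + Z x z * s else if w = z then Z x y * p + Z x z * q
        else Z x w := by
  obtain ⟨p, q, r, s, hp, hq, hr, hs, h1, h2⟩ := Gd.hBEZ a b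
  have e1 : blk y z r s p q * blk y z (-q) s p (-r) = 1 := by
    apply blk_mul y z hyz
    · linear_combination h1
    · ring
    · ring
    · linear_combination h1
  have e2 : blk y z (-q) s p (-r) * blk y z r s p q = 1 := by
    apply blk_mul y z hyz
    · linear_combination h1
    · ring
    · ring
    · linear_combination h1
  refine ⟨⟨blk y z r s p q, blk y z (-q) s p (-r), e1, e2⟩, ⟨?_, ?_⟩, r, s, p, q, h2, ?_⟩
  · exact blk_mem Gd.B y z r s p q hr hs hp hq
  · exact blk_mem Gd.B y z (-q) s p (-r) (Gd.B.neg_mem hq) hs hp (Gd.B.neg_mem hr)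
  · intro Z x w
    exact mul_blk Z y z hyz r s p q x w

theorem step (Gd : GlobN Kf) (Z : Matrix (Fin n) (Fin n) Kf) (k : Fin n)
    (h0 : ∃ g : GL (Fin n) Kf, g ∈ GLB Gd.B ∧ ∀ x y : Fin n, k < x → y < x → (Z * g.1) x y = 0)
    (m : ℕ) : ∃ g : GL (Fin n) Kf, g ∈ GLB Gd.B ∧
      (∀ x y : Fin n, k < x → y < x → (Z * g.1) x y = 0) ∧
      ∀ y : Fin n, (y : ℕ) < m → y < k → (Z * g.1) k y = 0 := by
  induction m with
  | zero =>
    obtain ⟨g, h1, h2⟩ := h0
    exact ⟨g, h1, h2, fun y hy => absurd hy (Nat.not_lt_zero _)⟩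
  | succ m ih =>
    obtain ⟨g, h1, h2, h3⟩ := ih
    by_cases hm : m < (k : ℕ)
    · set y : Fin n := ⟨m, lt_trans hm k.2⟩ with hy
      have hyk : y < k := hm
      obtain ⟨u, hu, r, s, p, q, hrs, hu2⟩ := op Gd y k hyk.ne ((Z * g.1) k y) ((Z * g.1) k k)
      refine ⟨g * u, (GLB Gd.B).mul_mem h1 hu, ?_, ?_⟩
      · intro x w hx hw
        show (Z * (g.1 * u.1)) x w = 0
        rw [← Matrix.mul_assoc, hu2, h2 x y hx (hyk.trans hx), h2 x k hx hx, h2 x w hx hw]
        split_ifs <;> simp
      · intro w hw hwk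
        show (Z * (g.1 * u.1)) k w = 0
        rw [← Matrix.mul_assoc, hu2]
        by_cases hwy : w = y
        · rw [if_pos hwy]
          linear_combination hrs
        · rw [if_neg hwy, if_neg hwk.ne]
          refine h3 w ?_ hwk
          have h4 : (w : ℕ) ≠ m := fun h => hwy (Fin.ext h)
          omega
    · refine ⟨g, h1, h2, fun w hw hwk => h3 w ?_ hwk⟩
      have h4 : (w : ℕ) < k := hwk
      omega

theorem all (Gd : GlobN Kf) (Z : Matrix (Fin n) (Fin n) Kf) :
    ∃ g : GL (Fin n) Kf, g ∈ GLB Gd.B ∧ ∀ x y : Fin n, y < x → (Z * g.1) x y = 0 := by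
  have key : ∀ d : ℕ, ∃ g : GL (Fin n) Kf, g ∈ GLB Gd.B ∧
      ∀ x y : Fin n, n ≤ (x : ℕ) + d → y < x → (Z * g.1) x y = 0 := by
    intro d
    induction d with
    | zero => exact ⟨1, (GLB Gd.B).one_mem, fun x y hx => absurd x.2 (by omega)⟩
    | succ d ih =>
      by_cases hd : d < n
      · set k : Fin n := ⟨n - (d + 1), by omega⟩ with hk
        have hk' : (k : ℕ) = n - (d + 1) := rfl
        obtain ⟨g, hg, hg2⟩ := ih
        obtain ⟨u, hu1, hu2, hu3⟩ := step Gd Z k ⟨g, hg, fun x y hx hy => hg2 x y (by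
          have : (k : ℕ) < x := hx
          omega) hy⟩ n
        refine ⟨u, hu1, fun x y hx hy => ?_⟩
        rcases eq_or_lt_of_le (show k ≤ x by
          show (k : ℕ) ≤ x
          omega) with h | h
        · rw [← h] at hy ⊢
          exact hu3 y y.2 hy
        · exact hu2 x y h hy
      · obtain ⟨g, hg, hg2⟩ := ih
        exact ⟨g, hg, fun x y hx hy => hg2 x y (by omega) hy⟩
  obtain ⟨g, hg, hg2⟩ := key n
  exact ⟨g, hg, fun x y hy => hg2 x y (by omega) hy⟩

end HNFr

theorem st_HNF : ST_HNF := by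
  intro Kf _ Gd n X
  obtain ⟨g, hg, h⟩ := HNFr.all Gd (X⁻¹).1
  exact ⟨g, hg, h⟩

end QG
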