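import Pool.Agent.Helper35.QG.Defs

set_option autoImplicit false

/-! Row LEV (typed by helper63): the block diagonal group is quadratic. -/

namespace QG

open QD hiding Vb GLB dg Inst conj_mem_Vb ST_UNIa ST_UNIb ST_COV ST_SET ST_UNQ ST_GEN
  ST_COVR ST_OBD ST_FNS ST_CORE ST_ONE
open QN (QAr gd E0 Grid ew ST_GRD0 ST_GRD1 ST_GRD2 ST_SUPR ST_PRD)

/-- every matrix has some size -/
theorem lev_size (Kf : Type) [Field Kf] (Gd : GlobN Kf) {n : ℕ} (g : GL (Fin n) Kf) : ∃ k : ℕ, SizeLe Gd k g := by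
  classical
  have h : ∀ p : Gd.I × Fin n × Fin n, ∃ k : ℕ, Gd.av p.1 (g.1 p.2.1 p.2.2) ≤ 2 ^ k ∧
      Gd.av p.1 ((g⁻¹).1 p.2.1 p.2.2) ≤ 2 ^ k := by
    intro p
    obtain ⟨k1, h1⟩ := exists_nat_gt (Gd.av p.1 (g.1 p.2.1 p.2.2))
    obtain ⟨k2, h2⟩ := exists_nat_gt (Gd.av p.1 ((g⁻¹).1 p.2.1 p.2.2))
    have e1 : ((k1 : ℕ) : ℝ) ≤ 2 ^ (k1 + k2) := by
      have : k1 ≤ 2 ^ (k1 + k2) := by
        calc k1 ≤ 2 ^ k1 := Nat.lt_two_pow_self.le
          _ ≤ _ := Nat.pow_le_pow_right (by norm_num) (by omega)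
      exact_mod_cast this
    have e2 : ((k2 : ℕ) : ℝ) ≤ 2 ^ (k1 + k2) := by
      have : k2 ≤ 2 ^ (k1 + k2) := by
        calc k2 ≤ 2 ^ k2 := Nat.lt_two_pow_self.le
          _ ≤ _ := Nat.pow_le_pow_right (by norm_num) (by omega)
      exact_mod_cast this
    exact ⟨k1 + k2, h1.le.trans e1, h2.le.trans e2⟩
  choose k hk using h
  refine ⟨∑ p, k p, ?_⟩
  intro v x y
  have hle : k (v, x, y) ≤ ∑ p, k p :=
    Finset.single_le_sum (f := k) (fun _ _ => Nat.zero_le _) (Finset.mem_univ (v, x, y))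
  have h2 : (2 : ℝ) ^ k (v, x, y) ≤ 2 ^ (∑ p, k p) := pow_le_pow_right₀ (by norm_num) hle
  exact ⟨(hk (v, x, y)).1.trans h2, (hk (v, x, y)).2.trans h2⟩

/-- words in an image -/
theorem lev_lift {G G' : Type} [Group G] [Group G'] (f : G →* G') (S : Set G) (w : List G')
    (hw : ∀ s ∈ w, s ∈ f '' S) : ∃ w' : List G, (∀ s ∈ w', s ∈ S) ∧ w'.map f = w := by
  induction w with
  | nil => exact ⟨[], by simp, rfl⟩
  | cons g w ih =>
    obtain ⟨w', h1, h2⟩ := ih (fun s hs => hw s (by simp [hs]))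
    obtain ⟨g', hg', rfl⟩ := hw g (by simp)
    refine ⟨g' :: w', ?_, by simp [h2]⟩
    intro s hs
    rcases List.mem_cons.mp hs with rfl | hs
    · exact hg'
    · exact h1 s hs

theorem lev_qar {G G' : Type} [Group G] [Group G'] (f : G →* G') (hf : Function.Injective f)
    {S : Set G} {c A : ℕ} (h : QAr S S c A) : QAr (f '' S) (f '' S) c A := by
  intro u v hu hv huv
  obtain ⟨u', h1, rfl⟩ := lev_lift f S u hu
  obtain ⟨v', h2, rfl⟩ := lev_lift f S v hv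
  have h3 : u'.prod = v'.prod := by
    apply hf
    rw [map_list_prod, map_list_prod]
    exact huv
  have h4 := (h u' v' h1 h2 h3).map f
  simpa using h4

theorem st_LEV (hBD : ST_BD) (hSUPR : ST_SUPR) (hPRD : ST_PRD) : ST_LEV := by
  classical
  rintro Kf _ Gd i j ⟨Si, Ci, ci, fi, onei, invi, glbi, wi, qi⟩ ⟨Sj, Cj, cj, fj, onej, invj, glbj, wj, qj⟩
    F hF hFb
  have hinj : Function.Injective (bd i j) := (hBD Kf Gd i j 1 1).1
  set fL : GL (Fin i) Kf →* GL (Fin (i + j)) Kf := (bd i j).comp (MonoidHom.inl _ _) with hfL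
  set fR : GL (Fin j) Kf →* GL (Fin (i + j)) Kf := (bd i j).comp (MonoidHom.inr _ _) with hfR
  have hfLa : ∀ a, fL a = bd i j (a, 1) := fun a => rfl
  have hfRa : ∀ d, fR d = bd i j (1, d) := fun d => rfl
  have hLinj : Function.Injective fL := by
    intro a b hab
    have := hinj hab
    simpa using this
  have hRinj : Function.Injective fR := by
    intro a b hab
    have := hinj hab
    simpa using this
  have hsplit : ∀ a d, bd i j (a, d) = fL a * fR d := by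
    intro a d
    rw [hfLa, hfRa, ← map_mul]
    simp
  set c0 := max ci cj with hc0
  set A0 := max Ci Cj with hA0
  have qmono : ∀ {G : Type} [Group G] {S : Set G} {c c' A A' : ℕ}, c ≤ c' → A ≤ A' →
      QAr S S c A → QAr S S c' A' := by
    intro G _ S c c' A A' hc hA h u v hu hv huv
    refine ((h u v hu hv huv).mono hc le_rfl).mono_k ?_
    exact Nat.add_le_add (Nat.mul_le_mul_right _ hA) hA
  have q1 := qmono (le_max_left ci cj) (le_max_left Ci Cj) (lev_qar fL hLinj qi)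
  have q2 := qmono (le_max_right ci cj) (le_max_right Ci Cj) (lev_qar fR hRinj qj)
  have hcomm : ∀ s ∈ fL '' Si, ∀ t ∈ fR '' Sj, s * t = t * s := by
    rintro _ ⟨a, _, rfl⟩ _ ⟨d, _, rfl⟩
    rw [hfLa, hfRa, ← map_mul, ← map_mul]
    simp
  have hcap : ∀ u v : List (GL (Fin (i + j)) Kf), (∀ s ∈ u, s ∈ fL '' Si) →
      (∀ t ∈ v, t ∈ fR '' Sj) → u.prod = v.prod → u.prod = 1 := by
    intro u v hu hv huv
    obtain ⟨u', h1, rfl⟩ := lev_lift fL Si u hu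
    obtain ⟨v', h2, rfl⟩ := lev_lift fR Sj v hv
    rw [← map_list_prod, ← map_list_prod] at huv
    have h3 := hinj huv
    simp only [MonoidHom.inl_apply, MonoidHom.inr_apply, Prod.mk.injEq] at h3
    rw [← map_list_prod, h3.1, map_one]
  obtain ⟨c1, A1, q3⟩ := hPRD (GL (Fin (i + j)) Kf) (fL '' Si) (fR '' Sj) c0 A0
    ⟨1, onei, map_one _⟩ q1 q2 hcomm hcap
    (by rintro _ ⟨a, ha, rfl⟩; exact ⟨a⁻¹, invi a ha, map_inv _ _⟩)
    (by rintro _ ⟨a, ha, rfl⟩; exact ⟨a⁻¹, invj a ha, map_inv _ _⟩)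
  set T0 : Set (GL (Fin (i + j)) Kf) := fL '' Si ∪ fR '' Sj with hT0
  set T : Set (GL (Fin (i + j)) Kf) := T0 ∪ (F ∪ F⁻¹) with hT
  have hT0b : ∀ f ∈ T0, ∃ a ∈ GLB Gd.B, ∃ d ∈ GLB Gd.B, f = bd i j (a, d) := by
    rintro _ (⟨a, ha, rfl⟩ | ⟨d, hd, rfl⟩)
    · exact ⟨a, glbi a ha, 1, one_mem _, rfl⟩
    · exact ⟨1, one_mem _, d, glbj d hd, rfl⟩
  have hTb : ∀ f ∈ T, ∃ a ∈ GLB Gd.B, ∃ d ∈ GLB Gd.B, f = bd i j (a, d) := by
    rintro f (hf | hf | hf)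
    · exact hT0b f hf
    · exact hFb f hf
    · obtain ⟨a, ha, d, hd, hfe⟩ := hFb _ hf
      refine ⟨a⁻¹, inv_mem ha, d⁻¹, inv_mem hd, ?_⟩
      rw [← inv_inv f, hfe, ← map_inv]
      rfl
  have hgen : ∀ a ∈ GLB Gd.B, ∀ d ∈ GLB Gd.B, ∃ w : List (GL (Fin (i + j)) Kf),
      (∀ s ∈ w, s ∈ T0) ∧ w.prod = bd i j (a, d) := by
    intro a ha d hd
    obtain ⟨k1, hk1⟩ := lev_size Kf Gd a
    obtain ⟨k2, hk2⟩ := lev_size Kf Gd d
    obtain ⟨w1, p1, _, s1⟩ := wi k1 a ha hk1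
    obtain ⟨w2, p2, _, s2⟩ := wj k2 d hd hk2
    refine ⟨w1.map fL ++ w2.map fR, ?_, ?_⟩
    · intro s hs
      rcases List.mem_append.mp hs with hs | hs
      · obtain ⟨x, hx, rfl⟩ := List.mem_map.mp hs
        exact Or.inl ⟨x, (s1 x hx).1, rfl⟩
      · obtain ⟨x, hx, rfl⟩ := List.mem_map.mp hs
        exact Or.inr ⟨x, (s2 x hx).1, rfl⟩
    · rw [List.prod_append, ← map_list_prod, ← map_list_prod, p1, p2, hsplit]
  have hT0fin : T0.Finite := (fi.image _).union (fj.image _)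
  have hTfin : T.Finite := hT0fin.union (hF.union hF.inv)
  obtain ⟨c2, A2, q4⟩ := hSUPR (GL (Fin (i + j)) Kf) T0 T T c1 A1 q3 Set.subset_union_left
    Set.subset_union_left le_rfl hTfin (by
      intro t ht
      obtain ⟨a, ha, d, hd, hte⟩ := hTb t ht
      obtain ⟨w, hw1, hw2⟩ := hgen a ha d hd
      exact ⟨w, hw1, hw2.trans hte.symm⟩)
  refine ⟨T, c2, A2, hTfin, ?_, ?_, hTb, ?_, q4⟩
  · rintro t ((⟨a, ha, rfl⟩ | ⟨a, ha, rfl⟩) | ht | ht)
    · exact Or.inl (Or.inl ⟨a⁻¹, invi a ha, map_inv _ _⟩)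
    · exact Or.inl (Or.inr ⟨a⁻¹, invj a ha, map_inv _ _⟩)
    · exact Or.inr (Or.inr (by rw [Set.mem_inv, inv_inv]; exact ht))
    · exact Or.inr (Or.inl ht)
  · exact (Set.subset_union_left (s := F) (t := F⁻¹)).trans Set.subset_union_right
  · intro a ha d hd
    obtain ⟨w, hw1, hw2⟩ := hgen a ha d hd
    exact ⟨w, fun s hs => Or.inl (hw1 s hs), hw2⟩

end QG

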