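import Pool.Agent.Helper35.QG.Defs

set_option autoImplicit false

/-! Row LVL: levels of a norm family. -/

namespace QG

open QD hiding Vb GLB dg Inst conj_mem_Vb ST_UNIa ST_UNIb ST_COV ST_SET ST_UNQ ST_GEN
  ST_COVR ST_OBD ST_FNS ST_CORE ST_ONE
open QN (QAr gd E0 Grid ew ST_GRD0 ST_GRD1 ST_GRD2 ST_SUPR ST_PRD)

theorem lev_mono {Kf : Type} [Field Kf] {Gd : GlobN Kf} {n : ℕ} (N : Gd.I → (Fin n → Kf) → ℝ) {s t : ℤ} (h : s ≤ t) :
    lev N s ⊆ lev N t := fun _ hx =>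
  ⟨hx.1, fun v => (hx.2 v).trans (zpow_le_zpow_right₀ (by norm_num) h)⟩

theorem Wt_mono {Kf : Type} [Field Kf] {Gd : GlobN Kf} {n : ℕ} (N : Gd.I → (Fin n → Kf) → ℝ) {s t : ℤ} (h : s ≤ t) :
    Wt N s ≤ Wt N t := Submodule.span_mono (lev_mono N h)

theorem N0_single {Kf : Type} [Field Kf] {Gd : GlobN Kf} {n : ℕ} (v : Gd.I) (j : Fin n) : N0 Gd n v (Pi.single j 1) = 1 := by
  unfold N0
  rw [Finset.sum_eq_single j]
  · simp
  · intro b _ hb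
    rw [Pi.single_eq_of_ne hb]
    exact map_zero _
  · intro h
    exact absurd (Finset.mem_univ j) h

theorem single_mem_Lam {Kf : Type} [Field Kf] {Gd : GlobN Kf} {n : ℕ} (j : Fin n) : (Pi.single j 1 : Fin n → Kf) ∈ Lam Gd n := by
  intro i
  rcases eq_or_ne i j with rfl | h
  · rw [Pi.single_eq_same]
    exact one_mem _
  · rw [Pi.single_eq_of_ne h]
    exact zero_mem _

/-- non-zero lattice vectors are large somewhere -/
theorem lev_lower (hPF : ST_PF) {Kf : Type} [Field Kf] {Gd : GlobN Kf} {n : ℕ} {N : Gd.I → (Fin n → Kf) → ℝ} {R : ℕ}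
    (hR : ∀ v x, N0 Gd n v x ≤ 2 ^ R * N v x) {x : Fin n → Kf} (hx : x ∈ Lam Gd n) (hx0 : x ≠ 0) :
    ∃ v, (2 : ℝ) ^ (-(R : ℤ)) ≤ N v x := by
  obtain ⟨j, hj⟩ : ∃ j, x j ≠ 0 := by
    by_contra hcon
    push Not at hcon
    exact hx0 (funext hcon)
  obtain ⟨v, hv⟩ := hPF Kf Gd (x j) (hx j) hj
  refine ⟨v, ?_⟩
  have h1 : Gd.av v (x j) ≤ N0 Gd n v x :=
    Finset.single_le_sum (f := fun i => Gd.av v (x i)) (fun i _ => (Gd.av v).nonneg _)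
      (Finset.mem_univ j)
  have h2 : (1 : ℝ) ≤ 2 ^ R * N v x := hv.trans (h1.trans (hR v x))
  have h3 : (0 : ℝ) < 2 ^ R := by positivity
  rw [zpow_neg, zpow_natCast, inv_le_iff_one_le_mul₀ h3, mul_comm]
  exact h2

theorem Wt_top {Kf : Type} [Field Kf] {Gd : GlobN Kf} {n : ℕ} {N : Gd.I → (Fin n → Kf) → ℝ} {R : ℕ}
    (hR : ∀ v x, N v x ≤ 2 ^ R * N0 Gd n v x) : Wt N (R : ℤ) = ⊤ := by
  have h1 : Set.range (Pi.basisFun Kf (Fin n)) ⊆ lev N (R : ℤ) := by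
    rintro _ ⟨j, rfl⟩
    rw [Pi.basisFun_apply]
    refine ⟨single_mem_Lam j, fun v => ?_⟩
    have h := hR v (Pi.single j 1)
    rw [N0_single, mul_one] at h
    rw [zpow_natCast]
    exact h
  have h2 := Submodule.span_mono (R := Kf) h1
  rw [(Pi.basisFun Kf (Fin n)).span_eq] at h2
  exact top_le_iff.1 h2

theorem st_LVL (hPF : ST_PF) : ST_LVL := by
  intro Kf _ Gd n hn N hN
  obtain ⟨R, hR⟩ := hN.bd
  have hbd : ∀ t : ℤ, (∃ x ∈ lev N t, x ≠ 0) → -(R : ℤ) ≤ t := by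
    rintro t ⟨x, hx, hx0⟩
    obtain ⟨v, hv⟩ := lev_lower hPF (fun v x => (hR v x).1) hx.1 hx0
    exact (zpow_le_zpow_iff_right₀ (by norm_num : (1 : ℝ) < 2)).1 (hv.trans (hx.2 v))
  have hne : ∀ t : ℤ, Wt N t = ⊤ → ∃ x ∈ lev N t, x ≠ 0 := by
    intro t ht
    by_contra hcon
    push Not at hcon
    have h1 : Wt N t ≤ ⊥ := by
      unfold Wt
      rw [Submodule.span_le]
      intro x hx
      exact hcon x hx
    rw [ht] at h1
    have : Nonempty (Fin n) := ⟨⟨0, hn⟩⟩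
    have h2 : (Pi.single ⟨0, hn⟩ 1 : Fin n → Kf) ∈ (⊥ : Submodule Kf (Fin n → Kf)) :=
      h1 Submodule.mem_top
    have h3 := congrFun ((Submodule.mem_bot Kf).1 h2) ⟨0, hn⟩
    simp at h3
  have htop : Wt N (R : ℤ) = ⊤ := Wt_top (fun v x => (hR v x).2)
  obtain ⟨t₁, ht₁, hmin₁⟩ := Int.exists_least_of_bdd (P := fun t => ∃ x ∈ lev N t, x ≠ 0)
    ⟨-(R : ℤ), hbd⟩ ⟨(R : ℤ), hne _ htop⟩
  obtain ⟨tn, htn, hminn⟩ := Int.exists_least_of_bdd (P := fun t => Wt N t = ⊤)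
    ⟨t₁, fun t ht => hmin₁ t (hne t ht)⟩ ⟨(R : ℤ), htop⟩
  refine ⟨t₁, tn, hmin₁ tn (hne tn htn), ?_, ht₁, htn, ?_⟩
  · intro x hx
    by_contra hx0
    have := hmin₁ (t₁ - 1) ⟨x, hx, hx0⟩
    omega
  · intro h
    have := hminn (tn - 1) h
    omega

end QG

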