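import Pool.Agent.Helper35.QG.NRM
import Pool.Agent.Helper87.QN.SUPR

set_option autoImplicit false

/-! Row MAIN: the induction over the dimension. -/

namespace QG

open QD hiding Vb GLB dg Inst conj_mem_Vb ST_UNIa ST_UNIb ST_COV ST_SET ST_UNQ ST_GEN
  ST_COVR ST_OBD ST_FNS ST_CORE ST_ONE
open QN (QAr gd E0 Grid ew ST_GRD0 ST_GRD1 ST_GRD2 ST_SUPR ST_PRD subst_words)

/-- Two words in `S₁` with the same product, if null words in `S₁` have quadratic area. -/
theorem two_words {G : Type} [Group G] {S₁ S : Set G} {c A : ℕ}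
    (hinv : ∀ s ∈ S₁, s⁻¹ ∈ S₁)
    (hfill : ∀ w : List G, (∀ s ∈ w, s ∈ S₁) → w.prod = 1 → Ar S c (A * w.length ^ 2 + A) w [])
    (u v : List G) (hu : ∀ s ∈ u, s ∈ S₁) (hv : ∀ s ∈ v, s ∈ S₁) (huv : u.prod = v.prod) :
    Ar S c ((A * (v.length + v.length) ^ 2 + A) + (A * (u.length + v.length) ^ 2 + A)) u v := by
  set vi := (v.map (fun x => x⁻¹)).reverse with hvi
  have hvip : vi.prod = v.prod⁻¹ := by rw [hvi, List.prod_inv_reverse]
  have hvil : vi.length = v.length := by rw [hvi, List.length_reverse, List.length_map]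
  have hviS : ∀ s ∈ vi, s ∈ S₁ := by
    intro s hs
    rw [hvi, List.mem_reverse, List.mem_map] at hs
    obtain ⟨x, hx, rfl⟩ := hs
    exact hinv x (hv x hx)
  have e1 := hfill (u ++ vi) (by
    intro s hs
    rcases List.mem_append.1 hs with h | h
    · exact hu s h
    · exact hviS s h) (by rw [List.prod_append, hvip, huv, mul_inv_cancel])
  have e2 := hfill (vi ++ v) (by
    intro s hs
    rcases List.mem_append.1 hs with h | h
    · exact hviS s h
    · exact hv s h) (by rw [List.prod_append, hvip, inv_mul_cancel])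
  rw [List.length_append, hvil] at e1 e2
  have f1 := (e2.left u).symm
  have f2 := e1.right v
  rw [List.append_nil] at f1
  rw [List.append_assoc, List.nil_append] at f2
  exact f1.trans f2

theorem st_MAIN (hL : ST_LEN) (hF : ST_FIL) : ST_MAIN := by
  intro Kf _ Gd n
  induction n using Nat.strong_induction_on with
  | _ n ih =>
  intro hn
  have ih' : ∀ n' < n, 0 < n' → MainAt Gd n' := fun n' h1 h2 => ih n' h1 h2
  obtain ⟨S₁, C, hfin1, h11, hinv1, hGLB1, hlen⟩ := hL Kf Gd n hn ih'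
  obtain ⟨S, c, A, hfin, h1S, hinv, hGLB, hfill⟩ :=
    hF Kf Gd n hn ih' S₁ C hfin1 h11 hinv1 hGLB1 hlen
  have hgen : ∀ s ∈ S, ∃ w : List (GL (Fin n) Kf), (∀ x ∈ w, x ∈ S₁) ∧ w.prod = s := by
    intro s hs
    obtain ⟨k, hk⟩ := exists_size Gd s
    obtain ⟨w, h1, _, h3⟩ := hlen k s (hGLB s hs) hk
    exact ⟨w, fun x hx => (h3 x hx).1, h1⟩
  choose! f hf using hgen
  obtain ⟨l, hl⟩ : ∃ l : ℕ, ∀ t ∈ S, (f t).length ≤ l := by
    obtain ⟨l, hl⟩ := (hfin.image (fun t => (f t).length)).bddAbove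
    exact ⟨l, fun t ht => hl ⟨t, ht, rfl⟩⟩
  refine ⟨S, C + (5 * A * l ^ 2 + 1 + 2 * A), max c (max 1 l), hfin, h1S h11, hinv, hGLB, ?_, ?_⟩
  · intro k g hg hk
    obtain ⟨w, h1, h2, h3⟩ := hlen k g hg hk
    refine ⟨w, h1, h2.trans (Nat.mul_le_mul_right _ (Nat.le_add_right _ _)), fun s hs =>
      ⟨h1S (h3 s hs).1, (h3 s hs).2⟩⟩
  · intro u v hu hv huv
    obtain ⟨i1, i2, i3, i4⟩ := subst_words f h1S (le_refl S)
      (fun t ht => ⟨(hf t ht).1, (hf t ht).2, hl t ht⟩) u hu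
    obtain ⟨j1, j2, j3, j4⟩ := subst_words f h1S (le_refl S)
      (fun t ht => ⟨(hf t ht).1, (hf t ht).2, hl t ht⟩) v hv
    have h := two_words hinv1 hfill (u.flatMap f) (v.flatMap f) i1 j1 (by rw [i2, j2, huv])
    have k1 := i4.mono (le_max_right c (max 1 l)) (le_refl S)
    have k2 := h.mono (le_max_left c (max 1 l)) (le_refl S)
    have k3 := (j4.mono (le_max_right c (max 1 l)) (le_refl S)).symm
    refine ((k1.trans k2).trans k3).mono_k ?_
    set s := u.length + v.length with hs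
    have e1 : (u.flatMap f).length + (v.flatMap f).length ≤ l * s := by
      rw [hs, Nat.mul_add]
      exact Nat.add_le_add i3 j3
    have e2 : ((u.flatMap f).length + (v.flatMap f).length) ^ 2 ≤ (l * s) ^ 2 :=
      Nat.pow_le_pow_left e1 2
    have e3 : A * ((u.flatMap f).length + (v.flatMap f).length) ^ 2 ≤ A * l ^ 2 * s ^ 2 := by
      calc A * ((u.flatMap f).length + (v.flatMap f).length) ^ 2 ≤ A * (l * s) ^ 2 :=
            Nat.mul_le_mul_left _ e2
        _ = A * l ^ 2 * s ^ 2 := by ring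
    have g1 : (v.flatMap f).length + (v.flatMap f).length ≤ 2 * (l * s) := by
      have : l * v.length ≤ l * s := Nat.mul_le_mul_left _ (by omega)
      omega
    have g2 : ((v.flatMap f).length + (v.flatMap f).length) ^ 2 ≤ (2 * (l * s)) ^ 2 :=
      Nat.pow_le_pow_left g1 2
    have g3 : A * ((v.flatMap f).length + (v.flatMap f).length) ^ 2 ≤ 4 * (A * l ^ 2 * s ^ 2) := by
      calc A * ((v.flatMap f).length + (v.flatMap f).length) ^ 2 ≤ A * (2 * (l * s)) ^ 2 :=
            Nat.mul_le_mul_left _ g2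
        _ = 4 * (A * l ^ 2 * s ^ 2) := by ring
    have e4 : s ≤ s ^ 2 := by
      rcases Nat.eq_zero_or_pos s with h0 | h0
      · rw [h0]; exact Nat.zero_le _
      · nlinarith
    have e5 : (C + (5 * A * l ^ 2 + 1 + 2 * A)) * s ^ 2 =
        C * s ^ 2 + 5 * (A * l ^ 2 * s ^ 2) + s ^ 2 + 2 * A * s ^ 2 := by ring
    have e6 : 0 ≤ C * s ^ 2 := Nat.zero_le _
    have e7 : 0 ≤ 2 * A * s ^ 2 := Nat.zero_le _
    have e8 : 0 ≤ 5 * A * l ^ 2 := Nat.zero_le _
    omega

end QG
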