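import Pool.Agent.Helper35.QG.Defs
import Pool.Agent.Helper79.QG.MNK

set_option autoImplicit false

namespace QG

open QD hiding Vb GLB dg Inst conj_mem_Vb ST_UNIa ST_UNIb ST_COV ST_SET ST_UNQ ST_GEN
  ST_COVR ST_OBD ST_FNS ST_CORE ST_ONE
open QN (QAr gd E0 Grid ew ST_GRD0 ST_GRD1 ST_GRD2 ST_SUPR ST_PRD)

theorem st_MNK : ST_MNK := fun _ _ Gd n => Helper79.QG.mnk Gd.toGlob Gd.hV n

end QG
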