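import Pool.Agent.Helper35.QG.Defs

set_option autoImplicit false

/-! Row MPAR (typed by helper63): words in parabolic subgroups. -/

namespace QG

open QD hiding Vb GLB dg Inst conj_mem_Vb ST_UNIa ST_UNIb ST_COV ST_SET ST_UNQ ST_GEN
  ST_COVR ST_OBD ST_FNS ST_CORE ST_ONE
open QN (QAr gd E0 Grid ew ST_GRD0 ST_GRD1 ST_GRD2 ST_SUPR ST_PRD)

/-- the elementary matrix as an element of `GL` -/
noncomputable def mparE {Kf : Type} [Field Kf] {n : ℕ} (x y : Fin n) (hxy : x ≠ y) (β : Kf) : GL (Fin n) Kf where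
  val := 1 + Matrix.single x y β
  inv := 1 - Matrix.single x y β
  val_inv := by
    rw [add_mul, mul_sub, mul_sub, one_mul, one_mul, mul_one,
      Matrix.single_mul_single_of_ne _ _ _ _ hxy.symm]
    abel
  inv_val := by
    rw [sub_mul, mul_add, mul_add, one_mul, one_mul, mul_one,
      Matrix.single_mul_single_of_ne _ _ _ _ hxy.symm]
    abel

/-- words for block unipotent matrices, along a list of positions -/
theorem mpar_list {Kf : Type} [Field Kf] {Gd : GlobN Kf} {n i : ℕ} {S : Set (GL (Fin n) Kf)} {C k : ℕ} {v : Matrix (Fin n) (Fin n) Kf}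
    (hS : ∀ (x y : Fin n) (β : Kf) (g : GL (Fin n) Kf), x < y → β ∈ Gd.B →
      (∀ v, Gd.av v β ≤ 2 ^ k) → g.1 = 1 + Matrix.single x y β →
      ∃ w : List (GL (Fin n) Kf), w.prod = g ∧ w.length ≤ C * (k + 1) ∧ ∀ s ∈ w, s ∈ S)
    (hB : ∀ x y, v x y ∈ Gd.B) (hk : ∀ (p : Gd.I) x y, Gd.av p (v x y) ≤ 2 ^ k)
    (L : List (Fin n × Fin n)) (hL : ∀ p ∈ L, (p.1 : ℕ) < i ∧ i ≤ (p.2 : ℕ)) :
    ∃ w : List (GL (Fin n) Kf),
      (w.prod).1 = 1 + (L.map fun p => Matrix.single p.1 p.2 (v p.1 p.2)).sum ∧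
      w.length ≤ L.length * (C * (k + 1)) ∧ ∀ s ∈ w, s ∈ S := by
  induction L with
  | nil =>
    refine ⟨[], ?_, by simp, by simp⟩
    simp
  | cons p L ih =>
    obtain ⟨w, h1, h2, h3⟩ := ih (fun q hq => hL q (by simp [hq]))
    have hp := hL p (by simp)
    have hlt : p.1 < p.2 := by
      rw [Fin.lt_def]
      omega
    obtain ⟨w', g1, g2, g3⟩ := hS p.1 p.2 (v p.1 p.2) (mparE p.1 p.2 hlt.ne (v p.1 p.2)) hlt
      (hB _ _) (fun q => hk q _ _) rfl
    refine ⟨w' ++ w, ?_, ?_, ?_⟩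
    · rw [List.prod_append, Units.val_mul, h1, g1]
      show (1 + Matrix.single p.1 p.2 (v p.1 p.2)) * _ = _
      have hz : ∀ L' : List (Fin n × Fin n), (∀ q ∈ L', (q.1 : ℕ) < i ∧ i ≤ (q.2 : ℕ)) →
          Matrix.single p.1 p.2 (v p.1 p.2) *
            (L'.map fun q => Matrix.single q.1 q.2 (v q.1 q.2)).sum = 0 := by
        intro L'
        induction L' with
        | nil => intro _; simp
        | cons q L' ih' =>
          intro hq
          have hq1 := hq q (by simp)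
          have hne : p.2 ≠ q.1 := by
            intro he
            rw [← he] at hq1
            omega
          rw [List.map_cons, List.sum_cons, mul_add,
            Matrix.single_mul_single_of_ne _ _ _ _ hne, zero_add]
          exact ih' (fun r hr => hq r (by simp [hr]))
      have hz' := hz L (fun q hq => hL q (by simp [hq]))
      rw [List.map_cons, List.sum_cons, add_mul, one_mul, mul_add, mul_one, hz']
      abel
    · rw [List.length_append, List.length_cons, Nat.succ_mul]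
      omega
    · intro s hs
      rcases List.mem_append.mp hs with hs | hs
      · exact g3 s hs
      · exact h3 s hs

/-- words for block unipotent matrices -/
theorem mpar_uni {Kf : Type} [Field Kf] {Gd : GlobN Kf} {n i : ℕ} {S : Set (GL (Fin n) Kf)} {C k : ℕ} {g : GL (Fin n) Kf}
    (hS : ∀ (x y : Fin n) (β : Kf) (g : GL (Fin n) Kf), x < y → β ∈ Gd.B →
      (∀ v, Gd.av v β ≤ 2 ^ k) → g.1 = 1 + Matrix.single x y β →
      ∃ w : List (GL (Fin n) Kf), w.prod = g ∧ w.length ≤ C * (k + 1) ∧ ∀ s ∈ w, s ∈ S)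
    (hB : ∀ x y, g.1 x y ∈ Gd.B) (hk : ∀ (p : Gd.I) x y, Gd.av p (g.1 x y) ≤ 2 ^ k)
    (hu : ∀ x y : Fin n, ¬ ((x : ℕ) < i ∧ i ≤ (y : ℕ)) →
      g.1 x y = (1 : Matrix (Fin n) (Fin n) Kf) x y) :
    ∃ w : List (GL (Fin n) Kf), w.prod = g ∧ w.length ≤ n * n * (C * (k + 1)) ∧
      ∀ s ∈ w, s ∈ S := by
  classical
  set P : Finset (Fin n × Fin n) :=
    Finset.univ.filter (fun p => (p.1 : ℕ) < i ∧ i ≤ (p.2 : ℕ)) with hP
  obtain ⟨w, h1, h2, h3⟩ := mpar_list (v := g.1) (i := i) hS hB hk P.toList (by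
    intro p hp
    rw [Finset.mem_toList, hP, Finset.mem_filter] at hp
    exact hp.2)
  have hsum : (P.toList.map fun p => Matrix.single p.1 p.2 (g.1 p.1 p.2)).sum =
      ∑ p ∈ P, Matrix.single p.1 p.2 (g.1 p.1 p.2) := Finset.sum_map_toList _ _
  refine ⟨w, ?_, ?_, h3⟩
  · apply Units.ext
    rw [h1, hsum]
    ext x y
    rw [Matrix.add_apply, Matrix.sum_apply]
    by_cases hxy : (x : ℕ) < i ∧ i ≤ (y : ℕ)
    · have hne : x ≠ y := by
        rintro rfl
        omega
      rw [Matrix.one_apply_ne hne, zero_add, Finset.sum_eq_single (x, y)]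
      · exact Matrix.single_apply_same _ _ _
      · intro q _ hq
        apply Matrix.single_apply_of_ne
        intro hc
        exact hq (Prod.ext hc.1 hc.2)
      · intro hc
        exact absurd (by rw [hP, Finset.mem_filter]; exact ⟨Finset.mem_univ _, hxy⟩) hc
    · rw [hu x y hxy, Finset.sum_eq_zero, add_zero]
      intro q hq
      rw [hP, Finset.mem_filter] at hq
      apply Matrix.single_apply_of_ne
      intro hc
      apply hxy
      rw [← hc.1, ← hc.2]
      exact hq.2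
  · refine h2.trans (Nat.mul_le_mul_right _ ?_)
    rw [Finset.length_toList]
    calc P.card ≤ (Finset.univ : Finset (Fin n × Fin n)).card := Finset.card_filter_le _ _
      _ = n * n := by simp

/-- the case of a fixed least `i` -/
theorem mpar_ij (hELM : ST_ELM) (hDEC : ST_DEC) (hBD : ST_BD) (Kf : Type) [Field Kf] (Gd : GlobN Kf)
    (i j : ℕ) (hi : MainAt Gd i) (hj : MainAt Gd j) :
    ∃ (S : Set (GL (Fin (i + j)) Kf)) (C : ℕ), S.Finite ∧ (∀ s ∈ S, s ∈ GLB Gd.B) ∧
    ∀ k g, g ∈ GLB Gd.B → SizeLe Gd k g → g ∈ Pst i → (∀ i', 0 < i' → i' < i → g ∉ Pst i') →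
      ∃ w : List (GL (Fin (i + j)) Kf), w.prod = g ∧ w.length ≤ C * (k + 1) ∧
        ∀ s ∈ w, s ∈ S ∧ ∀ l, g ∈ Pst l → s ∈ Pst l := by
  obtain ⟨Si, Ci, ci, fi, onei, invi, glbi, wi, qi⟩ := hi
  obtain ⟨Sj, Cj, cj, fj, onej, invj, glbj, wj, qj⟩ := hj
  obtain ⟨Se, Ce, fe, ge, we⟩ := hELM Kf Gd (i + j)
  set fL : GL (Fin i) Kf →* GL (Fin (i + j)) Kf := (bd i j).comp (MonoidHom.inl _ _) with hfL
  set fR : GL (Fin j) Kf →* GL (Fin (i + j)) Kf := (bd i j).comp (MonoidHom.inr _ _) with hfR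
  have hfLa : ∀ a, fL a = bd i j (a, 1) := fun a => rfl
  have hfRa : ∀ d, fR d = bd i j (1, d) := fun d => rfl
  have hsplit : ∀ a d, bd i j (a, d) = fL a * fR d := by
    intro a d
    rw [hfLa, hfRa, ← map_mul]
    simp
  refine ⟨Se ∪ (fL '' Si ∪ fR '' Sj),
    (i + j) * (i + j) * (Ce * (2 + (i + j))) + Ci + Cj,
    fe.union ((fi.image _).union (fj.image _)), ?_, ?_⟩
  · rintro s (hs | ⟨a, ha, rfl⟩ | ⟨d, hd, rfl⟩)
    · exact (ge s hs).1
    · exact (hBD Kf Gd i j a 1).2.1 (glbi a ha) (one_mem _)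
    · exact (hBD Kf Gd i j 1 d).2.1 (one_mem _) (glbj d hd)
  · intro k g hg hk hgi hmin
    obtain ⟨a, d, v, hgv, ha, hd, hka, hkd, hv, hkv, hu, hl⟩ := hDEC Kf Gd i j k g hgi hg hk
    obtain ⟨w1, p1, l1, s1⟩ := wi k a ha hka
    obtain ⟨w2, p2, l2, s2⟩ := wj k d hd hkd
    obtain ⟨w0, p0, l0, s0⟩ := mpar_uni (Gd := Gd) (i := i) (S := Se) (C := Ce)
      (k := 2 * k + (i + j)) (g := v) (we (2 * k + (i + j))) hv.1
      (fun p x y => (hkv p x y).1) hu
    refine ⟨w0 ++ (w1.map fL ++ w2.map fR), ?_, ?_, ?_⟩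
    · rw [List.prod_append, List.prod_append, ← map_list_prod, ← map_list_prod, p0, p1, p2,
        ← hsplit, ← hgv]
    · rw [List.length_append, List.length_append, List.length_map, List.length_map]
      have e1 : Ce * (2 * k + (i + j) + 1) ≤ Ce * (2 + (i + j)) * (k + 1) := by
        rw [mul_assoc]
        apply Nat.mul_le_mul_left
        nlinarith [Nat.zero_le ((i + j) * k)]
      have e2 : (i + j) * (i + j) * (Ce * (2 * k + (i + j) + 1)) ≤
          (i + j) * (i + j) * (Ce * (2 + (i + j))) * (k + 1) := by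
        rw [mul_assoc ((i + j) * (i + j))]
        exact Nat.mul_le_mul_left _ e1
      calc w0.length + (w1.length + w2.length)
          ≤ (i + j) * (i + j) * (Ce * (2 + (i + j))) * (k + 1) +
            (Ci * (k + 1) + Cj * (k + 1)) :=
            Nat.add_le_add (l0.trans e2) (Nat.add_le_add l1 l2)
        _ = _ := by ring
    · have hbig : ∀ l, g ∈ Pst l → 0 < l → i ≤ l := by
        intro l hgl hl0
        by_contra hc
        exact hmin l hl0 (by omega) hgl
      have hzero : ∀ s : GL (Fin (i + j)) Kf, s ∈ Pst 0 := by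
        intro s x y hy _
        omega
      intro s hs
      rcases List.mem_append.mp hs with hs | hs
      · exact ⟨Or.inl (s0 s hs), fun l _ => (ge s (s0 s hs)).2 l⟩
      rcases List.mem_append.mp hs with hs | hs
      · obtain ⟨x, hx, rfl⟩ := List.mem_map.mp hs
        refine ⟨Or.inr (Or.inl ⟨x, (s1 x hx).1, rfl⟩), ?_⟩
        intro l hgl
        rcases Nat.eq_zero_or_pos l with rfl | hl0
        · exact hzero _
        · exact (hBD Kf Gd i j x 1).2.2.2.2 l (hbig l hgl hl0)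
      · obtain ⟨x, hx, rfl⟩ := List.mem_map.mp hs
        refine ⟨Or.inr (Or.inr ⟨x, (s2 x hx).1, rfl⟩), ?_⟩
        intro l hgl
        rcases Nat.eq_zero_or_pos l with rfl | hl0
        · exact hzero _
        · have hil := hbig l hgl hl0
          obtain ⟨l', rfl⟩ := Nat.exists_eq_add_of_le hil
          exact (hBD Kf Gd i j 1 x).2.2.2.1 l' ((s2 x hx).2 l' (hl l' hgl))

theorem st_MPAR (hELM : ST_ELM) (hDEC : ST_DEC) (hBD : ST_BD) : ST_MPAR := by
  classical
  intro Kf _ Gd n hMain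
  have key : ∀ i : ℕ, ∃ (S : Set (GL (Fin n) Kf)) (C : ℕ), S.Finite ∧
      (∀ s ∈ S, s ∈ GLB Gd.B) ∧
      (0 < i → i < n → ∀ k g, g ∈ GLB Gd.B → SizeLe Gd k g → g ∈ Pst i →
        (∀ i', 0 < i' → i' < i → g ∉ Pst i') →
        ∃ w : List (GL (Fin n) Kf), w.prod = g ∧ w.length ≤ C * (k + 1) ∧
          ∀ s ∈ w, s ∈ S ∧ ∀ l, g ∈ Pst l → s ∈ Pst l) := by
    intro i
    by_cases hi : 0 < i ∧ i < n
    · obtain ⟨j, rfl⟩ := Nat.exists_eq_add_of_le hi.2.le
      obtain ⟨S, C, h1, h2, h3⟩ := mpar_ij hELM hDEC hBD Kf Gd i j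
        (hMain i (by omega) hi.1) (hMain j (by omega) (by omega))
      exact ⟨S, C, h1, h2, fun _ _ => h3⟩
    · exact ⟨∅, 0, Set.finite_empty, by simp, fun h1 h2 => absurd ⟨h1, h2⟩ hi⟩
  choose S C hS1 hS2 hS3 using key
  refine ⟨⋃ i ∈ Finset.range n, S i, ∑ i ∈ Finset.range n, C i, ?_, ?_, ?_⟩
  · exact (Finset.range n).finite_toSet.biUnion (fun i _ => hS1 i)
  · intro s hs
    simp only [Set.mem_iUnion] at hs
    obtain ⟨i, _, hs⟩ := hs
    exact hS2 i s hs
  · intro k g hg hk hex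
    have hfind := Nat.find_spec hex
    obtain ⟨w, h1, h2, h3⟩ := hS3 (Nat.find hex) hfind.1 hfind.2.1 k g hg hk hfind.2.2 (by
      intro i' h0 hlt hgi
      exact Nat.find_min hex hlt ⟨h0, by omega, hgi⟩)
    have hmem : Nat.find hex ∈ Finset.range n := Finset.mem_range.mpr hfind.2.1
    refine ⟨w, h1, h2.trans (Nat.mul_le_mul_right _ ?_), ?_⟩
    · exact Finset.single_le_sum (f := C) (fun _ _ => Nat.zero_le _) hmem
    · intro s hs
      refine ⟨?_, (h3 s hs).2⟩
      simp only [Set.mem_iUnion]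
      exact ⟨Nat.find hex, hmem, (h3 s hs).1⟩

end QG

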