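import Pool.Agent.Helper35.QG.Defs
import Pool.Agent.Helper87.QN.QD

set_option autoImplicit false

/-! From words to presentations. -/

namespace QG

open QD hiding Vb GLB dg Inst conj_mem_Vb ST_UNIa ST_UNIb ST_COV ST_SET ST_UNQ ST_GEN
  ST_COVR ST_OBD ST_FNS ST_CORE ST_ONE
open QN (QAr gd E0 Grid ew ST_GRD0 ST_GRD1 ST_GRD2 ST_SUPR ST_PRD)

namespace QDm

/-- Every matrix has some size. -/
theorem exists_size {Kf : Type} [Field Kf] (Gd : GlobN Kf) (n : ℕ) (g : GL (Fin n) Kf) :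
    ∃ k, SizeLe Gd k g := by
  obtain ⟨M, hM⟩ := (Set.finite_range (fun k : Gd.I × Fin n × Fin n =>
    max (Gd.av k.1 (g.1 k.2.1 k.2.2)) (Gd.av k.1 ((g⁻¹).1 k.2.1 k.2.2)))).bddAbove
  obtain ⟨k, hk⟩ := pow_unbounded_of_one_lt M (one_lt_two : (1 : ℝ) < 2)
  refine ⟨k, fun v x y => ?_⟩
  have h := hM ⟨(v, x, y), rfl⟩
  exact ⟨(le_max_left _ _).trans (h.trans hk.le), (le_max_right _ _).trans (h.trans hk.le)⟩

end QDm

theorem st_QD (hM : ST_MAIN) (hP : ST_PRES) : ST_QD := by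
  intro Kf _ Gd n hn
  obtain ⟨S, C, c, h1, _, h3, h4, h5, h6'⟩ := hM Kf Gd n hn
  refine QN.quad_of hP _ S c C h1 h3 h4 (fun g hg => ?_) h6'
  obtain ⟨k, hk⟩ := QDm.exists_size Gd n g
  obtain ⟨w, hw1, _, hw3⟩ := h5 k g hg hk
  exact ⟨w, hw1, fun s hs => (hw3 s hs).1⟩

end QG
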