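import Pool.Agent.Helper35.QG.Defs

set_option autoImplicit false

namespace QG

open QD hiding Vb GLB dg Inst conj_mem_Vb ST_UNIa ST_UNIb ST_COV ST_SET ST_UNQ ST_GEN
  ST_COVR ST_OBD ST_FNS ST_CORE ST_ONE
open QN (QAr gd E0 Grid ew ST_GRD0 ST_GRD1 ST_GRD2 ST_SUPR ST_PRD)

theorem siz_key {Kf : Type} [Field Kf] {Gd : GlobN Kf} {n : ℕ} {C : ℕ}
    (hm : ∀ N : Gd.I → (Fin n → Kf) → ℝ,
      (∀ v (c : Kf) x, N v (c • x) = Gd.av v c * N v x) →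
      (∀ v x y, N v (x + y) ≤ N v x + N v y) →
      (∀ x ∈ Lam Gd n, x ≠ 0 → ∃ v, 1 < N v x) →
      ∀ k : ℕ, (∀ v j, N v (Pi.single j 1) ≤ 2 ^ k) → ∀ y ∈ Lam Gd n, (∀ v, N v y ≤ 2 ^ k) →
        ∀ v j, Gd.av v (y j) ≤ 2 ^ (C * (k + 1)))
    {N : Gd.I → (Fin n → Kf) → ℝ} (hN : IsNF Gd n N) (t₁ : ℤ) (a : ℕ)
    (h1 : ∀ x ∈ lev N (t₁ - 1), x = 0) (γ γ' : GL (Fin n) Kf) (hγ : γ ∈ GLB Gd.B)
    (hγ' : γ' ∈ GLB Gd.B) (hc : ∀ v j, N v (fun i => γ.1 i j) ≤ 2 ^ (t₁ + a))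
    (hc' : ∀ v j, N v (fun i => γ'.1 i j) ≤ 2 ^ (t₁ + a)) (v : Gd.I) (x y : Fin n) :
    Gd.av v ((γ⁻¹ * γ').1 x y) ≤ 2 ^ (C * (a + 2)) := by
  set M : Gd.I → (Fin n → Kf) → ℝ := fun v x => 2 ^ (1 - t₁) * N v (γ.1.mulVec x) with hM
  have hpos : (0 : ℝ) < 2 ^ (1 - t₁) := by positivity
  have h2 : (2 : ℝ) ^ (1 - t₁) * 2 ^ (t₁ + a) = 2 ^ (a + 1) := by
    rw [← zpow_add₀ (by norm_num : (2 : ℝ) ≠ 0)]
    have : 1 - t₁ + (t₁ + (a : ℤ)) = ((a + 1 : ℕ) : ℤ) := by push_cast; ring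
    rw [this, zpow_natCast]
  have hs : ∀ v (c : Kf) x, M v (c • x) = Gd.av v c * M v x := by
    intro v c x
    simp only [hM]
    rw [Matrix.mulVec_smul, hN.smul]; ring
  have ha : ∀ v x y, M v (x + y) ≤ M v x + M v y := by
    intro v x y
    simp only [hM]
    rw [Matrix.mulVec_add, ← mul_add]
    exact mul_le_mul_of_nonneg_left (hN.add _ _ _) hpos.le
  have hb : ∀ x ∈ Lam Gd n, x ≠ 0 → ∃ v, 1 < M v x := by
    intro x hx hx0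
    by_contra hcon
    push Not at hcon
    apply hx0
    have hmem : γ.1.mulVec x ∈ lev N (t₁ - 1) := by
      refine ⟨fun j => ?_, fun v => ?_⟩
      · show ∑ i, γ.1 j i * x i ∈ Gd.B
        exact Gd.B.sum_mem fun i _ => Gd.B.mul_mem (hγ.1 j i) (hx i)
      · have h3 := hcon v
        simp only [hM] at h3
        have h4 : (2 : ℝ) ^ (t₁ - 1) * 2 ^ (1 - t₁) = 1 := by
          rw [← zpow_add₀ (by norm_num : (2 : ℝ) ≠ 0)]
          have : t₁ - 1 + (1 - t₁) = 0 := by ring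
          rw [this, zpow_zero]
        calc N v (γ.1.mulVec x) = 2 ^ (t₁ - 1) * (2 ^ (1 - t₁) * N v (γ.1.mulVec x)) := by
              rw [← mul_assoc, h4, one_mul]
          _ ≤ 2 ^ (t₁ - 1) * 1 := mul_le_mul_of_nonneg_left h3 (by positivity)
          _ = _ := mul_one _
    have h5 := h1 _ hmem
    have h6 : (γ⁻¹).1.mulVec (γ.1.mulVec x) = x := by
      rw [Matrix.mulVec_mulVec, ← Units.val_mul, inv_mul_cancel, Units.val_one, Matrix.one_mulVec]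
    rw [← h6, h5, Matrix.mulVec_zero]
  have hk : ∀ v j, M v (Pi.single j 1) ≤ 2 ^ (a + 1) := by
    intro v j
    simp only [hM]
    have : γ.1.mulVec (Pi.single j 1) = fun i => γ.1 i j := by
      ext i; simp [Matrix.mulVec_single]
    rw [this, ← h2]
    exact mul_le_mul_of_nonneg_left (hc v j) hpos.le
  have hy : (fun i => (γ⁻¹ * γ').1 i y) ∈ Lam Gd n := by
    intro i
    show ∑ l, (γ⁻¹).1 i l * γ'.1 l y ∈ Gd.B
    exact Gd.B.sum_mem fun l _ => Gd.B.mul_mem (hγ.2 i l) (hγ'.1 l y)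
  have hyk : ∀ v, M v (fun i => (γ⁻¹ * γ').1 i y) ≤ 2 ^ (a + 1) := by
    intro v
    simp only [hM]
    have : γ.1.mulVec (fun i => (γ⁻¹ * γ').1 i y) = fun i => γ'.1 i y := by
      ext i
      have h7 : (γ * (γ⁻¹ * γ')).1 i y = γ'.1 i y := by rw [mul_inv_cancel_left]
      rw [← h7]
      rfl
    rw [this, ← h2]
    exact mul_le_mul_of_nonneg_left (hc' v y) hpos.le
  exact hm M hs ha hb (a + 1) hk _ hy hyk v x

theorem st_SIZ (hm : ST_MNK) : ST_SIZ := by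
  intro Kf _ Gd n
  obtain ⟨C, hm⟩ := hm Kf Gd n
  refine ⟨2 * C, ?_⟩
  intro N hN t₁ a h1 γ γ' hγ hγ' hc hc' v x y
  have hle : (2 : ℝ) ^ (C * (a + 2)) ≤ 2 ^ (2 * C * (a + 1)) := by
    refine pow_le_pow_right₀ (by norm_num) ?_
    have : C * (a + 2) ≤ C * (2 * (a + 1)) := Nat.mul_le_mul le_rfl (by omega)
    calc _ ≤ _ := this
      _ = _ := by ring
  refine ⟨(siz_key hm hN t₁ a h1 γ γ' hγ hγ' hc hc' v x y).trans hle, ?_⟩
  have : (γ⁻¹ * γ')⁻¹ = γ'⁻¹ * γ := by rw [mul_inv_rev, inv_inv]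
  rw [this]
  exact (siz_key hm hN t₁ a h1 γ' γ hγ' hγ hc' hc v x y).trans hle

end QG
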