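import Pool.Agent.Helper35.QG.FING

set_option autoImplicit false

/-! The field in terms of the transcendence degree. -/

namespace QG

open QD hiding Vb GLB dg Inst conj_mem_Vb ST_UNIa ST_UNIb ST_COV ST_SET ST_UNQ ST_GEN
  ST_COVR ST_OBD ST_FNS ST_CORE ST_ONE
open Polynomial

/-- A field of characteristic `p` and transcendence degree at most one embeds in the algebraic
closure of `F_p(t)`. -/
theorem exists_hom_of_trdeg (p : ℕ) [Fact p.Prime] (K : Type) [Field K] [Algebra (ZMod p) K]
    (h : Algebra.trdeg (ZMod p) K ≤ 1) :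
    Nonempty (K →+* AlgebraicClosure (RatFunc (ZMod p))) := by
  classical
  by_cases ht : Algebra.IsAlgebraic (ZMod p) K
  · haveI := ht
    exact ⟨(IsAlgClosed.lift : K →ₐ[ZMod p] AlgebraicClosure (RatFunc (ZMod p))).toRingHom⟩
  · rw [← Algebra.transcendental_iff_not_isAlgebraic] at ht
    obtain ⟨t, ht⟩ := ht.transcendental
    have hind : AlgebraicIndependent (ZMod p) (fun _ : Unit => t) :=
      algebraicIndependent_unique_type_iff.2 ht
    have hb : IsTranscendenceBasis (ZMod p) (fun _ : Unit => t) :=
      hind.isTranscendenceBasis_of_trdeg_le_of_finite (by simpa using h)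
    haveI halg := hb.isAlgebraic
    -- algebra structures over the polynomial ring
    letI i1 : Algebra (ZMod p)[X] K := (aeval t : (ZMod p)[X] →ₐ[ZMod p] K).toRingHom.toAlgebra
    have hi1 : ∀ q : (ZMod p)[X], algebraMap (ZMod p)[X] K q = aeval t q := fun q => rfl
    have hinj : Function.Injective (algebraMap (ZMod p)[X] K) := by
      have := transcendental_iff_injective.1 ht
      exact this
    haveI : FaithfulSMul (ZMod p)[X] K := (faithfulSMul_iff_algebraMap_injective _ _).2 hinj
    haveI : Module.IsTorsionFree (ZMod p)[X] K := inferInstance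
    have hrange : Set.range (fun _ : Unit => t) = {t} := by
      ext x; simp [eq_comm]
    haveI : Algebra.IsAlgebraic (ZMod p)[X] K := by
      let f : (ZMod p)[X] →+* Algebra.adjoin (ZMod p) (Set.range fun _ : Unit => t) :=
        (aeval (⟨t, Algebra.subset_adjoin ⟨(), rfl⟩⟩ :
          Algebra.adjoin (ZMod p) (Set.range fun _ : Unit => t)) :
          (ZMod p)[X] →ₐ[ZMod p] _).toRingHom
      refine Algebra.IsAlgebraic.of_ringHom_of_comp_eq f (RingHom.id K) ?_
        Function.injective_id ?_
      · rintro ⟨x, hx⟩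
        have hx' := hx
        rw [hrange, Algebra.adjoin_singleton_eq_range_aeval] at hx'
        obtain ⟨q, hq⟩ := hx'
        refine ⟨q, Subtype.ext ?_⟩
        show ((aeval _ q : Algebra.adjoin (ZMod p) (Set.range fun _ : Unit => t)) : K) = x
        rw [← hq]
        exact (aeval_algHom_apply (Algebra.adjoin (ZMod p) (Set.range fun _ : Unit => t)).val
          (⟨t, Algebra.subset_adjoin ⟨(), rfl⟩⟩ :
            Algebra.adjoin (ZMod p) (Set.range fun _ : Unit => t)) q).symm
      · ext q
        · simp [f, hi1]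
        · simp [f, hi1]
    haveI : FaithfulSMul (ZMod p)[X] (AlgebraicClosure (RatFunc (ZMod p))) := by
      rw [faithfulSMul_iff_algebraMap_injective]
      rw [IsScalarTower.algebraMap_eq (ZMod p)[X] (RatFunc (ZMod p))
        (AlgebraicClosure (RatFunc (ZMod p)))]
      exact (algebraMap (RatFunc (ZMod p)) _).injective.comp
        (IsFractionRing.injective (ZMod p)[X] (RatFunc (ZMod p)))
    haveI : Module.IsTorsionFree (ZMod p)[X] (AlgebraicClosure (RatFunc (ZMod p))) :=
      inferInstance
    exact ⟨(IsAlgClosed.lift : K →ₐ[(ZMod p)[X]] AlgebraicClosure (RatFunc (ZMod p))).toRingHom⟩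

/-- Embedding of fields. -/
theorem emb_hom {K L : Type} [Field K] [Field L] (f : K →+* L)
    (hL : ∀ (n : ℕ) (H : Subgroup (GL (Fin n) L)), H.FG → EmbQD H) (n : ℕ)
    (H : Subgroup (GL (Fin n) K)) (hH : H.FG) : EmbQD H := by
  have hinj : Function.Injective (Matrix.GeneralLinearGroup.map f : GL (Fin n) K →* GL (Fin n) L) := by
    intro a b hab
    refine Units.ext (Matrix.ext fun x y => f.injective ?_)
    have := congrArg (fun g : GL (Fin n) L => g.1 x y) hab
    simpa using this
  refine FINGm.embQD_inj (hL n (H.map (Matrix.GeneralLinearGroup.map f)) ?_)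
    (H.equivMapOfInjective _ hinj).toMonoidHom (H.equivMapOfInjective _ hinj).injective
  obtain ⟨s, hs⟩ := hH
  classical
  exact ⟨s.image (Matrix.GeneralLinearGroup.map f), by
    rw [Finset.coe_image, ← MonoidHom.map_closure, hs]⟩

/-- The final theorem in terms of the transcendence degree. -/
theorem final_trdeg (hF : ST_FING) (K : Type) [Field K]
    (hK : (∃ _ : Algebra ℚ K, Algebra.IsAlgebraic ℚ K) ∨
      ∃ (p : ℕ) (_ : Fact p.Prime) (_ : Algebra (ZMod p) K), Algebra.trdeg (ZMod p) K ≤ 1)
    (n : ℕ) (H : Subgroup (GL (Fin n) K)) (hH : H.FG) : EmbQD H := by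
  rcases hK with hK | ⟨p, i0, i1, hK⟩
  · exact hF K (Or.inl hK) n H hH
  · obtain ⟨f⟩ := exists_hom_of_trdeg p K hK
    exact emb_hom f (fun n H hH => hF (AlgebraicClosure (RatFunc (ZMod p)))
      (Or.inr ⟨p, i0, inferInstance, inferInstance⟩) n H hH) n H hH

end QG
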