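import Pool.Agent.Helper35.QG.PF
import Pool.Agent.Helper35.QG.MNK
import Pool.Agent.Helper35.QG.SIZ
import Pool.Agent.Helper35.QG.HNF
import Pool.Agent.Helper35.QG.BAS
import Pool.Agent.Helper35.QG.NRM
import Pool.Agent.Helper35.QG.LVL
import Pool.Agent.Helper35.QG.FLG
import Pool.Agent.Helper35.QG.GEO
import Pool.Agent.Helper35.QG.ELM
import Pool.Agent.Helper35.QG.DEC
import Pool.Agent.Helper35.QG.BD
import Pool.Agent.Helper35.QG.MPAR
import Pool.Agent.Helper35.QG.LEV
import Pool.Agent.Helper35.QG.PAR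
import Pool.Agent.Helper35.QG.LEN
import Pool.Agent.Helper35.QG.FIL
import Pool.Agent.Helper35.QG.MAIN
import Pool.Agent.Helper35.QG.QD
import Pool.Agent.Helper35.QG.GFN
import Pool.Agent.Helper35.QG.GQN
import Pool.Agent.Helper35.QG.DESC
import Pool.Agent.Helper35.QG.FING
import Pool.Agent.Helper35.QG.TRD
import Pool.Agent.Helper24.QG.CORE
import Pool.Agent.Helper24.QG.COVR
import Pool.Agent.Helper24.QG.COV
import Pool.Agent.Helper24.QG.FNS
import Pool.Agent.Helper24.QG.GEN
import Pool.Agent.Helper24.QG.OBD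
import Pool.Agent.Helper24.QG.SET
import Pool.Agent.Helper24.QG.UNQ
import Pool.Agent.Helper24.QG.UNI
import Pool.Agent.Helper24.QD.TRF
import Pool.Agent.Helper24.QD.PRES
import Pool.Agent.Helper24.QD.GSCAL
import Pool.Agent.Helper24.QD.RAY
import Pool.Agent.Helper24.QD.CRS
import Pool.Agent.Helper24.QD.NFL
import Pool.Agent.Helper24.QD.IND
import Pool.Agent.Helper87.QN.GRD0
import Pool.Agent.Helper87.QN.GRD1
import Pool.Agent.Helper87.QN.GRD2
import Pool.Agent.Helper87.QN.SUPR
import Pool.Agent.Helper87.QN.PRD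

set_option autoImplicit false

/-! Assembly of the modules. -/

namespace QG

open QD hiding Vb GLB dg Inst conj_mem_Vb ST_UNIa ST_UNIb ST_COV ST_SET ST_UNQ ST_GEN
  ST_COVR ST_OBD ST_FNS ST_CORE ST_ONE
open QN (QAr gd E0 Grid ew ST_GRD0 ST_GRD1 ST_GRD2 ST_SUPR ST_PRD)

theorem all_GEO : ST_GEO :=
  st_GEO (st_LVL st_PF) st_FLG (st_BAS st_HNF) (st_SIZ st_MNK) st_NRM st_PF

theorem all_CORE : ST_CORE :=
  st_CORE st_SET (QD.st_M1 (QD.st_WEX QD.st_R1) (QD.st_WMUL QD.st_R3
    (QD.st_CRS QD.st_R2 QD.st_R4)) (QD.st_WPASS QD.st_R5) (QD.st_WONE QD.st_R6)) st_UNQ QD.st_TRF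
    st_GEN (st_COVR (st_COV st_UNIb)) (st_OBD st_UNIa) (st_FNS st_UNIa)

theorem all_MPAR : ST_MPAR := st_MPAR st_ELM st_DEC st_BD

theorem all_GRD1 : ST_GRD1 := QN.st_GRD1

theorem all_GRD2 : ST_GRD2 := QN.st_GRD2 QN.st_GRD0 all_GRD1

theorem all_PAR : ST_PAR :=
  st_PAR (st_LEV st_BD QN.st_SUPR QN.st_PRD) st_BD st_DEC QN.st_SUPR all_CORE

theorem all_LEN : ST_LEN := st_LEN all_GEO st_NRM all_MPAR QN.st_GRD0 all_GRD1

theorem all_FIL : ST_FIL := st_FIL all_GEO st_NRM all_MPAR all_PAR QN.st_GRD0 all_GRD2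

theorem all_MAIN : ST_MAIN := st_MAIN all_LEN all_FIL

/-- `GL_n(B)` has a finite presentation with quadratic Dehn function. -/
theorem all_QD : ST_QD := st_QD all_MAIN QD.st_PRES

/-- Every finitely generated matrix group over an algebraic extension of `ℚ` or of a rational
function field `F_p(t)` embeds in a finitely presented group with quadratic Dehn function. -/
theorem all_FING : ST_FING := st_FING all_QD QD.st_GSCAL st_DESC st_GQN st_GFN

/-- Every finitely generated matrix group over a field which is algebraic over `ℚ`, or has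
characteristic `p` and transcendence degree at most one over `F_p`, embeds in a finitely
presented group with quadratic Dehn function. -/
theorem final (K : Type) [Field K]
    (hK : (∃ _ : Algebra ℚ K, Algebra.IsAlgebraic ℚ K) ∨
      ∃ (p : ℕ) (_ : Fact p.Prime) (_ : Algebra (ZMod p) K), Algebra.trdeg (ZMod p) K ≤ 1)
    (n : ℕ) (H : Subgroup (GL (Fin n) K)) (hH : H.FG) : EmbQD H :=
  final_trdeg all_FING K hK n H hH

end QG
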