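import Pool.Agent.Helper24.QG.Stmts
import Pool.Agent.Helper87.QN.Defs

set_option autoImplicit false

/-!
`GL_n(B)` has quadratic Dehn function for the ring `B` of global data: definitions and statements
(generic version of `Pool.Agent.Helper87.QN`).
-/

namespace QG

open QD hiding Vb GLB dg Inst conj_mem_Vb ST_UNIa ST_UNIb ST_COV ST_SET ST_UNQ ST_GEN
  ST_COVR ST_OBD ST_FNS ST_CORE ST_ONE
open QN (QAr gd E0 Grid ew ST_GRD0 ST_GRD1 ST_GRD2 ST_SUPR ST_PRD)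

/-! ### The data -/

/-- Global data with independent units and 2 x 2 Bezout relations: everything needed for the
reduction theory of `GL_n(B)`. -/
structure GlobN (k : Type) [Field k] extends Glob k where
  hV : ∀ v0, ∃ w : kˣ, (w : k) ∈ B ∧ ((w⁻¹ : kˣ) : k) ∈ B ∧ 1 < av v0 (w : k) ∧
    ∀ v, v ≠ v0 → av v (w : k) < 1
  hUN : ∀ a ∈ B, a ≠ 0 → ∃ u : kˣ, (u : k) ∈ B ∧ ((u⁻¹ : kˣ) : k) ∈ B ∧ ∀ i, 1 ≤ av i (a * u)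
  hBEZ : ∀ a b : k, ∃ p q r s : k, p ∈ B ∧ q ∈ B ∧ r ∈ B ∧ s ∈ B ∧ p * s - q * r = 1 ∧
    r * a + s * b = 0

/-- Every finite subset of `k` lies in the ring of such data. -/
def IsGlobN (k : Type) [Field k] : Prop := ∀ F : Set k, F.Finite → ∃ A : GlobN k, F ⊆ A.B

/-! ### Matrices -/

/-- `g` and `g⁻¹` have entries of absolute value at most `2 ^ k` at all places. -/
def SizeLe {Kf : Type} [Field Kf] (Gd : GlobN Kf) {n : ℕ} (k : ℕ) (g : GL (Fin n) Kf) : Prop :=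
  ∀ (v : Gd.I) (x y : Fin n), Gd.av v (g.1 x y) ≤ 2 ^ k ∧ Gd.av v ((g⁻¹).1 x y) ≤ 2 ^ k

/-- The stabiliser of the span of the first `i` basis vectors. -/
def Pst {Kf : Type} [Field Kf] {n : ℕ} (i : ℕ) : Subgroup (GL (Fin n) Kf) where
  carrier := {g | ∀ x y : Fin n, (y : ℕ) < i → i ≤ (x : ℕ) → g.1 x y = 0 ∧ (g⁻¹).1 x y = 0}
  one_mem' := by
    intro x y hy hx
    have h : x ≠ y := by rintro rfl; omega
    constructor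
    · show (1 : Matrix (Fin n) (Fin n) Kf) x y = 0
      exact Matrix.one_apply_ne h
    · rw [inv_one]
      show (1 : Matrix (Fin n) (Fin n) Kf) x y = 0
      exact Matrix.one_apply_ne h
  mul_mem' := by
    intro g h hg hh x y hy hx
    constructor
    · show (g.1 * h.1) x y = 0
      rw [Matrix.mul_apply]
      refine Finset.sum_eq_zero fun z _ => ?_
      rcases lt_or_ge (z : ℕ) i with hz | hz
      · rw [(hg x z hz hx).1, zero_mul]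
      · rw [(hh z y hy hz).1, mul_zero]
    · rw [mul_inv_rev]
      show ((h⁻¹).1 * (g⁻¹).1) x y = 0
      rw [Matrix.mul_apply]
      refine Finset.sum_eq_zero fun z _ => ?_
      rcases lt_or_ge (z : ℕ) i with hz | hz
      · rw [(hh x z hz hx).2, zero_mul]
      · rw [(hg z y hy hz).2, mul_zero]
  inv_mem' := by
    intro g hg x y hy hx
    refine ⟨(hg x y hy hx).2, ?_⟩
    rw [inv_inv]
    exact (hg x y hy hx).1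

/-- Block diagonal matrices, as a homomorphism of monoids of matrices. -/
def bdM {Kf : Type} [Field Kf] (i j : ℕ) : Matrix (Fin i) (Fin i) Kf × Matrix (Fin j) (Fin j) Kf →*
    Matrix (Fin (i + j)) (Fin (i + j)) Kf where
  toFun p := (Matrix.fromBlocks p.1 0 0 p.2).submatrix finSumFinEquiv.symm finSumFinEquiv.symm
  map_one' := by
    rw [Prod.fst_one, Prod.snd_one, Matrix.fromBlocks_one, Matrix.submatrix_one_equiv]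
  map_mul' := by
    intro p q
    rw [Matrix.submatrix_mul_equiv, Matrix.fromBlocks_multiply]
    simp

/-- Block diagonal matrices `diag(a, d)`. -/
def bd {Kf : Type} [Field Kf] (i j : ℕ) : GL (Fin i) Kf × GL (Fin j) Kf →* GL (Fin (i + j)) Kf :=
  (Units.map (bdM i j)).comp MulEquiv.prodUnits.symm.toMonoidHom

/-! ### Norm families -/

/-- The basic norm family: the sum of the absolute values of the coordinates. -/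
noncomputable def N0 {Kf : Type} [Field Kf] (Gd : GlobN Kf) (n : ℕ) : Gd.I → (Fin n → Kf) → ℝ := fun v x => ∑ j, Gd.av v (x j)

/-- Norm families. -/
structure IsNF {Kf : Type} [Field Kf] (Gd : GlobN Kf) (n : ℕ) (N : Gd.I → (Fin n → Kf) → ℝ) : Prop where
  smul : ∀ v (c : Kf) x, N v (c • x) = Gd.av v c * N v x
  add : ∀ v x y, N v (x + y) ≤ N v x + N v y
  bd : ∃ R : ℕ, ∀ v x, N0 Gd n v x ≤ 2 ^ R * N v x ∧ N v x ≤ 2 ^ R * N0 Gd n v x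

/-- The distance of `N` and `N'` is at most `r`. -/
def Close {Kf : Type} [Field Kf] {Gd : GlobN Kf} {n : ℕ} (r : ℕ) (N N' : Gd.I → (Fin n → Kf) → ℝ) : Prop :=
  ∀ v x, N v x ≤ 2 ^ r * N' v x ∧ N' v x ≤ 2 ^ r * N v x

/-- The norm family `2 ^ t · N ∘ g⁻¹`. -/
noncomputable def actN {Kf : Type} [Field Kf] {Gd : GlobN Kf} {n : ℕ} (t : ℤ) (g : GL (Fin n) Kf) (N : Gd.I → (Fin n → Kf) → ℝ) :
    Gd.I → (Fin n → Kf) → ℝ := fun v x => 2 ^ t * N v ((g⁻¹).1.mulVec x)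

/-- The maximum of two norm families. -/
def maxN {Kf : Type} [Field Kf] {Gd : GlobN Kf} {n : ℕ} (N N' : Gd.I → (Fin n → Kf) → ℝ) : Gd.I → (Fin n → Kf) → ℝ :=
  fun v x => max (N v x) (N' v x)

/-- The lattice `B ^ n`. -/
def Lam {Kf : Type} [Field Kf] (Gd : GlobN Kf) (n : ℕ) : Set (Fin n → Kf) := {x | ∀ j, x j ∈ Gd.B}

/-- Lattice vectors of norm at most `2 ^ t` at all places. -/
def lev {Kf : Type} [Field Kf] {Gd : GlobN Kf} {n : ℕ} (N : Gd.I → (Fin n → Kf) → ℝ) (t : ℤ) : Set (Fin n → Kf) :=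
  {x | x ∈ Lam Gd n ∧ ∀ v, N v x ≤ 2 ^ t}

/-- Their span. -/
def Wt {Kf : Type} [Field Kf] {Gd : GlobN Kf} {n : ℕ} (N : Gd.I → (Fin n → Kf) → ℝ) (t : ℤ) : Submodule Kf (Fin n → Kf) :=
  Submodule.span Kf (lev N t)

/-! ### Statements: number theory and lattices -/

/-- a non-zero element of `B` is large somewhere -/
def ST_PF : Prop := ∀ (Kf : Type) [Field Kf] (Gd : GlobN Kf) (β : Kf), β ∈ Gd.B → β ≠ 0 →
  ∃ v, 1 ≤ Gd.av v β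

/-- Hermite form: `GL_n(k) = GL_n(B) B_n(k)` -/
def ST_HNF : Prop := ∀ (Kf : Type) [Field Kf] (Gd : GlobN Kf) (n : ℕ) (X : GL (Fin n) Kf),
  ∃ γ : GL (Fin n) Kf, γ ∈ GLB Gd.B ∧ ∀ x y : Fin n, y < x → (X⁻¹ * γ).1 x y = 0

/-- Dirichlet -/
def ST_MNK : Prop := ∀ (Kf : Type) [Field Kf] (Gd : GlobN Kf) (n : ℕ), ∃ C : ℕ,
  ∀ N : Gd.I → (Fin n → Kf) → ℝ,
  (∀ v (c : Kf) x, N v (c • x) = Gd.av v c * N v x) → (∀ v x y, N v (x + y) ≤ N v x + N v y) →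
  (∀ x ∈ Lam Gd n, x ≠ 0 → ∃ v, 1 < N v x) →
  ∀ k : ℕ, (∀ v j, N v (Pi.single j 1) ≤ 2 ^ k) → ∀ y ∈ Lam Gd n, (∀ v, N v y ≤ 2 ^ k) →
    ∀ v j, Gd.av v (y j) ≤ 2 ^ (C * (k + 1))

/-- adapted bases of the lattice -/
def ST_BAS : Prop := ∀ (Kf : Type) [Field Kf] (Gd : GlobN Kf) (n : ℕ), ∀ X : GL (Fin n) Kf, (∀ x y, X.1 x y ∈ Gd.B) →
  ∃ γ : GL (Fin n) Kf, γ ∈ GLB Gd.B ∧ (∀ x y : Fin n, y < x → (X⁻¹ * γ).1 x y = 0) ∧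
    ∀ v x y, Gd.av v ((X⁻¹ * γ).1 x y) ≤ 1

/-- levels -/
def ST_LVL : Prop := ∀ (Kf : Type) [Field Kf] (Gd : GlobN Kf) (n : ℕ), 0 < n → ∀ N, IsNF Gd n N →
  ∃ t₁ tn : ℤ, t₁ ≤ tn ∧ (∀ x ∈ lev N (t₁ - 1), x = 0) ∧ (∃ x ∈ lev N t₁, x ≠ 0) ∧
    Wt N tn = ⊤ ∧ Wt N (tn - 1) ≠ ⊤

/-- successive minima vectors, adapted to all levels -/
def ST_FLG : Prop := ∀ (Kf : Type) [Field Kf] (Gd : GlobN Kf) (n : ℕ), ∀ N, IsNF Gd n N → ∀ tn : ℤ, Wt N tn = ⊤ →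
  ∃ X : GL (Fin n) Kf, (∀ j, (fun i => X.1 i j) ∈ lev N tn) ∧
    ∀ t : ℤ, ∃ i : ℕ, i ≤ n ∧
      ∀ x, x ∈ Wt N t ↔ ∀ j : Fin n, i ≤ (j : ℕ) → ((X⁻¹).1.mulVec x) j = 0

/-- sizes of changes of basis -/
def ST_SIZ : Prop := ∀ (Kf : Type) [Field Kf] (Gd : GlobN Kf) (n : ℕ), ∃ C : ℕ, ∀ N, IsNF Gd n N → ∀ (t₁ : ℤ) (a : ℕ),
  (∀ x ∈ lev N (t₁ - 1), x = 0) → ∀ γ γ' : GL (Fin n) Kf, γ ∈ GLB Gd.B → γ' ∈ GLB Gd.B →
  (∀ v j, N v (fun i => γ.1 i j) ≤ 2 ^ (t₁ + a)) →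
  (∀ v j, N v (fun i => γ'.1 i j) ≤ 2 ^ (t₁ + a)) → SizeLe Gd (C * (a + 1)) (γ⁻¹ * γ')

/-- the reduction map `ρ` and the depth `D` -/
def ST_GEO : Prop := ∀ (Kf : Type) [Field Kf] (Gd : GlobN Kf) (n : ℕ), 0 < n →
  ∃ (C : ℕ) (ρ : (Gd.I → (Fin n → Kf) → ℝ) → GL (Fin n) Kf)
    (D : (Gd.I → (Fin n → Kf) → ℝ) → ℕ),
    (∀ N, IsNF Gd n N → ρ N ∈ GLB Gd.B) ∧
    (∀ N N' r, IsNF Gd n N → IsNF Gd n N' → Close r N N' → D N' ≤ D N + 2 * r) ∧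
    (∀ N N' r, IsNF Gd n N → IsNF Gd n N' → Close r N N' →
      SizeLe Gd (C * (D N + r + 1)) ((ρ N)⁻¹ * ρ N')) ∧
    (∀ N r, IsNF Gd n N → C * (r + 1) ≤ D N → ∃ i, 0 < i ∧ i < n ∧
      ∀ N' N'', IsNF Gd n N' → IsNF Gd n N'' → Close r N N' → Close r N N'' →
        (ρ N')⁻¹ * ρ N'' ∈ Pst i) ∧
    (∀ (g : GL (Fin n) Kf) (t : ℤ), g ∈ GLB Gd.B → D (actN t g (N0 Gd n)) = 0 ∧
      SizeLe Gd C (g⁻¹ * ρ (actN t g (N0 Gd n))))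

/-- operations on norm families -/
def ST_NRM : Prop := ∀ (Kf : Type) [Field Kf] (Gd : GlobN Kf) (n : ℕ), IsNF Gd n (N0 Gd n) ∧
  (∀ N (t : ℤ) (g : GL (Fin n) Kf), IsNF Gd n N → IsNF Gd n (actN t g N)) ∧
  (∀ N N', IsNF Gd n N → IsNF Gd n N' → IsNF Gd n (maxN N N')) ∧
  (∀ (N : Gd.I → (Fin n → Kf) → ℝ), Close 0 N N) ∧
  (∀ (N N' : Gd.I → (Fin n → Kf) → ℝ) r, Close r N N' → Close r N' N) ∧
  (∀ (N N' N'' : Gd.I → (Fin n → Kf) → ℝ) r s, Close r N N' → Close s N' N'' →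
    Close (r + s) N N'') ∧
  (∀ (N₁ N₂ N₁' N₂' : Gd.I → (Fin n → Kf) → ℝ) r, Close r N₁ N₁' → Close r N₂ N₂' →
    Close r (maxN N₁ N₂) (maxN N₁' N₂')) ∧
  (∀ (N : Gd.I → (Fin n → Kf) → ℝ), IsNF Gd n N → ∀ (t : ℤ) (g : GL (Fin n) Kf),
    Close 1 (actN t g N) (actN (t + 1) g N)) ∧
  (∃ e : ℕ, ∀ (t : ℤ) (g h : GL (Fin n) Kf) (k : ℕ), SizeLe Gd k h →
    Close (k + e) (actN t g (N0 Gd n)) (actN t (g * h) (N0 Gd n))) ∧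
  (∀ (s t : ℤ) (g h : GL (Fin n) Kf) (r : ℕ),
    Close r (actN (Gd := Gd) s g (N0 Gd n)) (actN s h (N0 Gd n)) → t + r ≤ s →
    maxN (actN (Gd := Gd) s g (N0 Gd n)) (actN t h (N0 Gd n)) = actN s g (N0 Gd n))

/-! ### Statements: the induction -/

/-- The main statement: a finite generating set `S` of `GL_n(B)`, words of logarithmic length
respecting the parabolic subgroups, and quadratic areas. -/
def MainAt {Kf : Type} [Field Kf] (Gd : GlobN Kf) (n : ℕ) : Prop := ∃ (S : Set (GL (Fin n) Kf)) (C c : ℕ), S.Finite ∧ 1 ∈ S ∧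
  (∀ s ∈ S, s⁻¹ ∈ S) ∧ (∀ s ∈ S, s ∈ GLB Gd.B) ∧
  (∀ k g, g ∈ GLB Gd.B → SizeLe Gd k g → ∃ w : List (GL (Fin n) Kf), w.prod = g ∧
    w.length ≤ C * (k + 1) ∧ ∀ s ∈ w, s ∈ S ∧ ∀ i, g ∈ Pst i → s ∈ Pst i) ∧
  QAr S S c C

/-- elementary matrices -/
def ST_ELM : Prop := ∀ (Kf : Type) [Field Kf] (Gd : GlobN Kf) (n : ℕ), ∃ (S : Set (GL (Fin n) Kf)) (C : ℕ),
  S.Finite ∧ (∀ s ∈ S, s ∈ GLB Gd.B ∧ ∀ i, s ∈ Pst i) ∧
  ∀ (k : ℕ) (x y : Fin n) (β : Kf) (g : GL (Fin n) Kf), x < y → β ∈ Gd.B →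
    (∀ v, Gd.av v β ≤ 2 ^ k) → g.1 = 1 + Matrix.single x y β →
    ∃ w : List (GL (Fin n) Kf), w.prod = g ∧ w.length ≤ C * (k + 1) ∧ ∀ s ∈ w, s ∈ S

/-- decomposition of the parabolic subgroup `P_i` of `GL_{i+j}(B)` -/
def ST_DEC : Prop := ∀ (Kf : Type) [Field Kf] (Gd : GlobN Kf) (i j k : ℕ) (g : GL (Fin (i + j)) Kf), g ∈ Pst i → g ∈ GLB Gd.B →
  SizeLe Gd k g → ∃ (a : GL (Fin i) Kf) (d : GL (Fin j) Kf) (v : GL (Fin (i + j)) Kf),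
    g = v * bd i j (a, d) ∧ a ∈ GLB Gd.B ∧ d ∈ GLB Gd.B ∧ SizeLe Gd k a ∧ SizeLe Gd k d ∧
    v ∈ GLB Gd.B ∧ SizeLe Gd (2 * k + (i + j)) v ∧
    (∀ x y : Fin (i + j), ¬ ((x : ℕ) < i ∧ i ≤ (y : ℕ)) →
      v.1 x y = (1 : Matrix (Fin (i + j)) (Fin (i + j)) Kf) x y) ∧
    (∀ l, g ∈ Pst (i + l) → d ∈ Pst l)

/-- block diagonal matrices: elementary facts -/
def ST_BD : Prop := ∀ (Kf : Type) [Field Kf] (Gd : GlobN Kf) (i j : ℕ) (a : GL (Fin i) Kf) (d : GL (Fin j) Kf),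
  Function.Injective (bd (Kf := Kf) i j) ∧
  (a ∈ GLB Gd.B → d ∈ GLB Gd.B → bd i j (a, d) ∈ GLB Gd.B) ∧
  bd i j (a, d) ∈ Pst i ∧ (∀ l, d ∈ Pst l → bd i j (1, d) ∈ Pst (i + l)) ∧
  (∀ l, i ≤ l → bd i j (a, 1) ∈ Pst l)

/-- words in parabolic subgroups -/
def ST_MPAR : Prop := ∀ (Kf : Type) [Field Kf] (Gd : GlobN Kf) (n : ℕ), (∀ n' < n, 0 < n' → MainAt Gd n') →
  ∃ (S : Set (GL (Fin n) Kf)) (C : ℕ), S.Finite ∧ (∀ s ∈ S, s ∈ GLB Gd.B) ∧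
  ∀ k g, g ∈ GLB Gd.B → SizeLe Gd k g → (∃ i, 0 < i ∧ i < n ∧ g ∈ Pst i) →
    ∃ w : List (GL (Fin n) Kf), w.prod = g ∧ w.length ≤ C * (k + 1) ∧
      ∀ s ∈ w, s ∈ S ∧ ∀ i, g ∈ Pst i → s ∈ Pst i

/-- the block diagonal group is quadratic -/
def ST_LEV : Prop := ∀ (Kf : Type) [Field Kf] (Gd : GlobN Kf) (i j : ℕ), MainAt Gd i → MainAt Gd j →
  ∀ F : Set (GL (Fin (i + j)) Kf), F.Finite →
  (∀ f ∈ F, ∃ a ∈ GLB Gd.B, ∃ d ∈ GLB Gd.B, f = bd i j (a, d)) →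
  ∃ (T : Set (GL (Fin (i + j)) Kf)) (c A : ℕ), T.Finite ∧ (∀ t ∈ T, t⁻¹ ∈ T) ∧ F ⊆ T ∧
    (∀ f ∈ T, ∃ a ∈ GLB Gd.B, ∃ d ∈ GLB Gd.B, f = bd i j (a, d)) ∧
    (∀ a ∈ GLB Gd.B, ∀ d ∈ GLB Gd.B, ∃ w : List (GL (Fin (i + j)) Kf),
      (∀ s ∈ w, s ∈ T) ∧ w.prod = bd i j (a, d)) ∧ QAr T T c A

/-- the parabolic subgroups are quadratic -/
def ST_PAR : Prop := ∀ (Kf : Type) [Field Kf] (Gd : GlobN Kf) (n : ℕ), (∀ n' < n, 0 < n' → MainAt Gd n') →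
  ∀ i, 0 < i → i < n → ∃ S₁ : Set (GL (Fin n) Kf), S₁.Finite ∧
    (∀ s ∈ S₁, s ∈ GLB Gd.B ∧ s ∈ Pst i) ∧
    ∀ S : Set (GL (Fin n) Kf), S.Finite → (∀ s ∈ S, s⁻¹ ∈ S) → S₁ ⊆ S →
      (∀ s ∈ S, s ∈ GLB Gd.B) → ∃ c A : ℕ, QAr S (S ∩ {g | g ∈ Pst i}) c A

/-- words of logarithmic length -/
def ST_LEN : Prop := ∀ (Kf : Type) [Field Kf] (Gd : GlobN Kf) (n : ℕ), 0 < n → (∀ n' < n, 0 < n' → MainAt Gd n') →
  ∃ (S : Set (GL (Fin n) Kf)) (C : ℕ), S.Finite ∧ 1 ∈ S ∧ (∀ s ∈ S, s⁻¹ ∈ S) ∧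
  (∀ s ∈ S, s ∈ GLB Gd.B) ∧
  (∀ k g, g ∈ GLB Gd.B → SizeLe Gd k g → ∃ w : List (GL (Fin n) Kf), w.prod = g ∧
    w.length ≤ C * (k + 1) ∧ ∀ s ∈ w, s ∈ S ∧ ∀ i, g ∈ Pst i → s ∈ Pst i)

/-- fillings -/
def ST_FIL : Prop := ∀ (Kf : Type) [Field Kf] (Gd : GlobN Kf) (n : ℕ), 0 < n → (∀ n' < n, 0 < n' → MainAt Gd n') →
  ∀ (S₁ : Set (GL (Fin n) Kf)) (C : ℕ), S₁.Finite → 1 ∈ S₁ → (∀ s ∈ S₁, s⁻¹ ∈ S₁) →
  (∀ s ∈ S₁, s ∈ GLB Gd.B) →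
  (∀ k g, g ∈ GLB Gd.B → SizeLe Gd k g → ∃ w : List (GL (Fin n) Kf), w.prod = g ∧
    w.length ≤ C * (k + 1) ∧ ∀ s ∈ w, s ∈ S₁ ∧ ∀ i, g ∈ Pst i → s ∈ Pst i) →
  ∃ (S : Set (GL (Fin n) Kf)) (c A : ℕ), S.Finite ∧ S₁ ⊆ S ∧ (∀ s ∈ S, s⁻¹ ∈ S) ∧
    (∀ s ∈ S, s ∈ GLB Gd.B) ∧
    ∀ w : List (GL (Fin n) Kf), (∀ s ∈ w, s ∈ S₁) → w.prod = 1 → Ar S c (A * w.length ^ 2 + A) w []

/-- The group `GL_n(B)` is quadratic. -/
def ST_MAIN : Prop := ∀ (Kf : Type) [Field Kf] (Gd : GlobN Kf) (n : ℕ), 0 < n → MainAt Gd n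

/-- `GL_n(B)` has a finite presentation with quadratic Dehn function. -/
def ST_QD : Prop := ∀ (Kf : Type) [Field Kf] (Gd : GlobN Kf) (n : ℕ), 0 < n →
  QuadDehn (GLB (ι := Fin n) Gd.B)

/-! ### Statements: instances and the final theorem -/

/-- GQN: the rationals. -/
def ST_GQN : Prop := IsGlobN ℚ

/-- GFN: rational function fields over prime fields. -/
def ST_GFN : Prop := ∀ (p : ℕ) [Fact p.Prime], IsGlobN (RatFunc (ZMod p))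

/-- DESC: a finitely generated linear group over an algebraic extension of `k` is linear over a
finite extension of `k`. -/
def ST_DESC : Prop := ∀ (k K : Type) [Field k] [Field K] [Algebra k K] [Algebra.IsAlgebraic k K]
  (n : ℕ) (H : Subgroup (GL (Fin n) K)), H.FG →
  ∃ (K' : Type) (_ : Field K') (_ : Algebra k K') (_ : FiniteDimensional k K')
    (H' : Subgroup (GL (Fin n) K')), H'.FG ∧ Nonempty (H ≃* H')

/-- FING: the final theorem. -/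
def ST_FING : Prop := ∀ (K : Type) [Field K],
  ((∃ _ : Algebra ℚ K, Algebra.IsAlgebraic ℚ K) ∨
    ∃ (p : ℕ) (_ : Fact p.Prime) (_ : Algebra (RatFunc (ZMod p)) K),
      Algebra.IsAlgebraic (RatFunc (ZMod p)) K) →
  ∀ (n : ℕ) (H : Subgroup (GL (Fin n) K)), H.FG → EmbQD H

end QG
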